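import Mathlib

/-!
# Characters of finite abelian groups and the group determinant
-/

set_option autoImplicit false
set_option linter.unusedSectionVars false

namespace H25SI

open Matrix

section
variable {A : Type} [CommGroup A] [Fintype A]

noncomputable instance instFintypeDual : Fintype (A →* ℂˣ) := Fintype.ofFinite _

theorem card_dual : Fintype.card (A →* ℂˣ) = Fintype.card A := by
  rw [← Nat.card_eq_fintype_card, ← Nat.card_eq_fintype_card]
  exact CommGroup.card_monoidHom_of_hasEnoughRootsOfUnity A ℂ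

open Classical in
theorem sum_chars (a : A) :
    ∑ ψ : A →* ℂˣ, ((ψ a : ℂˣ) : ℂ) = if a = 1 then (Fintype.card A : ℂ) else 0 := by
  split_ifs with h
  · subst h
    simp [card_dual]
  · obtain ⟨φ, hφ⟩ := CommGroup.exists_apply_ne_one_of_hasEnoughRootsOfUnity A ℂ h
    have h1 : ∑ ψ : A →* ℂˣ, (((φ * ψ) a : ℂˣ) : ℂ) = ∑ ψ : A →* ℂˣ, ((ψ a : ℂˣ) : ℂ) :=
      Fintype.sum_equiv (Equiv.mulLeft φ) _ _ fun ψ => rfl
    have h2 : ((φ a : ℂˣ) : ℂ) * ∑ ψ : A →* ℂˣ, ((ψ a : ℂˣ) : ℂ)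
        = ∑ ψ : A →* ℂˣ, ((ψ a : ℂˣ) : ℂ) := by
      conv_rhs => rw [← h1]
      rw [Finset.mul_sum]
      refine Finset.sum_congr rfl fun ψ _ => ?_
      rw [MonoidHom.mul_apply, Units.val_mul]
    have h3 : ((φ a : ℂˣ) : ℂ) - 1 ≠ 0 := by
      intro h4
      apply hφ
      ext
      rw [Units.val_one]
      linear_combination h4
    have h4 : (((φ a : ℂˣ) : ℂ) - 1) * ∑ ψ : A →* ℂˣ, ((ψ a : ℂˣ) : ℂ) = 0 := by
      linear_combination h2
    exact (mul_eq_zero.1 h4).resolve_left h3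

open Classical in
theorem sum_group (ψ : A →* ℂˣ) :
    ∑ a : A, ((ψ a : ℂˣ) : ℂ) = if ψ = 1 then (Fintype.card A : ℂ) else 0 := by
  split_ifs with h
  · subst h
    simp
  · obtain ⟨b, hb⟩ : ∃ b, ψ b ≠ 1 := by
      by_contra hc
      push Not at hc
      exact h (MonoidHom.ext hc)
    have h1 : ∑ a : A, ((ψ (b * a) : ℂˣ) : ℂ) = ∑ a : A, ((ψ a : ℂˣ) : ℂ) :=
      Fintype.sum_equiv (Equiv.mulLeft b) _ _ fun a => rfl
    have h2 : ((ψ b : ℂˣ) : ℂ) * ∑ a : A, ((ψ a : ℂˣ) : ℂ) = ∑ a : A, ((ψ a : ℂˣ) : ℂ) := by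
      conv_rhs => rw [← h1]
      rw [Finset.mul_sum]
      refine Finset.sum_congr rfl fun a _ => ?_
      rw [map_mul, Units.val_mul]
    have h3 : ((ψ b : ℂˣ) : ℂ) - 1 ≠ 0 := by
      intro h4
      apply hb
      ext
      rw [Units.val_one]
      linear_combination h4
    have h4 : (((ψ b : ℂˣ) : ℂ) - 1) * ∑ a : A, ((ψ a : ℂˣ) : ℂ) = 0 := by
      linear_combination h2
    exact (mul_eq_zero.1 h4).resolve_left h3

end

/-- the value of an element of `ℤ[G]` at a linear character -/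
noncomputable def ev {G : Type} [Group G] (ψ : G →* ℂˣ) : MonoidAlgebra ℤ G →ₐ[ℤ] ℂ :=
  MonoidAlgebra.lift ℤ ℂ G ((Units.coeHom ℂ).comp ψ)

theorem ev_single {G : Type} [Group G] (ψ : G →* ℂˣ) (g : G) (n : ℤ) :
    ev ψ (MonoidAlgebra.single g n) = n * (ψ g : ℂ) := by
  rw [ev, MonoidAlgebra.lift_single]
  simp

theorem ev_sum {G : Type} [Group G] [Fintype G] (ψ : G →* ℂˣ) (s : MonoidAlgebra ℤ G) :
    ev ψ s = ∑ g : G, (s.coeff g : ℂ) * (ψ g : ℂ) := by
  rw [ev, MonoidAlgebra.lift_apply, Finsupp.sum_fintype]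
  · refine Finset.sum_congr rfl fun g _ => ?_
    simp
  · intro g
    simp

section
variable {A : Type} [CommGroup A] [Fintype A]

theorem ev_separates (s : MonoidAlgebra ℤ A) (h : ∀ ψ : A →* ℂˣ, ev ψ s = 0) : s = 0 := by
  classical
  ext a
  have h1 : ∑ ψ : A →* ℂˣ, ((ψ a⁻¹ : ℂˣ) : ℂ) * ev ψ s = (Fintype.card A : ℂ) * (s.coeff a : ℂ) := by
    simp_rw [ev_sum, Finset.mul_sum]
    rw [Finset.sum_comm]
    have h2 : ∀ b : A, ∑ ψ : A →* ℂˣ, ((ψ a⁻¹ : ℂˣ) : ℂ) * ((s.coeff b : ℂ) * ((ψ b : ℂˣ) : ℂ))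
        = (s.coeff b : ℂ) * if b = a then (Fintype.card A : ℂ) else 0 := by
      intro b
      have h3 := sum_chars (a⁻¹ * b)
      rw [show (a⁻¹ * b = 1) = (b = a) from propext ⟨fun h => by
        rw [inv_mul_eq_one] at h; exact h.symm, fun h => by rw [h, inv_mul_cancel]⟩] at h3
      rw [← h3, Finset.mul_sum]
      refine Finset.sum_congr rfl fun ψ _ => ?_
      rw [map_mul, Units.val_mul]
      ring
    rw [Finset.sum_congr rfl fun b _ => h2 b]
    simp only [mul_ite, mul_zero, Finset.sum_ite_eq', Finset.mem_univ, if_true]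
    ring
  have h2 : (Fintype.card A : ℂ) * (s.coeff a : ℂ) = 0 := by
    rw [← h1]
    exact Finset.sum_eq_zero fun ψ _ => by rw [h ψ, mul_zero]
  have h3 : (Fintype.card A : ℂ) ≠ 0 := by
    exact_mod_cast Fintype.card_ne_zero
  have h4 : (s.coeff a : ℂ) = 0 := (mul_eq_zero.1 h2).resolve_left h3
  exact_mod_cast h4

/-- Dedekind's group determinant of a finite abelian group -/
theorem group_det (F : A → ℂ) [DecidableEq A] :
    (Matrix.of fun s t : A => F (s * t⁻¹)).det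
      = ∏ μ : A →* ℂˣ, ∑ q : A, F q * ((μ q : ℂˣ) : ℂ) := by
  classical
  have hc : (Fintype.card A : ℂ) ≠ 0 := by exact_mod_cast Fintype.card_ne_zero
  let T : Matrix (A →* ℂˣ) A ℂ := Matrix.of fun μ s => ((μ s : ℂˣ) : ℂ)
  let T' : Matrix A (A →* ℂˣ) ℂ := Matrix.of fun s μ => ((μ s⁻¹ : ℂˣ) : ℂ) / Fintype.card A
  have h1 : T * T' = 1 := by
    ext μ ν
    rw [Matrix.mul_apply]
    have h2 := sum_group (μ * ν⁻¹)
    have h3 : ∀ s : A, T μ s * T' s ν = (((μ * ν⁻¹) s : ℂˣ) : ℂ) / Fintype.card A := by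
      intro s
      simp only [T, T', Matrix.of_apply, MonoidHom.mul_apply, MonoidHom.inv_apply, map_inv,
        Units.val_mul]
      ring
    rw [Finset.sum_congr rfl fun s _ => h3 s, ← Finset.sum_div, h2, Matrix.one_apply]
    by_cases h : μ = ν
    · rw [if_pos (by subst h; exact mul_inv_cancel μ), if_pos h, div_self hc]
    · rw [if_neg fun hh => h (mul_inv_eq_one.1 hh), if_neg h, zero_div]
  have h2 : T' * T = 1 := by
    ext s t
    rw [Matrix.mul_apply]
    have h2 := sum_chars (s⁻¹ * t)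
    have h3 : ∀ μ : A →* ℂˣ, T' s μ * T μ t = ((μ (s⁻¹ * t) : ℂˣ) : ℂ) / Fintype.card A := by
      intro μ
      simp only [T, T', Matrix.of_apply, map_mul, Units.val_mul]
      ring
    rw [Finset.sum_congr rfl fun s _ => h3 s, ← Finset.sum_div, h2, Matrix.one_apply]
    by_cases h : s = t
    · rw [if_pos (by rw [h, inv_mul_cancel]), if_pos h, div_self hc]
    · rw [if_neg (by rwa [inv_mul_eq_one]), if_neg h, zero_div]
  have h3 : T * (Matrix.of fun s t : A => F (s * t⁻¹))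
      = Matrix.diagonal (fun μ : A →* ℂˣ => ∑ q : A, F q * ((μ q : ℂˣ) : ℂ)) * T := by
    ext μ t
    rw [Matrix.mul_apply, Matrix.diagonal_mul, Finset.sum_mul]
    refine Fintype.sum_equiv (Equiv.mulRight t⁻¹) _ _ fun s => ?_
    simp only [T, Matrix.of_apply, Equiv.coe_mulRight]
    have : ((μ s : ℂˣ) : ℂ) = ((μ (s * t⁻¹) : ℂˣ) : ℂ) * ((μ t : ℂˣ) : ℂ) := by
      rw [← Units.val_mul, ← map_mul, inv_mul_cancel_right]
    rw [this]
    ring
  rw [← Matrix.det_conj_of_mul_eq_one h1 h2, h3, Matrix.mul_assoc, h1, Matrix.mul_one,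
    Matrix.det_diagonal]

end

end H25SI
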