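import Mathlib
import Pool.Agent.H25.SI.Ab

/-!
# Induced matrix representations
-/

set_option autoImplicit false
set_option linter.unusedSectionVars false

namespace H25SI

open Matrix
open scoped IsMulCommutative

section
variable {G : Type} [Group G] (A : Subgroup G) [A.Normal]

theorem cz_mem (g : G) (q : G ⧸ A) : (((g : G ⧸ A) * q).out)⁻¹ * g * q.out ∈ A := by
  rw [mul_assoc, ← QuotientGroup.eq, QuotientGroup.out_eq', QuotientGroup.mk_mul,
    QuotientGroup.out_eq']

/-- the cocycle of the coset representatives -/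
noncomputable def cz (g : G) (q : G ⧸ A) : A := ⟨_, cz_mem A g q⟩

theorem cz_one (q : G ⧸ A) : cz A 1 q = 1 := by
  apply Subtype.ext
  simp only [cz, QuotientGroup.mk_one, one_mul, mul_one, inv_mul_cancel, Subgroup.coe_one]

theorem cz_mul (g h : G) (q : G ⧸ A) :
    cz A (g * h) q = cz A g ((h : G ⧸ A) * q) * cz A h q := by
  apply Subtype.ext
  simp only [cz, Subgroup.coe_mul]
  rw [QuotientGroup.mk_mul, mul_assoc ((g : G ⧸ A))]
  group

theorem mul_out (g : G) (q : G ⧸ A) : g * q.out = ((g : G ⧸ A) * q).out * (cz A g q : G) := by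
  simp only [cz]
  group

variable {R : Type} [CommRing R] [Fintype (G ⧸ A)] [DecidableEq (G ⧸ A)]

/-- the matrix representation induced from a homomorphism of `A` -/
noncomputable def indM (f : A →* R) : G →* Matrix (G ⧸ A) (G ⧸ A) R where
  toFun g := Matrix.of fun s q => if s = (g : G ⧸ A) * q then f (cz A g q) else 0
  map_one' := by
    ext s q
    simp only [Matrix.of_apply, QuotientGroup.mk_one, one_mul, cz_one, map_one, Matrix.one_apply]
  map_mul' g h := by
    ext s q
    rw [Matrix.mul_apply]
    simp only [Matrix.of_apply]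
    rw [Finset.sum_eq_single ((h : G ⧸ A) * q)]
    · rw [if_pos rfl, QuotientGroup.mk_mul, mul_assoc, cz_mul, map_mul, ite_mul, zero_mul]
    · intro r _ hr
      rw [if_neg hr, mul_zero]
    · intro hq
      exact absurd (Finset.mem_univ _) hq

theorem indM_apply (f : A →* R) (g : G) (s q : G ⧸ A) :
    indM A f g s q = if s = (g : G ⧸ A) * q then f (cz A g q) else 0 := rfl

/-- extension of a matrix representation to the group ring -/
noncomputable def ext {n : Type} [Fintype n] [DecidableEq n] (ρ : G →* Matrix n n R) :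
    MonoidAlgebra ℤ G →ₐ[ℤ] Matrix n n R :=
  MonoidAlgebra.lift ℤ (Matrix n n R) G ρ

theorem ext_single {n : Type} [Fintype n] [DecidableEq n] (ρ : G →* Matrix n n R) (g : G) (m : ℤ) :
    ext ρ (MonoidAlgebra.single g m) = m • ρ g := by
  rw [ext, MonoidAlgebra.lift_single]

theorem ext_of {n : Type} [Fintype n] [DecidableEq n] (ρ : G →* Matrix n n R) (g : G) :
    ext ρ (MonoidAlgebra.of ℤ G g) = ρ g := by
  rw [ext, MonoidAlgebra.lift_of]

theorem ext_sum [Fintype G] {n : Type} [Fintype n] [DecidableEq n] (ρ : G →* Matrix n n R)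
    (x : MonoidAlgebra ℤ G) : ext ρ x = ∑ g : G, x.coeff g • ρ g := by
  rw [ext, MonoidAlgebra.lift_apply, Finsupp.sum_fintype]
  intro g
  simp

end

end H25SI
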