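import Mathlib
import Pool.Agent.H25.SI.Ind

/-!
# Norms and determinants of induced representations
-/

set_option autoImplicit false
set_option linter.unusedSectionVars false

namespace H25SI

open Matrix
open scoped IsMulCommutative

/-- a linear character with values in `ℂ` -/
noncomputable def cv {G : Type} [Group G] (ψ : G →* ℂˣ) : G →* ℂ := (Units.coeHom ℂ).comp ψ

theorem cv_apply {G : Type} [Group G] (ψ : G →* ℂˣ) (g : G) : cv ψ g = ((ψ g : ℂˣ) : ℂ) := rfl

theorem cv_ne {G : Type} [Group G] (ψ : G →* ℂˣ) (g : G) : cv ψ g ≠ 0 := Units.ne_zero _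

theorem ev_of {G : Type} [Group G] (ψ : G →* ℂˣ) (g : G) : ev ψ (MonoidAlgebra.of ℤ G g) = cv ψ g := by
  rw [ev, MonoidAlgebra.lift_of]
  rfl

section
variable {G : Type} [Group G] [Fintype G] (A : Subgroup G) [A.Normal] [Fintype (G ⧸ A)]
  [DecidableEq (G ⧸ A)]

theorem map_ext {R S : Type} [CommRing R] [CommRing S] (φ : R →+* S) (f : A →* R)
    (x : MonoidAlgebra ℤ G) :
    φ.mapMatrix (ext (indM A f) x) = ext (indM A ((φ : R →* S).comp f)) x := by
  rw [ext_sum, ext_sum, map_sum]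
  refine Finset.sum_congr rfl fun g _ => ?_
  rw [map_zsmul]
  congr 1
  ext s q
  rw [RingHom.mapMatrix_apply, Matrix.map_apply, indM_apply, indM_apply]
  split_ifs
  · rfl
  · exact map_zero φ

section
variable [IsMulCommutative A]

/-- the norm from `ℤ[G]` to `ℤ[A]` -/
noncomputable def nrm (x : MonoidAlgebra ℤ G) : MonoidAlgebra ℤ A :=
  (ext (indM A (MonoidAlgebra.of ℤ A)) x).det

theorem ev_nrm (ψ : A →* ℂˣ) (x : MonoidAlgebra ℤ G) :
    ev ψ (nrm A x) = (ext (indM A (cv ψ)) x).det := by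
  have h1 := RingHom.map_det (ev ψ : MonoidAlgebra ℤ A →+* ℂ)
    (ext (indM A (MonoidAlgebra.of ℤ A)) x)
  rw [map_ext] at h1
  have h2 : (((ev ψ : MonoidAlgebra ℤ A →+* ℂ) : MonoidAlgebra ℤ A →* ℂ).comp
      (MonoidAlgebra.of ℤ A)) = cv ψ := by
    ext a
    exact ev_of ψ a
  rw [h2] at h1
  exact h1

end

theorem ext_indM_apply (f : A →* ℂ) (x : MonoidAlgebra ℤ G) (s q : G ⧸ A) :
    ext (indM A f) x s q
      = ∑ g : G, if s = (g : G ⧸ A) * q then (x.coeff g : ℂ) * f (cz A g q) else 0 := by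
  rw [ext_sum, Matrix.sum_apply]
  refine Finset.sum_congr rfl fun g _ => ?_
  rw [Matrix.smul_apply, indM_apply, zsmul_eq_mul, mul_ite, mul_zero]

theorem det_extend (hQ : ∀ x y : G ⧸ A, x * y = y * x) (lam : G →* ℂˣ) (x : MonoidAlgebra ℤ G) :
    (ext (indM A (cv (lam.comp A.subtype))) x).det
      = ∏ μ ∈ (Set.toFinite (Set.univ : Set ((G ⧸ A) →* ℂˣ))).toFinset,
          ev (lam * μ.comp (QuotientGroup.mk' A)) x := by
  classical
  let _ : CommGroup (G ⧸ A) := { (inferInstance : Group (G ⧸ A)) with mul_comm := hQ }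
  let F : G ⧸ A → ℂ := fun r => ∑ g : G, if (g : G ⧸ A) = r then (x.coeff g : ℂ) * cv lam g else 0
  have h1 : ext (indM A (cv (lam.comp A.subtype))) x
      = Matrix.diagonal (fun s : G ⧸ A => (cv lam s.out)⁻¹)
        * (Matrix.of fun s t : G ⧸ A => F (s * t⁻¹))
        * Matrix.diagonal (fun s : G ⧸ A => cv lam s.out) := by
    ext s q
    rw [ext_indM_apply, Matrix.mul_diagonal, Matrix.diagonal_mul, Matrix.of_apply, Finset.mul_sum,
      Finset.sum_mul]
    refine Finset.sum_congr rfl fun g _ => ?_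
    by_cases h : s = (g : G ⧸ A) * q
    · have h2 : (g : G ⧸ A) = s * q⁻¹ := by rw [h, mul_inv_cancel_right]
      rw [if_pos h, if_pos h2]
      have h3 := congrArg (cv lam) (mul_out A g q)
      rw [← h, map_mul, map_mul] at h3
      have h4 : cv (lam.comp A.subtype) (cz A g q) = cv lam (cz A g q : G) := rfl
      rw [h4]
      have h5 := cv_ne lam s.out
      field_simp
      linear_combination (-(x.coeff g : ℂ)) * h3
    · have h2 : (g : G ⧸ A) ≠ s * q⁻¹ := by
        intro h2
        apply h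
        rw [h2, inv_mul_cancel_right]
      rw [if_neg h, if_neg h2]
      ring
  rw [h1, Matrix.det_mul, Matrix.det_mul, Matrix.det_diagonal, Matrix.det_diagonal, group_det,
    mul_comm (∏ _, _), mul_assoc, ← Finset.prod_mul_distrib]
  rw [Finset.prod_congr rfl fun s _ => inv_mul_cancel₀ (cv_ne lam s.out), Finset.prod_const_one,
    mul_one]
  refine Finset.prod_congr ?_ fun μ _ => ?_
  · ext μ
    simp
  · rw [ev_sum]
    have h2 : ∀ q : G ⧸ A, F q * ((μ q : ℂˣ) : ℂ)
        = ∑ g : G, if (g : G ⧸ A) = q then (x.coeff g : ℂ) * cv lam g * ((μ (g : G ⧸ A) : ℂˣ) : ℂ)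
          else 0 := by
      intro q
      rw [Finset.sum_mul]
      refine Finset.sum_congr rfl fun g _ => ?_
      split_ifs with h
      · rw [h]
      · rw [zero_mul]
    rw [Finset.sum_congr rfl fun q _ => h2 q, Finset.sum_comm]
    refine Finset.sum_congr rfl fun g _ => ?_
    rw [Finset.sum_ite_eq, if_pos (Finset.mem_univ _), MonoidHom.mul_apply, Units.val_mul, mul_assoc]
    rfl

end

end H25SI
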