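import Mathlib
import Pool.Agent.H25.SI.Det

/-!
# Characters, induced characters, multiplicative functions on characters
-/

set_option autoImplicit false
set_option linter.unusedSectionVars false

namespace H25SI

open Matrix
open scoped IsMulCommutative

/-- `χ` is the character of a complex representation -/
def IsCharacter {G : Type} [Group G] (χ : G → ℂ) : Prop :=
  ∃ (n : Type) (_ : Fintype n) (_ : DecidableEq n) (ρ : G →* Matrix n n ℂ),
    ∀ g, χ g = (ρ g).trace

theorem isCharacter_zero {G : Type} [Group G] : IsCharacter (0 : G → ℂ) :=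
  ⟨Empty, inferInstance, inferInstance, 1, fun g => by simp [Matrix.trace]⟩

theorem isCharacter_add {G : Type} [Group G] {χ χ' : G → ℂ} (h : IsCharacter χ)
    (h' : IsCharacter χ') : IsCharacter (χ + χ') := by
  obtain ⟨n, i1, i2, ρ, hρ⟩ := h
  obtain ⟨m, j1, j2, σ, hσ⟩ := h'
  refine ⟨n ⊕ m, inferInstance, inferInstance,
    { toFun := fun g => Matrix.fromBlocks (ρ g) 0 0 (σ g)
      map_one' := by rw [map_one, map_one, Matrix.fromBlocks_one]
      map_mul' := fun g h => by
        rw [Matrix.fromBlocks_multiply, map_mul, map_mul]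
        simp }, fun g => ?_⟩
  simp [Matrix.trace, hρ, hσ]

theorem isCharacter_linear {G : Type} [Group G] (lam : G →* ℂˣ) : IsCharacter (cv lam) := by
  refine ⟨Unit, inferInstance, inferInstance,
    { toFun := fun g => Matrix.of fun _ _ => cv lam g
      map_one' := by ext i j; simp [map_one]
      map_mul' := fun g h => by
        ext i j
        rw [Matrix.mul_apply]
        simp [map_mul] }, fun g => ?_⟩
  simp [Matrix.trace]

theorem isCharacter_sum {G : Type} [Group G] {ι : Type} (s : Finset ι) (χ : ι → G → ℂ)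
    (h : ∀ i ∈ s, IsCharacter (χ i)) : IsCharacter (∑ i ∈ s, χ i) := by
  classical
  induction s using Finset.induction_on with
  | empty => rw [Finset.sum_empty]; exact isCharacter_zero
  | insert i s hi ih =>
    rw [Finset.sum_insert hi]
    exact isCharacter_add (h i (Finset.mem_insert_self i s))
      (ih fun j hj => h j (Finset.mem_insert_of_mem hj))

theorem val_sum {G : Type} [Group G] (Λ : (G → ℂ) → ℂ) (h0 : Λ 0 = 1)
    (hadd : ∀ χ χ' : G → ℂ, IsCharacter χ → IsCharacter χ' → Λ (χ + χ') = Λ χ * Λ χ')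
    {ι : Type} (s : Finset ι) (χ : ι → G → ℂ) (h : ∀ i ∈ s, IsCharacter (χ i)) :
    Λ (∑ i ∈ s, χ i) = ∏ i ∈ s, Λ (χ i) := by
  classical
  induction s using Finset.induction_on with
  | empty => rw [Finset.sum_empty, Finset.prod_empty, h0]
  | insert i s hi ih =>
    rw [Finset.sum_insert hi, Finset.prod_insert hi,
      hadd _ _ (h i (Finset.mem_insert_self i s))
        (isCharacter_sum s χ fun j hj => h j (Finset.mem_insert_of_mem hj)),
      ih fun j hj => h j (Finset.mem_insert_of_mem hj)]

section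
variable {G : Type} [Group G] [Fintype G]

open Classical in
/-- Frobenius' formula for the character induced from a linear character of a subgroup -/
noncomputable def indChar (A : Subgroup G) (ψ : A →* ℂˣ) (g : G) : ℂ :=
  (Nat.card A : ℂ)⁻¹ * ∑ t : G, if h : t⁻¹ * g * t ∈ A then ((ψ ⟨t⁻¹ * g * t, h⟩ : ℂˣ) : ℂ) else 0

variable (A : Subgroup G) [A.Normal] [Fintype (G ⧸ A)] [DecidableEq (G ⧸ A)]

/-- `G` is the disjoint union of the cosets of `A` -/
noncomputable def cosetEquiv : G ≃ (G ⧸ A) × A where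
  toFun t := ((t : G ⧸ A), ⟨((t : G ⧸ A).out)⁻¹ * t, by
    rw [← QuotientGroup.eq, QuotientGroup.out_eq']⟩)
  invFun x := x.1.out * x.2
  left_inv t := by simp
  right_inv x := by
    obtain ⟨q, a⟩ := x
    have h1 : ((q.out * (a : G) : G) : G ⧸ A) = q := by
      rw [QuotientGroup.mk_mul_of_mem _ a.2, QuotientGroup.out_eq']
    apply Prod.ext
    · exact h1
    · apply Subtype.ext
      simp only [h1]
      group

theorem mk_eq_one_iff (g : G) : (g : G ⧸ A) = 1 ↔ g ∈ A := QuotientGroup.eq_one_iff g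

theorem trace_indM [IsMulCommutative A] (ψ : A →* ℂˣ) (g : G) :
    (indM A (cv ψ) g).trace = indChar A ψ g := by
  classical
  have hcard : (Nat.card A : ℂ) ≠ 0 := by
    have : 0 < Nat.card A := Nat.card_pos
    exact_mod_cast this.ne'
  rw [Matrix.trace, indChar]
  simp only [Matrix.diag_apply, indM_apply]
  by_cases hg : g ∈ A
  · have hg1 : (g : G ⧸ A) = 1 := (mk_eq_one_iff A g).2 hg
    have h1 : ∀ q : G ⧸ A, q = (g : G ⧸ A) * q := fun q => by rw [hg1, one_mul]
    rw [Finset.sum_congr rfl fun q _ => if_pos (h1 q)]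
    have hmem : ∀ t : G, t⁻¹ * g * t ∈ A := fun t => by
      have := (inferInstance : A.Normal).conj_mem g hg t⁻¹
      rwa [inv_inv] at this
    have h2 : ∀ t : G, (if h : t⁻¹ * g * t ∈ A then ((ψ ⟨t⁻¹ * g * t, h⟩ : ℂˣ) : ℂ) else 0)
        = cv ψ (cz A g (t : G ⧸ A)) := by
      intro t
      rw [dif_pos (hmem t)]
      rw [cv_apply]
      congr 2
      obtain ⟨a, ha⟩ : ∃ a : A, t = ((t : G ⧸ A).out) * a := by
        refine ⟨⟨((t : G ⧸ A).out)⁻¹ * t, by rw [← QuotientGroup.eq, QuotientGroup.out_eq']⟩, ?_⟩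
        simp
      obtain ⟨b, hb⟩ : ∃ b : A, (b : G) = ((t : G ⧸ A).out)⁻¹ * g * (t : G ⧸ A).out :=
        ⟨⟨_, hmem _⟩, rfl⟩
      have h3 : t⁻¹ * g * t = ((a⁻¹ * b * a : A) : G) := by
        rw [Subgroup.coe_mul, Subgroup.coe_mul, hb, Subgroup.coe_inv]
        conv_lhs => rw [ha]
        group
      apply Subtype.ext
      change t⁻¹ * g * t = (cz A g (t : G ⧸ A) : G)
      rw [h3]
      have h4 : a⁻¹ * b * a = b := by rw [mul_comm' (a⁻¹ * b) a, mul_inv_cancel_left]
      rw [h4, hb]
      simp only [cz, hg1, one_mul]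
    rw [Finset.sum_congr rfl fun t _ => h2 t]
    have h5 : ∑ t : G, cv ψ (cz A g (t : G ⧸ A)) = ∑ x : (G ⧸ A) × A, cv ψ (cz A g x.1) :=
      Fintype.sum_equiv (cosetEquiv A) _ _ fun t => rfl
    rw [h5, Fintype.sum_prod_type]
    simp only [Finset.sum_const, Finset.card_univ, nsmul_eq_mul]
    rw [← Finset.mul_sum, Nat.card_eq_fintype_card]
    rw [Nat.card_eq_fintype_card] at hcard
    field_simp
  · have h1 : ∀ q : G ⧸ A, ¬ q = (g : G ⧸ A) * q := fun q h => by
      apply hg
      rw [← mk_eq_one_iff A g]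
      have : (g : G ⧸ A) * q = 1 * q := by rw [one_mul, ← h]
      exact mul_right_cancel this
    rw [Finset.sum_congr rfl fun q _ => if_neg (h1 q), Finset.sum_const_zero]
    symm
    apply mul_eq_zero_of_right
    refine Finset.sum_eq_zero fun t _ => ?_
    rw [dif_neg]
    intro h
    apply hg
    have := (inferInstance : A.Normal).conj_mem _ h t
    have e : t * (t⁻¹ * g * t) * t⁻¹ = g := by group
    rwa [e] at this

end

end H25SI
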