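import Mathlib
import Pool.Agent.H25.SI.Chr

/-!
# The linear level and invariance under conjugation
-/

set_option autoImplicit false
set_option linter.unusedSectionVars false

namespace H25SI

open Matrix
open scoped IsMulCommutative

section
variable {G : Type} [Group G] [Fintype G] (A : Subgroup G) [A.Normal] [Fintype (G ⧸ A)]
  [DecidableEq (G ⧸ A)] [IsMulCommutative A]

theorem indChar_extend (hQ : ∀ x y : G ⧸ A, x * y = y * x) (lam : G →* ℂˣ) :
    indChar A (lam.comp A.subtype)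
      = ∑ μ ∈ (Set.toFinite (Set.univ : Set ((G ⧸ A) →* ℂˣ))).toFinset,
          (cv (lam * μ.comp (QuotientGroup.mk' A)) : G → ℂ) := by
  classical
  let _ : CommGroup (G ⧸ A) := { (inferInstance : Group (G ⧸ A)) with mul_comm := hQ }
  funext g
  rw [Finset.sum_apply, ← trace_indM, Matrix.trace]
  simp only [Matrix.diag_apply, indM_apply]
  have h1 : ∑ μ ∈ (Set.toFinite (Set.univ : Set ((G ⧸ A) →* ℂˣ))).toFinset,
      cv (lam * μ.comp (QuotientGroup.mk' A)) g
      = cv lam g * ∑ μ : (G ⧸ A) →* ℂˣ, ((μ (g : G ⧸ A) : ℂˣ) : ℂ) := by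
    rw [Finset.mul_sum]
    refine Finset.sum_congr ?_ fun μ _ => ?_
    · ext μ
      simp
    · rw [cv_apply, MonoidHom.mul_apply, Units.val_mul]
      rfl
  rw [h1, sum_chars]
  by_cases hg : (g : G ⧸ A) = 1
  · rw [if_pos hg]
    have h2 : ∀ q : G ⧸ A, (if q = (g : G ⧸ A) * q then
        cv (lam.comp A.subtype) (cz A g q) else 0) = cv lam g := by
      intro q
      rw [if_pos (by rw [hg, one_mul])]
      have h3 := congrArg (cv lam) (mul_out A g q)
      rw [hg, one_mul, map_mul, map_mul] at h3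
      have h4 : cv (lam.comp A.subtype) (cz A g q) = cv lam (cz A g q : G) := rfl
      rw [h4]
      have h5 := cv_ne lam q.out
      apply mul_left_cancel₀ h5
      rw [← h3, mul_comm]
    rw [Finset.sum_congr rfl fun q _ => h2 q, Finset.sum_const, Finset.card_univ, nsmul_eq_mul,
      mul_comm]
  · rw [if_neg hg, mul_zero]
    refine Finset.sum_eq_zero fun q _ => ?_
    rw [if_neg]
    intro h
    apply hg
    have : (g : G ⧸ A) * q = 1 * q := by rw [one_mul, ← h]
    exact mul_right_cancel this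

theorem val_extend (hQ : ∀ x y : G ⧸ A, x * y = y * x) (Λ : (G → ℂ) → ℂ) (h0 : Λ 0 = 1)
    (hadd : ∀ χ χ' : G → ℂ, IsCharacter χ → IsCharacter χ' → Λ (χ + χ') = Λ χ * Λ χ')
    (x : MonoidAlgebra ℤ G) (hx : ∀ lam : G →* ℂˣ, Λ (cv lam) = ev lam x) (lam : G →* ℂˣ) :
    Λ (indChar A (lam.comp A.subtype)) = ev (lam.comp A.subtype) (nrm A x) := by
  rw [indChar_extend A hQ, val_sum Λ h0 hadd _ _ fun μ _ => isCharacter_linear _, ev_nrm,
    det_extend A hQ]
  exact Finset.prod_congr rfl fun μ _ => hx _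

/-- the conjugate of a linear character of `A` -/
noncomputable def cj (g : G) (ψ : A →* ℂˣ) : A →* ℂˣ :=
  ψ.comp (MulAut.conjNormal g : MulAut A).toMonoidHom

theorem indChar_cj (g : G) (ψ : A →* ℂˣ) : indChar A (cj A g ψ) = indChar A ψ := by
  classical
  funext h
  rw [indChar, indChar]
  congr 1
  have key : ∀ t : G, (if hh : t⁻¹ * h * t ∈ A then
        ((cj A g ψ ⟨t⁻¹ * h * t, hh⟩ : ℂˣ) : ℂ) else 0)
      = (if hh : (t * g⁻¹)⁻¹ * h * (t * g⁻¹) ∈ A then
        ((ψ ⟨(t * g⁻¹)⁻¹ * h * (t * g⁻¹), hh⟩ : ℂˣ) : ℂ) else 0) := by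
    intro t
    have e : (t * g⁻¹)⁻¹ * h * (t * g⁻¹) = g * (t⁻¹ * h * t) * g⁻¹ := by group
    by_cases hm : t⁻¹ * h * t ∈ A
    · have hm' : (t * g⁻¹)⁻¹ * h * (t * g⁻¹) ∈ A := by
        rw [e]
        exact (inferInstance : A.Normal).conj_mem _ hm g
      rw [dif_pos hm, dif_pos hm']
      have h1 : cj A g ψ ⟨t⁻¹ * h * t, hm⟩ = ψ (MulAut.conjNormal g ⟨t⁻¹ * h * t, hm⟩) := rfl
      rw [h1]
      congr 2
      apply Subtype.ext
      rw [MulAut.conjNormal_apply]
      exact e.symm
    · have hm' : ¬ (t * g⁻¹)⁻¹ * h * (t * g⁻¹) ∈ A := by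
        rw [e]
        intro hc
        apply hm
        have := (inferInstance : A.Normal).conj_mem _ hc g⁻¹
        have e2 : g⁻¹ * (g * (t⁻¹ * h * t) * g⁻¹) * g⁻¹⁻¹ = t⁻¹ * h * t := by group
        rwa [e2] at this
      rw [dif_neg hm, dif_neg hm']
  exact Fintype.sum_equiv (Equiv.mulRight g⁻¹) _ _ key

theorem bq_mem (g : G) (q : G ⧸ A) : ((q * (g : G ⧸ A)⁻¹).out)⁻¹ * (q.out * g⁻¹) ∈ A := by
  rw [← QuotientGroup.eq, QuotientGroup.out_eq', QuotientGroup.mk_mul, QuotientGroup.out_eq',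
    QuotientGroup.mk_inv]

theorem det_cj (g : G) (ψ : A →* ℂˣ) (x : MonoidAlgebra ℤ G) :
    (ext (indM A (cv (cj A g ψ))) x).det = (ext (indM A (cv ψ)) x).det := by
  classical
  let b : G ⧸ A → A := fun q => ⟨_, bq_mem A g q⟩
  let U : Matrix (G ⧸ A) (G ⧸ A) ℂ :=
    (Matrix.diagonal fun q => cv ψ (b q)).submatrix (Equiv.mulRight (g : G ⧸ A)) id
  have hU : ∀ s q, U s q = if s * (g : G ⧸ A) = q then cv ψ (b q) else 0 := by
    intro s q
    simp only [U, Matrix.submatrix_apply, Equiv.coe_mulRight, id, Matrix.diagonal_apply]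
    split_ifs with h
    · rw [h]
    · rfl
  have hdet : U.det ≠ 0 := by
    simp only [U]
    rw [Matrix.det_permute, Matrix.det_diagonal]
    refine mul_ne_zero ?_ (Finset.prod_ne_zero_iff.2 fun q _ => cv_ne ψ _)
    rcases Int.units_eq_one_or (Equiv.Perm.sign (Equiv.mulRight (g : G ⧸ A))) with h | h
    · rw [h]; simp
    · rw [h]; simp
  have key : ∀ h : G, indM A (cv ψ) h * U = U * indM A (cv (cj A g ψ)) h := by
    intro h
    ext s q
    rw [Matrix.mul_apply, Matrix.mul_apply]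
    simp only [hU, indM_apply]
    rw [Finset.sum_eq_single (q * (g : G ⧸ A)⁻¹), Finset.sum_eq_single ((h : G ⧸ A) * q)]
    · rw [if_pos (inv_mul_cancel_right q _), if_pos rfl]
      by_cases hs : s * (g : G ⧸ A) = (h : G ⧸ A) * q
      · have hs' : s = (h : G ⧸ A) * (q * (g : G ⧸ A)⁻¹) := by
          rw [← mul_assoc, ← hs, mul_inv_cancel_right]
        rw [if_pos hs, if_pos hs', ← map_mul]
        have h1 : cv (cj A g ψ) (cz A h q) = cv ψ (MulAut.conjNormal g (cz A h q)) := rfl
        rw [h1, ← map_mul]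
        congr 1
        apply Subtype.ext
        rw [Subgroup.coe_mul, Subgroup.coe_mul, MulAut.conjNormal_apply]
        simp only [b, cz]
        rw [mul_assoc (h : G ⧸ A) q]
        group
      · have hs' : ¬ s = (h : G ⧸ A) * (q * (g : G ⧸ A)⁻¹) := by
          intro hc
          apply hs
          rw [hc, ← mul_assoc, inv_mul_cancel_right]
        rw [if_neg hs, if_neg hs', zero_mul, zero_mul]
    · intro r _ hr
      rw [if_neg hr, mul_zero]
    · intro hq
      exact absurd (Finset.mem_univ _) hq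
    · intro r _ hr
      have hc : ¬ r * (g : G ⧸ A) = q := by
        intro hc
        apply hr
        rw [← hc, mul_inv_cancel_right]
      rw [if_neg hc, mul_zero]
    · intro hq
      exact absurd (Finset.mem_univ _) hq
  have key2 : ext (indM A (cv ψ)) x * U = U * ext (indM A (cv (cj A g ψ))) x := by
    rw [ext_sum, ext_sum, Finset.sum_mul, Finset.mul_sum]
    refine Finset.sum_congr rfl fun h _ => ?_
    rw [smul_mul_assoc, mul_smul_comm, key]
  have h3 := congrArg Matrix.det key2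
  rw [Matrix.det_mul, Matrix.det_mul, mul_comm] at h3
  exact (mul_left_cancel₀ hdet h3).symm

end

end H25SI
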