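import Mathlib
import Pool.Agent.H25.SI.Tw

/-!
# Irreducible representations
-/

set_option autoImplicit false
set_option linter.unusedSectionVars false

namespace H25SI

open Matrix
open scoped IsMulCommutative

/-- an irreducible complex matrix representation of `G` -/
structure IrrRep (G : Type) [Group G] where
  /-- the dimension -/
  n : ℕ
  /-- the representation -/
  ρ : G →* Matrix (Fin n) (Fin n) ℂ
  pos : 0 < n
  irr : ∀ W : Submodule ℂ (Fin n → ℂ), (∀ g : G, ∀ v ∈ W, (ρ g).mulVec v ∈ W) → W = ⊥ ∨ W = ⊤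

section
variable {G : Type} [Group G] [Fintype G]

/-- the action of a group ring element in a quotient or sub representation -/
theorem ext_intertwine {n m : Type} [Fintype n] [DecidableEq n] [Fintype m] [DecidableEq m]
    (ρ : G →* Matrix n n ℂ) (σ : G →* Matrix m m ℂ) (e : (m → ℂ) ≃ₗ[ℂ] (n → ℂ))
    (h : ∀ (g : G) (c : m → ℂ), (ρ g).mulVec (e c) = e ((σ g).mulVec c)) :
    (∀ x : MonoidAlgebra ℤ G, (ext ρ x).det = (ext σ x).det) ∧ ∀ g, (ρ g).trace = (σ g).trace := by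
  have h1 : ∀ (M : Matrix n n ℂ) (N : Matrix m m ℂ),
      (∀ c, M.mulVec (e c) = e (N.mulVec c)) → Matrix.toLin' M = e.conj (Matrix.toLin' N) := by
    intro M N hMN
    apply LinearMap.ext
    intro v
    rw [LinearEquiv.conj_apply_apply, Matrix.toLin'_apply, Matrix.toLin'_apply, ← hMN,
      LinearEquiv.apply_symm_apply]
  constructor
  · intro x
    have h2 : ∀ c, (ext ρ x).mulVec (e c) = e ((ext σ x).mulVec c) := by
      intro c
      rw [ext_sum, ext_sum, Matrix.sum_mulVec, Matrix.sum_mulVec, map_sum]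
      refine Finset.sum_congr rfl fun g _ => ?_
      rw [Matrix.smul_mulVec, Matrix.smul_mulVec, h, map_zsmul]
    have h3 := h1 _ _ h2
    rw [← LinearMap.det_toLin', h3, ← LinearMap.det_toLin' (ext σ x)]
    rw [LinearEquiv.conj_apply, LinearMap.comp_assoc]
    exact LinearMap.det_conj _ e
  · intro g
    have h3 := h1 _ _ (h g)
    have h4 := LinearMap.trace_conj' (Matrix.toLin' (σ g)) e
    rw [← h3] at h4
    rw [← Matrix.trace_toLin'_eq, ← Matrix.trace_toLin'_eq, h4]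

variable (A : Subgroup G) [A.Normal] [Fintype (G ⧸ A)] [DecidableEq (G ⧸ A)] [IsMulCommutative A]
  [Fintype A]

/-- projection to the `ψ`-eigenspace of `A` -/
noncomputable def prj {n : Type} [Fintype n] [DecidableEq n] (ρ : G →* Matrix n n ℂ) (ψ : A →* ℂˣ)
    (w : n → ℂ) : n → ℂ :=
  (Nat.card A : ℂ)⁻¹ • ∑ a : A, cv ψ a⁻¹ • (ρ (a : G)).mulVec w

theorem card_ne : (Nat.card A : ℂ) ≠ 0 := by
  have : 0 < Nat.card A := Nat.card_pos
  exact_mod_cast this.ne'

theorem prj_eig {n : Type} [Fintype n] [DecidableEq n] (ρ : G →* Matrix n n ℂ) (ψ : A →* ℂˣ)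
    (w : n → ℂ) (b : A) : (ρ (b : G)).mulVec (prj A ρ ψ w) = cv ψ b • prj A ρ ψ w := by
  rw [prj, Matrix.mulVec_smul, smul_comm]
  congr 1
  rw [Matrix.mulVec_sum, Finset.smul_sum]
  refine Fintype.sum_equiv (Equiv.mulLeft b) _ _ fun a => ?_
  simp only [Equiv.coe_mulLeft]
  rw [Matrix.mulVec_smul, Matrix.mulVec_mulVec, ← map_mul, smul_smul, ← map_mul]
  congr 2
  rw [_root_.mul_inv_rev, mul_comm' a⁻¹ b⁻¹, mul_inv_cancel_left]

theorem prj_sum {n : Type} [Fintype n] [DecidableEq n] (ρ : G →* Matrix n n ℂ) (w : n → ℂ) :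
    ∑ ψ : A →* ℂˣ, prj A ρ ψ w = w := by
  classical
  simp only [prj]
  rw [← Finset.smul_sum, Finset.sum_comm]
  have h1 : ∀ a : A, ∑ ψ : A →* ℂˣ, cv ψ a⁻¹ • (ρ (a : G)).mulVec w
      = (if a = 1 then (Fintype.card A : ℂ) else 0) • (ρ (a : G)).mulVec w := by
    intro a
    rw [← Finset.sum_smul]
    congr 1
    have := sum_chars a⁻¹
    by_cases ha : a = 1
    · rw [if_pos ha]
      rw [if_pos (by rw [ha, inv_one])] at this
      exact this
    · rw [if_neg ha]
      rw [if_neg (by rwa [inv_eq_one])] at this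
      exact this
  rw [Finset.sum_congr rfl fun a _ => h1 a]
  simp only [ite_smul, zero_smul, Finset.sum_ite_eq', Finset.mem_univ, if_true]
  rw [Subgroup.coe_one, map_one, Matrix.one_mulVec, smul_smul, Nat.card_eq_fintype_card,
    inv_mul_cancel₀, one_smul]
  rw [← Nat.card_eq_fintype_card]
  exact card_ne A

open Classical in
theorem prj_other {n : Type} [Fintype n] [DecidableEq n] (ρ : G →* Matrix n n ℂ) (ψ χ : A →* ℂˣ)
    (v : n → ℂ) (hv : ∀ a : A, (ρ (a : G)).mulVec v = cv χ a • v) :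
    prj A ρ ψ v = if χ = ψ then v else 0 := by
  rw [prj]
  have h1 : ∀ a : A, cv ψ a⁻¹ • (ρ (a : G)).mulVec v = (((χ * ψ⁻¹) a : ℂˣ) : ℂ) • v := by
    intro a
    rw [hv, smul_smul, MonoidHom.mul_apply, MonoidHom.inv_apply, Units.val_mul, mul_comm, ← map_inv]
    rfl
  rw [Finset.sum_congr rfl fun a _ => h1 a, ← Finset.sum_smul, sum_group]
  by_cases h : χ = ψ
  · rw [if_pos h, if_pos (by subst h; exact mul_inv_cancel χ), smul_smul,
      ← Nat.card_eq_fintype_card, inv_mul_cancel₀ (card_ne A), one_smul]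
  · rw [if_neg h, if_neg fun hh => h (mul_inv_eq_one.1 hh), zero_smul, smul_zero]

theorem exists_eig (π : IrrRep G) : ∃ (ψ : A →* ℂˣ) (v : Fin π.n → ℂ), v ≠ 0 ∧
    ∀ a : A, (π.ρ (a : G)).mulVec v = cv ψ a • v := by
  have h0 : (Pi.single ⟨0, π.pos⟩ 1 : Fin π.n → ℂ) ≠ 0 := by
    intro h
    have := congrFun h ⟨0, π.pos⟩
    simp at this
  obtain ⟨ψ, hψ⟩ : ∃ ψ : A →* ℂˣ, prj A π.ρ ψ (Pi.single ⟨0, π.pos⟩ 1) ≠ 0 := by
    by_contra hc
    push Not at hc
    apply h0
    rw [← prj_sum A π.ρ (Pi.single ⟨0, π.pos⟩ 1)]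
    exact Finset.sum_eq_zero fun ψ _ => hc ψ
  exact ⟨ψ, _, hψ, prj_eig A π.ρ ψ _⟩

end

end H25SI
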