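import Mathlib
import Pool.Agent.H25.SI.Irr

/-!
# The two kinds of irreducible representations
-/

set_option autoImplicit false
set_option linter.unusedSectionVars false

namespace H25SI

open Matrix
open scoped IsMulCommutative

section
variable {G : Type} [Group G] [Fintype G] (A : Subgroup G) [A.Normal] [Fintype (G ⧸ A)]
  [DecidableEq (G ⧸ A)] [IsMulCommutative A] [Fintype A]

/-- conjugates of eigenvectors -/
theorem eig_conj {n : Type} [Fintype n] [DecidableEq n] (ρ : G →* Matrix n n ℂ) (ψ : A →* ℂˣ)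
    (v : n → ℂ) (hv : ∀ a : A, (ρ (a : G)).mulVec v = cv ψ a • v) (g : G) (a : A) :
    (ρ (a : G)).mulVec ((ρ g).mulVec v) = cv (cj A g⁻¹ ψ) a • (ρ g).mulVec v := by
  have h1 : (a : G) * g = g * ((MulAut.conjNormal g⁻¹ a : A) : G) := by
    rw [MulAut.conjNormal_apply]
    group
  rw [Matrix.mulVec_mulVec, ← map_mul, h1, map_mul, ← Matrix.mulVec_mulVec, hv, Matrix.mulVec_smul]
  rfl

/-- an irreducible representation with an eigenvector whose character extends to `G` is linear -/
theorem linear_case (hQ : ∀ x y : G, x * y * x⁻¹ * y⁻¹ ∈ A) (π : IrrRep G) (lam : G →* ℂˣ)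
    (v : Fin π.n → ℂ) (hv0 : v ≠ 0)
    (hv : ∀ a : A, (π.ρ (a : G)).mulVec v = cv (lam.comp A.subtype) a • v) :
    π.n = 1 ∧ ∀ g : G, ∃ μ : ℂ, π.ρ g = μ • (1 : Matrix (Fin π.n) (Fin π.n) ℂ) := by
  let W : Submodule ℂ (Fin π.n → ℂ) :=
    { carrier := {w | ∀ a : A, (π.ρ (a : G)).mulVec w = cv (lam.comp A.subtype) a • w}
      add_mem' := fun {x y} hx hy a => by rw [Matrix.mulVec_add, hx, hy, smul_add]
      zero_mem' := fun a => by rw [Matrix.mulVec_zero, smul_zero]
      smul_mem' := fun c x hx a => by rw [Matrix.mulVec_smul, hx, smul_comm] }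
  have hcj : ∀ g : G, cj A g (lam.comp A.subtype) = lam.comp A.subtype := by
    intro g
    ext a
    have h1 : cj A g (lam.comp A.subtype) a = lam ((MulAut.conjNormal g a : A) : G) := rfl
    rw [h1, MulAut.conjNormal_apply, map_mul, map_mul, map_inv, mul_comm (lam g), mul_inv_cancel_right]
    rfl
  have hW : W = ⊤ := by
    rcases π.irr W (fun g w hw a => by rw [eig_conj A π.ρ _ w hw g a, hcj]) with h | h
    · exfalso
      have : v ∈ W := hv
      rw [h, Submodule.mem_bot] at this
      exact hv0 this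
    · exact h
  have hsc : ∀ (a : A) (w : Fin π.n → ℂ), (π.ρ (a : G)).mulVec w = cv (lam.comp A.subtype) a • w := by
    intro a w
    have : w ∈ W := by rw [hW]; trivial
    exact this a
  have hcomm : ∀ (g h : G) (w : Fin π.n → ℂ),
      (π.ρ g).mulVec ((π.ρ h).mulVec w) = (π.ρ h).mulVec ((π.ρ g).mulVec w) := by
    intro g h w
    have h1 : g * h = ((⟨g * h * g⁻¹ * h⁻¹, hQ g h⟩ : A) : G) * (h * g) := by
      simp only
      group
    rw [Matrix.mulVec_mulVec, Matrix.mulVec_mulVec, ← map_mul, ← map_mul, h1, map_mul,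
      ← Matrix.mulVec_mulVec, hsc]
    have h2 : cv (lam.comp A.subtype) ⟨g * h * g⁻¹ * h⁻¹, hQ g h⟩ = 1 := by
      have : cv (lam.comp A.subtype) ⟨g * h * g⁻¹ * h⁻¹, hQ g h⟩ = cv lam (g * h * g⁻¹ * h⁻¹) := rfl
      rw [this, cv_apply, map_mul, map_mul, map_mul, map_inv, map_inv, mul_comm (lam g),
        mul_inv_cancel_right, mul_inv_cancel, Units.val_one]
    rw [h2, one_smul]
  have hμ : ∀ g : G, ∃ μ : ℂ, ∀ w : Fin π.n → ℂ, (π.ρ g).mulVec w = μ • w := by
    intro g
    have : Nontrivial (Fin π.n → ℂ) := ⟨v, 0, hv0⟩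
    obtain ⟨μ, hμ⟩ := Module.End.exists_eigenvalue (Matrix.toLin' (π.ρ g))
    obtain ⟨u, hu⟩ := hμ.exists_hasEigenvector
    let V : Submodule ℂ (Fin π.n → ℂ) :=
      { carrier := {w | (π.ρ g).mulVec w = μ • w}
        add_mem' := fun {x y} hx hy => by
          simp only [Set.mem_ofPred_eq] at hx hy ⊢
          rw [Matrix.mulVec_add, hx, hy, smul_add]
        zero_mem' := by simp
        smul_mem' := fun c x hx => by
          simp only [Set.mem_ofPred_eq] at hx ⊢
          rw [Matrix.mulVec_smul, hx, smul_comm] }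
    have hV : V = ⊤ := by
      rcases π.irr V (fun h w hw => by
        change (π.ρ g).mulVec ((π.ρ h).mulVec w) = μ • (π.ρ h).mulVec w
        have hw' : (π.ρ g).mulVec w = μ • w := hw
        rw [hcomm, hw', Matrix.mulVec_smul]) with h | h
      · exfalso
        have h1 : u ∈ V := by
          have := hu.apply_eq_smul
          rwa [Matrix.toLin'_apply] at this
        rw [h, Submodule.mem_bot] at h1
        exact hu.2 h1
      · exact h
    refine ⟨μ, fun w => ?_⟩
    have : w ∈ V := by rw [hV]; trivial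
    exact this
  have hn : π.n = 1 := by
    rcases π.irr (Submodule.span ℂ {v}) (fun g w hw => by
      obtain ⟨μ, hμ⟩ := hμ g
      rw [hμ]
      exact Submodule.smul_mem _ _ hw) with h | h
    · exfalso
      rw [Submodule.span_singleton_eq_bot] at h
      exact hv0 h
    · have h1 := finrank_span_singleton (K := ℂ) hv0
      rw [h, finrank_top, Module.finrank_fin_fun] at h1
      exact h1
  refine ⟨hn, fun g => ?_⟩
  obtain ⟨μ, hμ⟩ := hμ g
  refine ⟨μ, ?_⟩
  apply Matrix.toLin'.injective
  apply LinearMap.ext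
  intro w
  rw [Matrix.toLin'_apply, hμ, Matrix.toLin'_apply, Matrix.smul_mulVec, Matrix.one_mulVec]

end

end H25SI
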