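import Mathlib
import Pool.Agent.H25.SI.Cas

/-!
# The induced irreducible representations
-/

set_option autoImplicit false
set_option linter.unusedSectionVars false

namespace H25SI

open Matrix
open scoped IsMulCommutative

section
variable {G : Type} [Group G] [Fintype G] (A : Subgroup G) [A.Normal] [Fintype (G ⧸ A)]
  [DecidableEq (G ⧸ A)] [IsMulCommutative A] [Fintype A]

theorem prj_lin {n : Type} [Fintype n] [DecidableEq n] (ρ : G →* Matrix n n ℂ) (ψ : A →* ℂˣ)
    {ι : Type} (s : Finset ι) (c : ι → ℂ) (w : ι → n → ℂ) :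
    prj A ρ ψ (∑ i ∈ s, c i • w i) = ∑ i ∈ s, c i • prj A ρ ψ (w i) := by
  simp only [prj, Matrix.mulVec_sum, Matrix.mulVec_smul, Finset.smul_sum]
  rw [Finset.sum_comm]
  refine Finset.sum_congr rfl fun i _ => Finset.sum_congr rfl fun a _ => ?_
  simp only [smul_smul]
  congr 1
  ring

theorem cj_cj (g h : G) (ψ : A →* ℂˣ) : cj A g (cj A h ψ) = cj A (h * g) ψ := by
  apply MonoidHom.ext
  intro a
  have h1 : cj A g (cj A h ψ) a = ψ (MulAut.conjNormal h (MulAut.conjNormal g a)) := rfl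
  have h2 : cj A (h * g) ψ a = ψ (MulAut.conjNormal (h * g) a) := rfl
  rw [h1, h2]
  congr 1
  apply Subtype.ext
  simp only [MulAut.conjNormal_apply]
  group

theorem cj_one (ψ : A →* ℂˣ) : cj A 1 ψ = ψ := by
  apply MonoidHom.ext
  intro a
  have h1 : cj A 1 ψ a = ψ (MulAut.conjNormal 1 a) := rfl
  rw [h1]
  congr 1
  apply Subtype.ext
  simp only [MulAut.conjNormal_apply]
  group

theorem induced_case (π : IrrRep G) (ψ : A →* ℂˣ) (v : Fin π.n → ℂ) (hv0 : v ≠ 0)
    (hv : ∀ a : A, (π.ρ (a : G)).mulVec v = cv ψ a • v)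
    (hst : ∀ g : G, cj A g ψ = ψ → g ∈ A) :
    ∃ e : (G ⧸ A → ℂ) ≃ₗ[ℂ] (Fin π.n → ℂ),
      (∀ (g : G) (c : G ⧸ A → ℂ), (π.ρ g).mulVec (e c) = e ((indM A (cv ψ) g).mulVec c)) ∧
      ∀ c, e c = ∑ q : G ⧸ A, c q • (π.ρ q.out).mulVec v := by
  classical
  let w : G ⧸ A → Fin π.n → ℂ := fun q => (π.ρ q.out).mulVec v
  let f : (G ⧸ A → ℂ) →ₗ[ℂ] (Fin π.n → ℂ) := Fintype.linearCombination ℂ w
  have hf : ∀ c, f c = ∑ q : G ⧸ A, c q • w q := fun c => Fintype.linearCombination_apply _ _ _
  have hw0 : ∀ q, w q ≠ 0 := by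
    intro q h
    apply hv0
    have h1 : (π.ρ (q.out)⁻¹).mulVec (w q) = v := by
      simp only [w]
      rw [Matrix.mulVec_mulVec, ← map_mul, inv_mul_cancel, map_one, Matrix.one_mulVec]
    rw [← h1, h, Matrix.mulVec_zero]
  have hgw : ∀ (g : G) (q : G ⧸ A),
      (π.ρ g).mulVec (w q) = cv ψ (cz A g q) • w ((g : G ⧸ A) * q) := by
    intro g q
    simp only [w]
    rw [Matrix.mulVec_mulVec, ← map_mul, mul_out A g q, map_mul, ← Matrix.mulVec_mulVec, hv,
      Matrix.mulVec_smul]
  have hint : ∀ (g : G) (c : G ⧸ A → ℂ), (π.ρ g).mulVec (f c) = f ((indM A (cv ψ) g).mulVec c) := by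
    intro g c
    rw [hf, hf, Matrix.mulVec_sum]
    have h1 : ∀ s : G ⧸ A, ((indM A (cv ψ) g).mulVec c) s • w s
        = ∑ q : G ⧸ A, if s = (g : G ⧸ A) * q then (cv ψ (cz A g q) * c q) • w s else 0 := by
      intro s
      rw [Matrix.mulVec, dotProduct, Finset.sum_smul]
      refine Finset.sum_congr rfl fun q _ => ?_
      rw [indM_apply]
      split_ifs
      · rfl
      · rw [zero_mul, zero_smul]
    rw [Finset.sum_congr rfl fun s _ => h1 s, Finset.sum_comm]
    refine Finset.sum_congr rfl fun q _ => ?_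
    rw [Finset.sum_ite_eq', if_pos (Finset.mem_univ _), Matrix.mulVec_smul, hgw, smul_smul,
      mul_comm]
  have hinj : Function.Injective f := by
    rw [injective_iff_map_eq_zero]
    intro c hc
    rw [hf] at hc
    funext q0
    have h1 := prj_lin A π.ρ (cj A (q0.out)⁻¹ ψ) Finset.univ c w
    rw [hc] at h1
    have h2 : prj A π.ρ (cj A (q0.out)⁻¹ ψ) 0 = 0 := by
      simp [prj]
    have h3 : ∀ q, prj A π.ρ (cj A (q0.out)⁻¹ ψ) (w q) = if q = q0 then w q else 0 := by
      intro q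
      rw [prj_other A π.ρ (cj A (q0.out)⁻¹ ψ) (cj A (q.out)⁻¹ ψ) (w q)
        (eig_conj A π.ρ ψ v hv q.out)]
      by_cases hq : q = q0
      · rw [if_pos hq, if_pos (by rw [hq])]
      · rw [if_neg hq, if_neg]
        intro h4
        apply hq
        have h5 := congrArg (cj A q0.out) h4
        rw [cj_cj, cj_cj, inv_mul_cancel, cj_one] at h5
        have h6 := hst _ h5
        rw [← QuotientGroup.eq, QuotientGroup.out_eq', QuotientGroup.out_eq'] at h6
        exact h6
    rw [h2, Finset.sum_congr rfl fun q _ => by rw [h3 q]] at h1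
    simp only [smul_ite, smul_zero, Finset.sum_ite_eq', Finset.mem_univ, if_true] at h1
    rw [Pi.zero_apply]
    by_contra hne
    exact (smul_ne_zero hne (hw0 q0)) h1.symm
  have hsurj : Function.Surjective f := by
    rw [← LinearMap.range_eq_top]
    rcases π.irr (LinearMap.range f) (fun g u hu => by
      obtain ⟨c, rfl⟩ := hu
      exact ⟨_, (hint g c).symm⟩) with h | h
    · exfalso
      have h1 : w 1 ∈ LinearMap.range f := ⟨Pi.single 1 1, by
        rw [hf, Finset.sum_eq_single 1]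
        · rw [Pi.single_eq_same, one_smul]
        · intro q _ hq
          rw [Pi.single_eq_of_ne hq, zero_smul]
        · intro hq
          exact absurd (Finset.mem_univ _) hq⟩
      rw [h, Submodule.mem_bot] at h1
      exact hw0 1 h1
    · exact h
  exact ⟨LinearEquiv.ofBijective f ⟨hinj, hsurj⟩, hint, hf⟩

end

end H25SI
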