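import Mathlib
import Pool.Agent.H25.SI.Ca2

/-!
# Central values, reduced norms, the integrality ring
-/

set_option autoImplicit false
set_option linter.unusedSectionVars false

namespace H25SI

open Matrix
open scoped IsMulCommutative

/-- the scalar by which a central element acts -/
noncomputable def centralValue {G : Type} [Group G] (z : MonoidAlgebra ℤ G) (π : IrrRep G) : ℂ :=
  (ext π.ρ z).trace / π.n

/-- the reduced norm of a square matrix over the group ring -/
noncomputable def reducedNorm {G : Type} [Group G] {m : ℕ}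
    (H : Matrix (Fin m) (Fin m) (MonoidAlgebra ℤ G)) (π : IrrRep G) : ℂ :=
  (Matrix.of fun i j : Fin m × Fin π.n => ext π.ρ (H i.1 j.1) i.2 j.2).det

/-- the integrality ring -/
noncomputable def integralityRing (G : Type) [Group G] : Subring (IrrRep G → ℂ) :=
  Subring.closure ({f | ∃ z ∈ Subring.center (MonoidAlgebra ℤ G), f = centralValue z} ∪
    {f | ∃ (m : ℕ) (H : Matrix (Fin m) (Fin m) (MonoidAlgebra ℤ G)), f = reducedNorm H})

theorem reducedNorm_one {G : Type} [Group G] (x : MonoidAlgebra ℤ G) (π : IrrRep G) :
    reducedNorm (Matrix.of fun _ _ : Fin 1 => x) π = (ext π.ρ x).det := by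
  rw [reducedNorm, ← Matrix.det_submatrix_equiv_self (Equiv.uniqueProd (Fin π.n) (Fin 1))]
  rfl

theorem det_eq_trace {n : ℕ} (hn : n = 1) (M : Matrix (Fin n) (Fin n) ℂ) : M.det = M.trace := by
  subst hn
  rw [Matrix.det_fin_one, Matrix.trace_fin_one]

section
variable {G : Type} [Group G] [Fintype G]

/-- a section of the abelianization -/
noncomputable def sec (q : Abelianization G) : G :=
  Function.surjInv (f := (Abelianization.of : G →* Abelianization G)) QuotientGroup.mk_surjective q

theorem sec_spec (q : Abelianization G) : Abelianization.of (sec q) = q :=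
  Function.surjInv_eq _ q

theorem exists_lift (b : MonoidAlgebra ℤ (Abelianization G)) : ∃ x : MonoidAlgebra ℤ G,
    ∀ lam : Abelianization G →* ℂˣ, ev (lam.comp Abelianization.of) x = ev lam b := by
  classical
  have : Fintype (Abelianization G) := Fintype.ofFinite _
  refine ⟨∑ q : Abelianization G, MonoidAlgebra.single (sec q) (b.coeff q), fun lam => ?_⟩
  rw [map_sum, ev_sum]
  refine Finset.sum_congr rfl fun q _ => ?_
  rw [ev_single, MonoidHom.comp_apply, sec_spec]

variable (A : Subgroup G) [A.Normal] [Fintype (G ⧸ A)] [DecidableEq (G ⧸ A)] [IsMulCommutative A]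
  [Fintype A]

/-- the inclusion of the group rings -/
noncomputable def emb (s : MonoidAlgebra ℤ A) : MonoidAlgebra ℤ G :=
  ∑ a : A, MonoidAlgebra.single (a : G) (s.coeff a)

theorem ext_emb {n : Type} [Fintype n] [DecidableEq n] (ρ : G →* Matrix n n ℂ)
    (s : MonoidAlgebra ℤ A) : ext ρ (emb A s) = ∑ a : A, s.coeff a • ρ (a : G) := by
  rw [emb, map_sum]
  refine Finset.sum_congr rfl fun a _ => ?_
  rw [ext_single]

theorem emb_center (s : MonoidAlgebra ℤ A)
    (h : ∀ (g : G) (a : A), s.coeff (MulAut.conjNormal g a) = s.coeff a) :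
    emb A s ∈ Subring.center (MonoidAlgebra ℤ G) := by
  rw [Subring.mem_center_iff]
  intro y
  induction y using MonoidAlgebra.induction_linear with
  | zero => rw [zero_mul, mul_zero]
  | add f g hf hg => rw [add_mul, mul_add, hf, hg]
  | single g m =>
    rw [emb, Finset.mul_sum, Finset.sum_mul]
    refine Fintype.sum_equiv (MulAut.conjNormal g : MulAut A).toEquiv _ _ fun a => ?_
    rw [MonoidAlgebra.single_mul_single, MonoidAlgebra.single_mul_single]
    have h1 : (MulAut.conjNormal g : MulAut A).toEquiv a = MulAut.conjNormal g a := rfl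
    rw [h1, h, mul_comm m, MulAut.conjNormal_apply]
    congr 1
    group

theorem inv_of_ev (t : MonoidAlgebra ℤ A)
    (h : ∀ (g : G) (ψ : A →* ℂˣ), ev (cj A g ψ) t = ev ψ t) (g : G) (a : A) :
    t.coeff (MulAut.conjNormal g a) = t.coeff a := by
  classical
  let t' : MonoidAlgebra ℤ A := ∑ b : A, MonoidAlgebra.single (MulAut.conjNormal g b) (t.coeff b)
  have h1 : t' = t := by
    rw [← sub_eq_zero]
    apply ev_separates
    intro ψ
    rw [map_sub, sub_eq_zero, ← h g ψ, map_sum, ev_sum]
    refine Finset.sum_congr rfl fun b _ => ?_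
    rw [ev_single]
    rfl
  have h2 : t'.coeff (MulAut.conjNormal g a) = t.coeff a := by
    simp only [t']
    rw [MonoidAlgebra.coeff_sum, Finsupp.finsetSum_apply, Finset.sum_eq_single a]
    · simp
    · intro b _ hb
      rw [MonoidAlgebra.coeff_single, Finsupp.single_apply, if_neg]
      intro hc
      exact hb ((MulAut.conjNormal g : MulAut A).injective hc)
    · intro hc
      exact absurd (Finset.mem_univ _) hc
  rw [h1] at h2
  exact h2

end

end H25SI
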