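import Mathlib
import Pool.Agent.H25.SI.Fin

/-!
# The main theorem
-/

set_option autoImplicit false
set_option linter.unusedSectionVars false

namespace H25SI

open Matrix
open scoped IsMulCommutative

section
variable {G : Type} [Group G] [Fintype G] (A : Subgroup G) [A.Normal] [Fintype (G ⧸ A)]
  [DecidableEq (G ⧸ A)] [IsMulCommutative A] [Fintype A]

theorem ext_trace {n : Type} [Fintype n] [DecidableEq n] (ρ : G →* Matrix n n ℂ)
    (x : MonoidAlgebra ℤ G) : (ext ρ x).trace = ∑ g : G, (x.coeff g : ℂ) * (ρ g).trace := by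
  rw [ext_sum, Matrix.trace_sum]
  refine Finset.sum_congr rfl fun g _ => ?_
  rw [Matrix.trace_smul, zsmul_eq_mul]

/-- the value of a central element of `ℤ[A]` in the induced case -/
theorem central_induced (π : IrrRep G) (ψ : A →* ℂˣ) (v : Fin π.n → ℂ)
    (hv : ∀ a : A, (π.ρ (a : G)).mulVec v = cv ψ a • v)
    (e : (G ⧸ A → ℂ) ≃ₗ[ℂ] (Fin π.n → ℂ))
    (he : ∀ c, e c = ∑ q : G ⧸ A, c q • (π.ρ q.out).mulVec v)
    (t : MonoidAlgebra ℤ A) (ht : emb A t ∈ Subring.center (MonoidAlgebra ℤ G)) :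
    centralValue (emb A t) π = ev ψ t := by
  have h1 : (ext π.ρ (emb A t)).mulVec v = ev ψ t • v := by
    rw [ext_emb, Matrix.sum_mulVec, ev_sum, Finset.sum_smul]
    refine Finset.sum_congr rfl fun a _ => ?_
    rw [Matrix.smul_mulVec, hv, mul_smul, ← Int.cast_smul_eq_zsmul ℂ]
    rfl
  have h2 : ∀ g : G, (ext π.ρ (emb A t)).mulVec ((π.ρ g).mulVec v) = ev ψ t • (π.ρ g).mulVec v := by
    intro g
    have h3 := Subring.mem_center_iff.1 ht (MonoidAlgebra.of ℤ G g)
    have h4 := congrArg (ext π.ρ) h3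
    rw [map_mul, map_mul, ext_of] at h4
    rw [Matrix.mulVec_mulVec, ← h4, ← Matrix.mulVec_mulVec, h1, Matrix.mulVec_smul]
  have h5 : ext π.ρ (emb A t) = ev ψ t • (1 : Matrix (Fin π.n) (Fin π.n) ℂ) := by
    apply Matrix.toLin'.injective
    apply LinearMap.ext
    intro w
    obtain ⟨c, rfl⟩ := e.surjective w
    rw [Matrix.toLin'_apply, Matrix.toLin'_apply, he, Matrix.smul_mulVec, Matrix.one_mulVec,
      Matrix.mulVec_sum, Finset.smul_sum]
    refine Finset.sum_congr rfl fun q _ => ?_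
    rw [Matrix.mulVec_smul, h2, smul_comm]
  have h6 : (π.n : ℂ) ≠ 0 := by
    have := π.pos
    exact_mod_cast this.ne'
  rw [centralValue, h5, Matrix.trace_smul, Matrix.trace_one, Fintype.card_fin, smul_eq_mul,
    mul_div_assoc, div_self h6, mul_one]

/-- main theorem with all instances -/
theorem main_aux (hQ : ∀ x y : G, x * y * x⁻¹ * y⁻¹ ∈ A)
    (hA : ∀ ψ : A →* ℂˣ, (∃ lam : G →* ℂˣ, lam.comp A.subtype = ψ) ∨
      ∀ g : G, cj A g ψ = ψ → g ∈ A)
    (Λ : (G → ℂ) → ℂ) (h0 : Λ 0 = 1)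
    (hadd : ∀ χ χ' : G → ℂ, IsCharacter χ → IsCharacter χ' → Λ (χ + χ') = Λ χ * Λ χ')
    (s : MonoidAlgebra ℤ A) (hs : ∀ ψ : A →* ℂˣ, Λ (indChar A ψ) = ev ψ s)
    (x : MonoidAlgebra ℤ G) (hx : ∀ lam : G →* ℂˣ, Λ (cv lam) = ev lam x) :
    (fun π : IrrRep G => Λ fun g => (π.ρ g).trace) ∈ integralityRing G := by
  have hQ' : ∀ x y : G ⧸ A, x * y = y * x := by
    intro x y
    induction x using QuotientGroup.induction_on with | _ x
    induction y using QuotientGroup.induction_on with | _ y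
    rw [← QuotientGroup.mk_mul, ← QuotientGroup.mk_mul, QuotientGroup.eq]
    have := hQ y⁻¹ x⁻¹
    have e : (x * y)⁻¹ * (y * x) = y⁻¹ * x⁻¹ * y⁻¹⁻¹ * x⁻¹⁻¹ := by group
    rw [e]
    exact this
  set t : MonoidAlgebra ℤ A := s - nrm A x with ht
  have hinv : ∀ (g : G) (ψ : A →* ℂˣ), ev (cj A g ψ) t = ev ψ t := by
    intro g ψ
    rw [ht, map_sub, map_sub, ← hs, ← hs, indChar_cj, ev_nrm, ev_nrm, det_cj]
  have hcen : emb A t ∈ Subring.center (MonoidAlgebra ℤ G) := emb_center A t (inv_of_ev A t hinv)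
  have key : (fun π : IrrRep G => Λ fun g => (π.ρ g).trace)
      = reducedNorm (Matrix.of fun _ _ : Fin 1 => x) + centralValue (emb A t) := by
    funext π
    rw [Pi.add_apply, reducedNorm_one]
    obtain ⟨ψ, v, hv0, hv⟩ := exists_eig A π
    rcases hA ψ with ⟨lam, hlam⟩ | hst
    · subst hlam
      obtain ⟨hn, -⟩ := linear_case A hQ π lam v hv0 hv
      let δ : G →* ℂˣ := (Matrix.detMonoidHom.comp π.ρ).toHomUnits
      have hδ : ∀ g, cv δ g = (π.ρ g).trace := by
        intro g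
        rw [← det_eq_trace hn]
        rfl
      have h1 : (fun g => (π.ρ g).trace) = (cv δ : G → ℂ) := by
        funext g
        rw [hδ]
      have h2 : (ext π.ρ x).det = ev δ x := by
        rw [det_eq_trace hn, ext_trace, ev_sum]
        exact Finset.sum_congr rfl fun g _ => by rw [← hδ]; rfl
      have h3 : centralValue (emb A t) π = ev (δ.comp A.subtype) t := by
        have hn' : (π.n : ℂ) = 1 := by rw [hn, Nat.cast_one]
        rw [centralValue, hn', div_one, ext_emb, Matrix.trace_sum, ev_sum]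
        refine Finset.sum_congr rfl fun a _ => ?_
        rw [Matrix.trace_smul, zsmul_eq_mul, ← hδ]
        rfl
      rw [h1, hx, h2, h3, ht, map_sub, ← hs, val_extend A hQ' Λ h0 hadd x hx, sub_self, add_zero]
    · obtain ⟨e, he1, he2⟩ := induced_case A π ψ v hv0 hv hst
      obtain ⟨h1, h2⟩ := ext_intertwine π.ρ (indM A (cv ψ)) e he1
      have h3 : (fun g => (π.ρ g).trace) = indChar A ψ := by
        funext g
        rw [h2, trace_indM]
      rw [h3, hs, h1, ← ev_nrm, central_induced A π ψ v hv e he2 t hcen, ht, map_sub]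
      ring
  rw [key]
  refine Subring.add_mem _ ?_ ?_
  · exact Subring.subset_closure (Or.inr ⟨1, _, rfl⟩)
  · exact Subring.subset_closure (Or.inl ⟨_, hcen, rfl⟩)

end

/-- main theorem -/
theorem main {G : Type} [Group G] [Fintype G] (A : Subgroup G) [A.Normal] [IsMulCommutative A]
    (hQ : ∀ x y : G, x * y * x⁻¹ * y⁻¹ ∈ A)
    (hA : ∀ ψ : A →* ℂˣ, (∃ lam : G →* ℂˣ, lam.comp A.subtype = ψ) ∨
      ∀ g : G, cj A g ψ = ψ → g ∈ A)
    (Λ : (G → ℂ) → ℂ) (h0 : Λ 0 = 1)
    (hadd : ∀ χ χ' : G → ℂ, IsCharacter χ → IsCharacter χ' → Λ (χ + χ') = Λ χ * Λ χ')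
    (s : MonoidAlgebra ℤ A) (hs : ∀ ψ : A →* ℂˣ, Λ (indChar A ψ) = ev ψ s)
    (b : MonoidAlgebra ℤ (Abelianization G))
    (hb : ∀ lam : Abelianization G →* ℂˣ, Λ (cv (lam.comp Abelianization.of)) = ev lam b) :
    (fun π : IrrRep G => Λ fun g => (π.ρ g).trace) ∈ integralityRing G := by
  classical
  have : Fintype A := Fintype.ofFinite A
  have : Fintype (G ⧸ A) := Fintype.ofFinite _
  obtain ⟨x, hx⟩ := exists_lift b
  refine main_aux A hQ hA Λ h0 hadd s hs x fun lam => ?_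
  have h1 : lam = (Abelianization.lift lam).comp Abelianization.of := by
    apply MonoidHom.ext
    intro g
    rw [MonoidHom.comp_apply, Abelianization.lift_apply_of]
  rw [h1, hb, hx]

end H25SI
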