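import Mathlib
import Pool.Agent.H25.SI.Main

/-!
# Group theoretic conditions, and the theorem for them
-/

set_option autoImplicit false
set_option linter.unusedSectionVars false

namespace H25SI

open Matrix
open scoped IsMulCommutative

/-- `Λ` is multiplicative on characters -/
def IsMultiplicative {G : Type} [Group G] (Λ : (G → ℂ) → ℂ) : Prop :=
  Λ 0 = 1 ∧ ∀ χ χ' : G → ℂ, IsCharacter χ → IsCharacter χ' → Λ (χ + χ') = Λ χ * Λ χ'

/-- `Λ` is interpolated by an element of `ℤ[H]` at the characters induced from linear characters -/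
def IntegralAt {G : Type} [Group G] [Fintype G] (Λ : (G → ℂ) → ℂ) (H : Subgroup G) : Prop :=
  ∃ b : MonoidAlgebra ℤ H, ∀ lam : H →* ℂˣ, Λ (indChar H lam) = ev lam b

/-- The function `π ↦ Λ (character of π)` -/
def theta {G : Type} [Group G] (Λ : (G → ℂ) → ℂ) (π : IrrRep G) : ℂ := Λ fun g => (π.ρ g).trace

section
variable {G : Type} [Group G] [Fintype G]

theorem indChar_top (lam : G →* ℂˣ) :
    indChar (⊤ : Subgroup G) (lam.comp (⊤ : Subgroup G).subtype) = (cv lam : G → ℂ) := by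
  classical
  funext g
  rw [indChar]
  have h1 : ∀ t : G, (if h : t⁻¹ * g * t ∈ (⊤ : Subgroup G) then
      ((lam.comp (⊤ : Subgroup G).subtype ⟨t⁻¹ * g * t, h⟩ : ℂˣ) : ℂ) else 0) = cv lam g := by
    intro t
    rw [dif_pos (Subgroup.mem_top _)]
    have : (lam.comp (⊤ : Subgroup G).subtype) ⟨t⁻¹ * g * t, Subgroup.mem_top _⟩
        = lam (t⁻¹ * g * t) := rfl
    rw [this, map_mul, map_mul, mul_comm (lam t⁻¹), mul_assoc, ← map_mul lam t⁻¹, inv_mul_cancel,
      map_one, mul_one]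
    rfl
  rw [Finset.sum_congr rfl fun t _ => h1 t, Finset.sum_const, Finset.card_univ, nsmul_eq_mul,
    Subgroup.card_top, Nat.card_eq_fintype_card, inv_mul_cancel_left₀]
  exact_mod_cast Fintype.card_ne_zero

/-- extension of characters trivial on commutators -/
theorem exists_extend (A : Subgroup G) (hQ : ∀ x y : G, x * y * x⁻¹ * y⁻¹ ∈ A) (ψ : A →* ℂˣ)
    (h : ∀ x y : G, ψ ⟨_, hQ x y⟩ = 1) : ∃ lam : G →* ℂˣ, lam.comp A.subtype = ψ := by
  classical
  let f : A →* Abelianization G := Abelianization.of.comp A.subtype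
  have hker : f.ker ≤ ψ.ker := by
    intro a ha
    have h1 : (a : G) ∈ commutator G := by
      rw [← Abelianization.ker_of]
      exact ha
    have h2 : commutator G ≤ ψ.ker.map A.subtype := by
      rw [commutator_def, Subgroup.commutator_le]
      intro x _ y _
      exact ⟨⟨_, hQ x y⟩, h x y, rfl⟩
    obtain ⟨a', ha', e⟩ := h2 h1
    have : a' = a := Subtype.ext e
    rw [← this]
    exact ha'
  let φ : f.range →* ℂˣ := (QuotientGroup.lift f.ker ψ fun a ha => hker ha).comp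
    (QuotientGroup.quotientKerEquivRange f).symm.toMonoidHom
  have : Finite (Abelianization G) := inferInstance
  obtain ⟨lam', hlam⟩ := MonoidHom.domRestrict_surjective (M := ℂ) (G := Abelianization G) f.range φ
  refine ⟨lam'.comp Abelianization.of, ?_⟩
  apply MonoidHom.ext
  intro a
  have h1 : lam' (f a) = φ ⟨f a, a, rfl⟩ := by
    rw [← hlam]
    rfl
  have h2 : (QuotientGroup.quotientKerEquivRange f).symm ⟨f a, a, rfl⟩ = (a : A ⧸ f.ker) := by
    rw [MulEquiv.symm_apply_eq]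
    rfl
  change lam' (f a) = ψ a
  rw [h1]
  change (QuotientGroup.lift f.ker ψ fun a ha => hker ha)
    ((QuotientGroup.quotientKerEquivRange f).symm ⟨f a, a, rfl⟩) = ψ a
  rw [h2, QuotientGroup.lift_mk]

theorem two_level (A : Subgroup G) [A.Normal] (hA : ∀ a ∈ A, ∀ b ∈ A, a * b = b * a)
    (hQ : ∀ x y : G, x * y * x⁻¹ * y⁻¹ ∈ A)
    (hC : ∀ g : G, g ∉ A → ∀ x y : G, ∃ a ∈ A, a * g * a⁻¹ * g⁻¹ = x * y * x⁻¹ * y⁻¹)
    (Λ : (G → ℂ) → ℂ) (hΛ : IsMultiplicative Λ) (h1 : IntegralAt Λ A) (h2 : IntegralAt Λ ⊤) :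
    theta Λ ∈ integralityRing G := by
  classical
  have : IsMulCommutative A := ⟨⟨fun a b => Subtype.ext (hA a a.2 b b.2)⟩⟩
  obtain ⟨s, hs⟩ := h1
  obtain ⟨x', hx'⟩ := h2
  have : Fintype (G ⧸ A) := Fintype.ofFinite _
  have : Fintype A := Fintype.ofFinite A
  let x : MonoidAlgebra ℤ G := ∑ g : (⊤ : Subgroup G), MonoidAlgebra.single (g : G) (x'.coeff g)
  have hx : ∀ lam : G →* ℂˣ, Λ (cv lam) = ev lam x := by
    intro lam
    rw [← indChar_top, hx', map_sum, ev_sum]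
    refine Finset.sum_congr rfl fun g _ => ?_
    rw [ev_single]
    rfl
  refine main_aux A hQ (fun ψ => ?_) Λ hΛ.1 hΛ.2 s hs x hx
  by_cases h : ∀ x y : G, ψ ⟨_, hQ x y⟩ = 1
  · exact Or.inl (exists_extend A hQ ψ h)
  · right
    push Not at h
    obtain ⟨x, y, hxy⟩ := h
    intro g hg
    by_contra hgA
    obtain ⟨a, ha, e⟩ := hC g hgA x y
    apply hxy
    have e1 : (⟨_, hQ x y⟩ : A) = ⟨a, ha⟩ * MulAut.conjNormal g (⟨a, ha⟩⁻¹ : A) := by
      apply Subtype.ext
      rw [Subgroup.coe_mul, MulAut.conjNormal_apply]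
      simp only [InvMemClass.coe_inv]
      rw [← e]
      group
    have e2 : ψ (MulAut.conjNormal g (⟨a, ha⟩⁻¹ : A)) = ψ (⟨a, ha⟩⁻¹ : A) := by
      conv_rhs => rw [← hg]
      rfl
    rw [e1, map_mul, e2, ← map_mul, mul_inv_cancel, map_one]

/-- abelian kernel and abelian quotient without nontrivial centralizing -/
theorem frobenius_cond (A : Subgroup G) [A.Normal] (hA : ∀ a ∈ A, ∀ b ∈ A, a * b = b * a)
    (hQ : ∀ x y : G, x * y * x⁻¹ * y⁻¹ ∈ A)
    (hF : ∀ g : G, g ∉ A → ∀ a ∈ A, a * g = g * a → a = 1) :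
    ∀ g : G, g ∉ A → ∀ x y : G, ∃ a ∈ A, a * g * a⁻¹ * g⁻¹ = x * y * x⁻¹ * y⁻¹ := by
  intro g hg x y
  have hmem : ∀ a : A, (a : G) * (g * (a : G)⁻¹ * g⁻¹) ∈ A := fun a =>
    A.mul_mem a.2 ((inferInstance : A.Normal).conj_mem _ (A.inv_mem a.2) g)
  let f : A → A := fun a => ⟨_, hmem a⟩
  have hinj : Function.Injective f := by
    intro a b hab
    have h1 : (a : G) * (g * (a : G)⁻¹ * g⁻¹) = (b : G) * (g * (b : G)⁻¹ * g⁻¹) :=
      congrArg Subtype.val hab
    have h2 : (b : G)⁻¹ * a * g = g * ((b : G)⁻¹ * a) := by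
      have h3 : (b : G)⁻¹ * a * (g * (a : G)⁻¹ * g⁻¹) = g * (b : G)⁻¹ * g⁻¹ := by
        rw [mul_assoc, h1]
        group
      have h4 : g * (a : G) * g⁻¹ * (g * (b : G)⁻¹ * g⁻¹) = (g * (b : G)⁻¹ * g⁻¹) * (g * a * g⁻¹) :=
        hA _ ((inferInstance : A.Normal).conj_mem _ a.2 g) _
          ((inferInstance : A.Normal).conj_mem _ (A.inv_mem b.2) g)
      have h5 : (b : G)⁻¹ * a * g = (b : G)⁻¹ * a * (g * (a : G)⁻¹ * g⁻¹) * (g * a * g⁻¹) * g := by
        group
      rw [h5, h3, ← h4]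
      have h6 : g * (a : G) * g⁻¹ * (g * (b : G)⁻¹ * g⁻¹) * g = g * ((a : G) * (b : G)⁻¹) := by group
      rw [h6, hA _ a.2 _ (A.inv_mem b.2)]
    have h3 := hF g hg ((b : G)⁻¹ * a) (A.mul_mem (A.inv_mem b.2) a.2) h2
    apply Subtype.ext
    rw [inv_mul_eq_one] at h3
    exact h3.symm
  obtain ⟨a, ha⟩ := (Finite.injective_iff_surjective.1 hinj) ⟨_, hQ x y⟩
  refine ⟨a, a.2, ?_⟩
  have h1 : (a : G) * (g * (a : G)⁻¹ * g⁻¹) = x * y * x⁻¹ * y⁻¹ := congrArg Subtype.val ha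
  rw [← h1]
  group

/-- an abelian normal subgroup of prime index -/
theorem index_cond (A : Subgroup G) [A.Normal] (hA : ∀ a ∈ A, ∀ b ∈ A, a * b = b * a)
    (hp : A.index.Prime) :
    (∀ x y : G, x * y * x⁻¹ * y⁻¹ ∈ A) ∧
    ∀ g : G, g ∉ A → ∀ x y : G, ∃ a ∈ A, a * g * a⁻¹ * g⁻¹ = x * y * x⁻¹ * y⁻¹ := by
  have hcard : Nat.card (G ⧸ A) = A.index := rfl
  have : Fact A.index.Prime := ⟨hp⟩
  have hcyc : IsCyclic (G ⧸ A) := isCyclic_of_prime_card hcard
  have hcommQ : ∀ x y : G ⧸ A, x * y = y * x := fun x y =>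
    ((MonoidHom.id (G ⧸ A)).isMulCommutative_of_isCyclic_of_ker_le_center (by
      intro z hz
      have : z = 1 := hz
      rw [this]
      exact Subgroup.one_mem _)).is_comm.comm x y
  refine ⟨fun x y => ?_, fun g hg x y => ?_⟩
  · rw [← QuotientGroup.eq_one_iff, QuotientGroup.mk_mul, QuotientGroup.mk_mul, QuotientGroup.mk_mul,
      hcommQ x y, QuotientGroup.mk_inv, QuotientGroup.mk_inv, mul_inv_cancel_right, mul_inv_cancel]
  · have hconj : ∀ (z : G), z ∈ A → ∀ t : G, t * z * t⁻¹ ∈ A := fun z hz t =>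
      (inferInstance : A.Normal).conj_mem z hz t
    let K : Subgroup G :=
      { carrier := {k | ∃ a ∈ A, a * (g * a⁻¹ * g⁻¹) = k}
        one_mem' := ⟨1, A.one_mem, by group⟩
        mul_mem' := by
          rintro _ _ ⟨a, ha, rfl⟩ ⟨b, hb, rfl⟩
          refine ⟨a * b, A.mul_mem ha hb, ?_⟩
          have h1 : b * (g * a⁻¹ * g⁻¹) = (g * a⁻¹ * g⁻¹) * b := hA _ hb _ (hconj _ (A.inv_mem ha) g)
          have h2 : a⁻¹ * b⁻¹ = b⁻¹ * a⁻¹ := hA _ (A.inv_mem ha) _ (A.inv_mem hb)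
          calc a * b * (g * (a * b)⁻¹ * g⁻¹) = a * b * (g * (a⁻¹ * b⁻¹) * g⁻¹) := by
                rw [_root_.mul_inv_rev, h2]
            _ = a * (b * (g * a⁻¹ * g⁻¹)) * (g * b⁻¹ * g⁻¹) := by group
            _ = a * ((g * a⁻¹ * g⁻¹) * b) * (g * b⁻¹ * g⁻¹) := by rw [h1]
            _ = a * (g * a⁻¹ * g⁻¹) * (b * (g * b⁻¹ * g⁻¹)) := by group
        inv_mem' := by
          rintro _ ⟨a, ha, rfl⟩
          refine ⟨a⁻¹, A.inv_mem ha, ?_⟩
          have h1 : a⁻¹ * (g * a * g⁻¹) = (g * a * g⁻¹) * a⁻¹ := hA _ (A.inv_mem ha) _ (hconj _ ha g)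
          rw [_root_.mul_inv_rev, inv_inv, h1]
          group }
    have hKA : K ≤ A := by
      rintro _ ⟨a, ha, rfl⟩
      exact A.mul_mem ha (hconj _ (A.inv_mem ha) g)
    have hgK : ∀ a ∈ A, a * g * a⁻¹ * g⁻¹ ∈ K := fun a ha => ⟨a, ha, by group⟩
    let Z : Subgroup G :=
      { carrier := {z | ∀ a ∈ A, a * z * a⁻¹ * z⁻¹ ∈ K}
        one_mem' := fun a _ => by
          have : a * 1 * a⁻¹ * 1⁻¹ = (1 : G) := by group
          rw [this]
          exact K.one_mem
        mul_mem' := by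
          intro z w hz hw a ha
          have h1 : a * (z * w) * a⁻¹ * (z * w)⁻¹
              = (a * z * a⁻¹ * z⁻¹) * (z * (a * w * a⁻¹ * w⁻¹) * z⁻¹) := by group
          rw [h1]
          refine K.mul_mem (hz a ha) ?_
          have hk := hw a ha
          have h2 := hz _ (A.inv_mem (hKA hk))
          have h3 : z * (a * w * a⁻¹ * w⁻¹) * z⁻¹ = (a * w * a⁻¹ * w⁻¹) *
              ((a * w * a⁻¹ * w⁻¹)⁻¹ * z * ((a * w * a⁻¹ * w⁻¹)⁻¹)⁻¹ * z⁻¹) := by group
          rw [h3]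
          exact K.mul_mem hk h2
        inv_mem' := by
          intro z hz a ha
          have hk := K.inv_mem (hz a ha)
          have h1 : a * z⁻¹ * a⁻¹ * z⁻¹⁻¹ = z⁻¹ * (z * a * z⁻¹ * a⁻¹) * z := by group
          have h2 : z * a * z⁻¹ * a⁻¹ = (a * z * a⁻¹ * z⁻¹)⁻¹ := by group
          rw [h1, h2]
          set k := (a * z * a⁻¹ * z⁻¹)⁻¹
          have hk' : z⁻¹ * k * z ∈ A := by
            have := hconj k (hKA hk) z⁻¹
            rwa [inv_inv] at this
          have h3 := hz _ hk'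
          have h4 : z⁻¹ * k * z = (z⁻¹ * k * z * z * (z⁻¹ * k * z)⁻¹ * z⁻¹) * k := by group
          rw [h4]
          exact K.mul_mem h3 hk }
    have hAZ : A ≤ Z := by
      intro z hz a ha
      have h1 : a * z * a⁻¹ * z⁻¹ = 1 := by
        rw [hA a ha z hz]
        group
      rw [h1]
      exact K.one_mem
    have hgZ : g ∈ Z := fun a ha => hgK a ha
    have hZ : Z = ⊤ := by
      have h1 : Z.index ∣ A.index := Subgroup.index_dvd_of_le hAZ
      rcases (Nat.dvd_prime hp).1 h1 with h | h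
      · exact Subgroup.index_eq_one.1 h
      · exfalso
        have h2 : A.relIndex Z * Z.index = A.index := Subgroup.relIndex_mul_index hAZ
        rw [h] at h2
        have h3 : A.relIndex Z = 1 := by
          have := hp.pos
          nlinarith [Nat.eq_of_mul_eq_mul_right this (h2.trans (one_mul _).symm)]
        rw [Subgroup.relIndex_eq_one] at h3
        exact hg (h3 hgZ)
    have hall : ∀ z : G, ∀ a ∈ A, a * z * a⁻¹ * z⁻¹ ∈ K := by
      intro z
      have : z ∈ Z := by rw [hZ]; trivial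
      exact this
    have hKn : K.Normal := by
      refine ⟨fun k hk z => ?_⟩
      have h2 := hall z _ (A.inv_mem (hKA hk))
      have h3 : z * k * z⁻¹ = k * (k⁻¹ * z * k⁻¹⁻¹ * z⁻¹) := by group
      rw [h3]
      exact K.mul_mem hk h2
    have hcomm : ∀ u w : G ⧸ K, u * w = w * u := by
      intro u w
      have hle : K ≤ A.comap (MonoidHom.id G) := fun k hk => hKA hk
      refine ((QuotientGroup.map K A (MonoidHom.id G)
        hle).isMulCommutative_of_isCyclic_of_ker_le_center ?_).is_comm.comm u w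
      intro z hz
      rw [Subgroup.mem_center_iff]
      intro t
      induction z using QuotientGroup.induction_on with | _ z
      induction t using QuotientGroup.induction_on with | _ t
      have hzA : z ∈ A := by
        rw [MonoidHom.mem_ker, QuotientGroup.map_mk, MonoidHom.id_apply,
          QuotientGroup.eq_one_iff] at hz
        exact hz
      rw [← QuotientGroup.mk_mul, ← QuotientGroup.mk_mul, QuotientGroup.eq]
      have h1 := hall t⁻¹ z⁻¹ (A.inv_mem hzA)
      have h2 : (t * z)⁻¹ * (z * t) = z⁻¹ * t⁻¹ * z⁻¹⁻¹ * t⁻¹⁻¹ := by group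
      rw [h2]
      exact h1
    have h1 : x * y * x⁻¹ * y⁻¹ ∈ K := by
      rw [← QuotientGroup.eq_one_iff, QuotientGroup.mk_mul, QuotientGroup.mk_mul,
        QuotientGroup.mk_mul, hcomm (x : G ⧸ K) y, QuotientGroup.mk_inv, QuotientGroup.mk_inv,
        mul_inv_cancel_right, mul_inv_cancel]
    obtain ⟨a, ha, e⟩ := h1
    refine ⟨a, ha, ?_⟩
    rw [← e]
    group

end

end H25SI
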