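import Mathlib
import Pool.Agent.H25.SI.Grp

/-!
# Induction from linear characters of normal subgroups that need not be abelian
-/

set_option autoImplicit false
set_option linter.unusedSectionVars false

namespace H25SI

open Matrix

open Classical in
theorem sum_groupG {A : Type} [Group A] [Fintype A] (ψ : A →* ℂˣ) :
    ∑ a : A, ((ψ a : ℂˣ) : ℂ) = if ψ = 1 then (Fintype.card A : ℂ) else 0 := by
  split_ifs with h
  · subst h
    simp
  · obtain ⟨b, hb⟩ : ∃ b, ψ b ≠ 1 := by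
      by_contra hc
      push Not at hc
      exact h (MonoidHom.ext hc)
    have h1 : ∑ a : A, ((ψ (b * a) : ℂˣ) : ℂ) = ∑ a : A, ((ψ a : ℂˣ) : ℂ) :=
      Fintype.sum_equiv (Equiv.mulLeft b) _ _ fun a => rfl
    have h2 : ((ψ b : ℂˣ) : ℂ) * ∑ a : A, ((ψ a : ℂˣ) : ℂ) = ∑ a : A, ((ψ a : ℂˣ) : ℂ) := by
      conv_rhs => rw [← h1]
      rw [Finset.mul_sum]
      refine Finset.sum_congr rfl fun a _ => ?_
      rw [map_mul, Units.val_mul]
    have h3 : ((ψ b : ℂˣ) : ℂ) - 1 ≠ 0 := by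
      intro h4
      apply hb
      ext
      rw [Units.val_one]
      linear_combination h4
    have h4 : (((ψ b : ℂˣ) : ℂ) - 1) * ∑ a : A, ((ψ a : ℂˣ) : ℂ) = 0 := by
      linear_combination h2
    exact (mul_eq_zero.1 h4).resolve_left h3

section
variable {G : Type} [Group G] [Fintype G] (H : Subgroup G) [H.Normal]

theorem card_neG : (Nat.card H : ℂ) ≠ 0 := by
  have : 0 < Nat.card H := Nat.card_pos
  exact_mod_cast this.ne'

theorem cj_cjG (g h : G) (ψ : H →* ℂˣ) : cj H g (cj H h ψ) = cj H (h * g) ψ := by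
  apply MonoidHom.ext
  intro a
  have h1 : cj H g (cj H h ψ) a = ψ (MulAut.conjNormal h (MulAut.conjNormal g a)) := rfl
  have h2 : cj H (h * g) ψ a = ψ (MulAut.conjNormal (h * g) a) := rfl
  rw [h1, h2]
  congr 1
  apply Subtype.ext
  simp only [MulAut.conjNormal_apply]
  group

theorem cj_oneG (ψ : H →* ℂˣ) : cj H 1 ψ = ψ := by
  apply MonoidHom.ext
  intro a
  have h1 : cj H 1 ψ a = ψ (MulAut.conjNormal 1 a) := rfl
  rw [h1]
  congr 1
  apply Subtype.ext
  simp only [MulAut.conjNormal_apply]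
  group

theorem indChar_cjG (g : G) (ψ : H →* ℂˣ) : indChar H (cj H g ψ) = indChar H ψ := by
  classical
  funext h
  rw [indChar, indChar]
  congr 1
  have key : ∀ t : G, (if hh : t⁻¹ * h * t ∈ H then
        ((cj H g ψ ⟨t⁻¹ * h * t, hh⟩ : ℂˣ) : ℂ) else 0)
      = (if hh : (t * g⁻¹)⁻¹ * h * (t * g⁻¹) ∈ H then
        ((ψ ⟨(t * g⁻¹)⁻¹ * h * (t * g⁻¹), hh⟩ : ℂˣ) : ℂ) else 0) := by
    intro t
    have e : (t * g⁻¹)⁻¹ * h * (t * g⁻¹) = g * (t⁻¹ * h * t) * g⁻¹ := by group
    by_cases hm : t⁻¹ * h * t ∈ H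
    · have hm' : (t * g⁻¹)⁻¹ * h * (t * g⁻¹) ∈ H := by
        rw [e]
        exact (inferInstance : H.Normal).conj_mem _ hm g
      rw [dif_pos hm, dif_pos hm']
      have h1 : cj H g ψ ⟨t⁻¹ * h * t, hm⟩ = ψ (MulAut.conjNormal g ⟨t⁻¹ * h * t, hm⟩) := rfl
      rw [h1]
      congr 2
      apply Subtype.ext
      rw [MulAut.conjNormal_apply]
      exact e.symm
    · have hm' : ¬ (t * g⁻¹)⁻¹ * h * (t * g⁻¹) ∈ H := by
        rw [e]
        intro hc
        apply hm
        have := (inferInstance : H.Normal).conj_mem _ hc g⁻¹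
        have e2 : g⁻¹ * (g * (t⁻¹ * h * t) * g⁻¹) * g⁻¹⁻¹ = t⁻¹ * h * t := by group
        rwa [e2] at this
      rw [dif_neg hm, dif_neg hm']
  exact Fintype.sum_equiv (Equiv.mulRight g⁻¹) _ _ key

theorem eig_conjG {n : Type} [Fintype n] [DecidableEq n] (ρ : G →* Matrix n n ℂ) (ψ : H →* ℂˣ)
    (v : n → ℂ) (hv : ∀ a : H, (ρ (a : G)).mulVec v = cv ψ a • v) (g : G) (a : H) :
    (ρ (a : G)).mulVec ((ρ g).mulVec v) = cv (cj H g⁻¹ ψ) a • (ρ g).mulVec v := by
  have h1 : (a : G) * g = g * ((MulAut.conjNormal g⁻¹ a : H) : G) := by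
    rw [MulAut.conjNormal_apply]
    group
  rw [Matrix.mulVec_mulVec, ← map_mul, h1, map_mul, ← Matrix.mulVec_mulVec, hv, Matrix.mulVec_smul]
  rfl

section
variable [Fintype H]

theorem prj_linG {n : Type} [Fintype n] [DecidableEq n] (ρ : G →* Matrix n n ℂ) (ψ : H →* ℂˣ)
    {ι : Type} (s : Finset ι) (c : ι → ℂ) (w : ι → n → ℂ) :
    prj H ρ ψ (∑ i ∈ s, c i • w i) = ∑ i ∈ s, c i • prj H ρ ψ (w i) := by
  simp only [prj, Matrix.mulVec_sum, Matrix.mulVec_smul, Finset.smul_sum]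
  rw [Finset.sum_comm]
  refine Finset.sum_congr rfl fun i _ => Finset.sum_congr rfl fun a _ => ?_
  simp only [smul_smul]
  congr 1
  ring

open Classical in
theorem prj_otherG {n : Type} [Fintype n] [DecidableEq n] (ρ : G →* Matrix n n ℂ) (ψ χ : H →* ℂˣ)
    (v : n → ℂ) (hv : ∀ a : H, (ρ (a : G)).mulVec v = cv χ a • v) :
    prj H ρ ψ v = if χ = ψ then v else 0 := by
  rw [prj]
  have h1 : ∀ a : H, cv ψ a⁻¹ • (ρ (a : G)).mulVec v = (((χ * ψ⁻¹) a : ℂˣ) : ℂ) • v := by
    intro a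
    rw [hv, smul_smul, MonoidHom.mul_apply, MonoidHom.inv_apply, Units.val_mul, mul_comm, ← map_inv]
    rfl
  rw [Finset.sum_congr rfl fun a _ => h1 a, ← Finset.sum_smul, sum_groupG]
  by_cases h : χ = ψ
  · rw [if_pos h, if_pos (by subst h; exact mul_inv_cancel χ), smul_smul,
      ← Nat.card_eq_fintype_card, inv_mul_cancel₀ (card_neG H), one_smul]
  · rw [if_neg h, if_neg fun hh => h (mul_inv_eq_one.1 hh), zero_smul, smul_zero]

/-- independence of eigenvectors for different characters -/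
theorem indep_eig {n : Type} [Fintype n] [DecidableEq n] (ρ : G →* Matrix n n ℂ) {ι : Type}
    [Fintype ι] [DecidableEq ι] (χ : ι → H →* ℂˣ) (hχ : Function.Injective χ) (w : ι → n → ℂ)
    (hw0 : ∀ i, w i ≠ 0) (hw : ∀ i, ∀ a : H, (ρ (a : G)).mulVec (w i) = cv (χ i) a • w i)
    (c : ι → ℂ) (hc : ∑ i, c i • w i = 0) : c = 0 := by
  classical
  funext i0
  have h1 := prj_linG H ρ (χ i0) Finset.univ c w
  rw [hc] at h1
  have h2 : prj H ρ (χ i0) 0 = 0 := by
    simp [prj]
  have h3 : ∀ i, prj H ρ (χ i0) (w i) = if i = i0 then w i else 0 := by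
    intro i
    rw [prj_otherG H ρ (χ i0) (χ i) (w i) (hw i)]
    by_cases hi : i = i0
    · rw [if_pos hi, if_pos (by rw [hi])]
    · rw [if_neg hi, if_neg fun h => hi (hχ h)]
  rw [h2, Finset.sum_congr rfl fun q _ => by rw [h3 q]] at h1
  simp only [smul_ite, smul_zero, Finset.sum_ite_eq', Finset.mem_univ, if_true] at h1
  rw [Pi.zero_apply]
  by_contra hne
  exact (smul_ne_zero hne (hw0 i0)) h1.symm

end

variable [Fintype (G ⧸ H)] [DecidableEq (G ⧸ H)]

theorem trace_indMG (ψ : H →* ℂˣ) (g : G) : (indM H (cv ψ) g).trace = indChar H ψ g := by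
  classical
  have hcard : (Nat.card H : ℂ) ≠ 0 := card_neG H
  rw [Matrix.trace, indChar]
  simp only [Matrix.diag_apply, indM_apply]
  by_cases hg : g ∈ H
  · have hg1 : (g : G ⧸ H) = 1 := (mk_eq_one_iff H g).2 hg
    have h1 : ∀ q : G ⧸ H, q = (g : G ⧸ H) * q := fun q => by rw [hg1, one_mul]
    rw [Finset.sum_congr rfl fun q _ => if_pos (h1 q)]
    have hmem : ∀ t : G, t⁻¹ * g * t ∈ H := fun t => by
      have := (inferInstance : H.Normal).conj_mem g hg t⁻¹
      rwa [inv_inv] at this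
    have h2 : ∀ t : G, (if h : t⁻¹ * g * t ∈ H then ((ψ ⟨t⁻¹ * g * t, h⟩ : ℂˣ) : ℂ) else 0)
        = cv ψ (cz H g (t : G ⧸ H)) := by
      intro t
      rw [dif_pos (hmem t)]
      rw [cv_apply]
      congr 1
      obtain ⟨a, ha⟩ : ∃ a : H, t = ((t : G ⧸ H).out) * a := by
        refine ⟨⟨((t : G ⧸ H).out)⁻¹ * t, by rw [← QuotientGroup.eq, QuotientGroup.out_eq']⟩, ?_⟩
        simp
      obtain ⟨b, hb⟩ : ∃ b : H, (b : G) = ((t : G ⧸ H).out)⁻¹ * g * (t : G ⧸ H).out :=
        ⟨⟨_, hmem _⟩, rfl⟩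
      have h3 : (⟨t⁻¹ * g * t, hmem t⟩ : H) = a⁻¹ * b * a := by
        apply Subtype.ext
        rw [Subgroup.coe_mul, Subgroup.coe_mul, hb, Subgroup.coe_inv]
        change t⁻¹ * g * t = _
        conv_lhs => rw [ha]
        group
      have h4 : cz H g (t : G ⧸ H) = b := by
        apply Subtype.ext
        rw [hb]
        simp only [cz, hg1, one_mul]
      rw [h3, h4, map_mul, map_mul, mul_comm (ψ a⁻¹), mul_assoc, ← map_mul ψ a⁻¹, inv_mul_cancel,
        map_one, mul_one]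
    rw [Finset.sum_congr rfl fun t _ => h2 t]
    have h5 : ∑ t : G, cv ψ (cz H g (t : G ⧸ H)) = ∑ x : (G ⧸ H) × H, cv ψ (cz H g x.1) :=
      Fintype.sum_equiv (cosetEquiv H) _ _ fun t => rfl
    rw [h5, Fintype.sum_prod_type]
    simp only [Finset.sum_const, Finset.card_univ, nsmul_eq_mul]
    rw [← Finset.mul_sum, Nat.card_eq_fintype_card]
    rw [Nat.card_eq_fintype_card] at hcard
    field_simp
  · have h1 : ∀ q : G ⧸ H, ¬ q = (g : G ⧸ H) * q := fun q h => by
      apply hg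
      rw [← mk_eq_one_iff H g]
      have : (g : G ⧸ H) * q = 1 * q := by rw [one_mul, ← h]
      exact mul_right_cancel this
    rw [Finset.sum_congr rfl fun q _ => if_neg (h1 q), Finset.sum_const_zero]
    symm
    apply mul_eq_zero_of_right
    refine Finset.sum_eq_zero fun t _ => ?_
    rw [dif_neg]
    intro h
    apply hg
    have := (inferInstance : H.Normal).conj_mem _ h t
    have e : t * (t⁻¹ * g * t) * t⁻¹ = g := by group
    rwa [e] at this

variable [Fintype H]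

/-- irreducible representations with an eigenvector of a normal subgroup with trivial inertia -/
theorem induced_caseG (π : IrrRep G) (ψ : H →* ℂˣ) (v : Fin π.n → ℂ) (hv0 : v ≠ 0)
    (hv : ∀ a : H, (π.ρ (a : G)).mulVec v = cv ψ a • v)
    (hst : ∀ g : G, cj H g ψ = ψ → g ∈ H) :
    ∃ e : (G ⧸ H → ℂ) ≃ₗ[ℂ] (Fin π.n → ℂ),
      (∀ (g : G) (c : G ⧸ H → ℂ), (π.ρ g).mulVec (e c) = e ((indM H (cv ψ) g).mulVec c)) := by
  classical
  let w : G ⧸ H → Fin π.n → ℂ := fun q => (π.ρ q.out).mulVec v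
  let f : (G ⧸ H → ℂ) →ₗ[ℂ] (Fin π.n → ℂ) := Fintype.linearCombination ℂ w
  have hf : ∀ c, f c = ∑ q : G ⧸ H, c q • w q := fun c => Fintype.linearCombination_apply _ _ _
  have hw0 : ∀ q, w q ≠ 0 := by
    intro q h
    apply hv0
    have h1 : (π.ρ (q.out)⁻¹).mulVec (w q) = v := by
      simp only [w]
      rw [Matrix.mulVec_mulVec, ← map_mul, inv_mul_cancel, map_one, Matrix.one_mulVec]
    rw [← h1, h, Matrix.mulVec_zero]
  have hgw : ∀ (g : G) (q : G ⧸ H),
      (π.ρ g).mulVec (w q) = cv ψ (cz H g q) • w ((g : G ⧸ H) * q) := by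
    intro g q
    simp only [w]
    rw [Matrix.mulVec_mulVec, ← map_mul, mul_out H g q, map_mul, ← Matrix.mulVec_mulVec, hv,
      Matrix.mulVec_smul]
  have hint : ∀ (g : G) (c : G ⧸ H → ℂ), (π.ρ g).mulVec (f c) = f ((indM H (cv ψ) g).mulVec c) := by
    intro g c
    rw [hf, hf, Matrix.mulVec_sum]
    have h1 : ∀ s : G ⧸ H, ((indM H (cv ψ) g).mulVec c) s • w s
        = ∑ q : G ⧸ H, if s = (g : G ⧸ H) * q then (cv ψ (cz H g q) * c q) • w s else 0 := by
      intro s
      rw [Matrix.mulVec, dotProduct, Finset.sum_smul]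
      refine Finset.sum_congr rfl fun q _ => ?_
      rw [indM_apply]
      split_ifs
      · rfl
      · rw [zero_mul, zero_smul]
    rw [Finset.sum_congr rfl fun s _ => h1 s, Finset.sum_comm]
    refine Finset.sum_congr rfl fun q _ => ?_
    rw [Finset.sum_ite_eq', if_pos (Finset.mem_univ _), Matrix.mulVec_smul, hgw, smul_smul,
      mul_comm]
  have hinj : Function.Injective f := by
    rw [injective_iff_map_eq_zero]
    intro c hc
    rw [hf] at hc
    refine indep_eig H π.ρ (fun q : G ⧸ H => cj H (q.out)⁻¹ ψ) ?_ w hw0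
      (fun q a => eig_conjG H π.ρ ψ v hv q.out a) c hc
    intro q q0 h4
    have h5 := congrArg (cj H q0.out) h4
    simp only [cj_cjG, inv_mul_cancel, cj_oneG] at h5
    have h6 := hst _ h5
    rw [← QuotientGroup.eq, QuotientGroup.out_eq', QuotientGroup.out_eq'] at h6
    exact h6
  have hsurj : Function.Surjective f := by
    rw [← LinearMap.range_eq_top]
    rcases π.irr (LinearMap.range f) (fun g u hu => by
      obtain ⟨c, rfl⟩ := hu
      exact ⟨_, (hint g c).symm⟩) with h | h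
    · exfalso
      have h1 : w 1 ∈ LinearMap.range f := ⟨Pi.single 1 1, by
        rw [hf, Finset.sum_eq_single 1]
        · rw [Pi.single_eq_same, one_smul]
        · intro q _ hq
          rw [Pi.single_eq_of_ne hq, zero_smul]
        · intro hq
          exact absurd (Finset.mem_univ _) hq⟩
      rw [h, Submodule.mem_bot] at h1
      exact hw0 1 h1
    · exact h
  exact ⟨LinearEquiv.ofBijective f ⟨hinj, hsurj⟩, hint⟩

end

end H25SI
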