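import Mathlib
import Pool.Agent.H25.SI.Ind

/-!
# Characters of finite abelian groups with values in a field with enough roots of unity
-/

set_option autoImplicit false
set_option linter.unusedSectionVars false

namespace H25SI

open Matrix
open scoped IsMulCommutative

section
variable {k : Type} [Field k] {A : Type} [CommGroup A] [Fintype A]

theorem hasEnough [IsAlgClosed k] (h : (Nat.card A : k) ≠ 0) :
    HasEnoughRootsOfUnity k (Monoid.exponent A) := by
  have h1 : ((Monoid.exponent A : ℕ) : k) ≠ 0 := by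
    intro h2
    apply h
    obtain ⟨m, hm⟩ := Group.exponent_dvd_nat_card (G := A)
    rw [hm, Nat.cast_mul, h2, zero_mul]
  have : NeZero ((Monoid.exponent A : ℕ) : k) := ⟨h1⟩
  infer_instance

variable [HasEnoughRootsOfUnity k (Monoid.exponent A)]

noncomputable instance instFintypeDualK : Fintype (A →* kˣ) := Fintype.ofFinite _

theorem card_dualK : Fintype.card (A →* kˣ) = Fintype.card A := by
  rw [← Nat.card_eq_fintype_card, ← Nat.card_eq_fintype_card]
  exact CommGroup.card_monoidHom_of_hasEnoughRootsOfUnity A k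

open Classical in
theorem sum_charsK (a : A) :
    ∑ ψ : A →* kˣ, ((ψ a : kˣ) : k) = if a = 1 then (Fintype.card A : k) else 0 := by
  split_ifs with h
  · subst h
    simp [card_dualK]
  · obtain ⟨φ, hφ⟩ := CommGroup.exists_apply_ne_one_of_hasEnoughRootsOfUnity A k h
    have h1 : ∑ ψ : A →* kˣ, (((φ * ψ) a : kˣ) : k) = ∑ ψ : A →* kˣ, ((ψ a : kˣ) : k) :=
      Fintype.sum_equiv (Equiv.mulLeft φ) _ _ fun ψ => rfl
    have h2 : ((φ a : kˣ) : k) * ∑ ψ : A →* kˣ, ((ψ a : kˣ) : k)
        = ∑ ψ : A →* kˣ, ((ψ a : kˣ) : k) := by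
      conv_rhs => rw [← h1]
      rw [Finset.mul_sum]
      refine Finset.sum_congr rfl fun ψ _ => ?_
      rw [MonoidHom.mul_apply, Units.val_mul]
    have h3 : ((φ a : kˣ) : k) - 1 ≠ 0 := by
      intro h4
      apply hφ
      ext
      rw [Units.val_one]
      linear_combination h4
    have h4 : (((φ a : kˣ) : k) - 1) * ∑ ψ : A →* kˣ, ((ψ a : kˣ) : k) = 0 := by
      linear_combination h2
    exact (mul_eq_zero.1 h4).resolve_left h3

open Classical in
theorem sum_groupK (ψ : A →* kˣ) :
    ∑ a : A, ((ψ a : kˣ) : k) = if ψ = 1 then (Fintype.card A : k) else 0 := by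
  split_ifs with h
  · subst h
    simp
  · obtain ⟨b, hb⟩ : ∃ b, ψ b ≠ 1 := by
      by_contra hc
      push Not at hc
      exact h (MonoidHom.ext hc)
    have h1 : ∑ a : A, ((ψ (b * a) : kˣ) : k) = ∑ a : A, ((ψ a : kˣ) : k) :=
      Fintype.sum_equiv (Equiv.mulLeft b) _ _ fun a => rfl
    have h2 : ((ψ b : kˣ) : k) * ∑ a : A, ((ψ a : kˣ) : k) = ∑ a : A, ((ψ a : kˣ) : k) := by
      conv_rhs => rw [← h1]
      rw [Finset.mul_sum]
      refine Finset.sum_congr rfl fun a _ => ?_
      rw [map_mul, Units.val_mul]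
    have h3 : ((ψ b : kˣ) : k) - 1 ≠ 0 := by
      intro h4
      apply hb
      ext
      rw [Units.val_one]
      linear_combination h4
    have h4 : (((ψ b : kˣ) : k) - 1) * ∑ a : A, ((ψ a : kˣ) : k) = 0 := by
      linear_combination h2
    exact (mul_eq_zero.1 h4).resolve_left h3

/-- Dedekind's group determinant of a finite abelian group -/
theorem group_detK (hc : (Fintype.card A : k) ≠ 0) (F : A → k) [DecidableEq A] :
    (Matrix.of fun s t : A => F (s * t⁻¹)).det
      = ∏ μ : A →* kˣ, ∑ q : A, F q * ((μ q : kˣ) : k) := by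
  classical
  let T : Matrix (A →* kˣ) A k := Matrix.of fun μ s => ((μ s : kˣ) : k)
  let T' : Matrix A (A →* kˣ) k := Matrix.of fun s μ => ((μ s⁻¹ : kˣ) : k) / Fintype.card A
  have h1 : T * T' = 1 := by
    ext μ ν
    rw [Matrix.mul_apply]
    have h2 := sum_groupK (μ * ν⁻¹)
    have h3 : ∀ s : A, T μ s * T' s ν = (((μ * ν⁻¹) s : kˣ) : k) / Fintype.card A := by
      intro s
      simp only [T, T', Matrix.of_apply, MonoidHom.mul_apply, MonoidHom.inv_apply, map_inv,
        Units.val_mul]
      ring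
    rw [Finset.sum_congr rfl fun s _ => h3 s, ← Finset.sum_div, h2, Matrix.one_apply]
    by_cases h : μ = ν
    · rw [if_pos (by subst h; exact mul_inv_cancel μ), if_pos h, div_self hc]
    · rw [if_neg fun hh => h (mul_inv_eq_one.1 hh), if_neg h, zero_div]
  have h2 : T' * T = 1 := by
    ext s t
    rw [Matrix.mul_apply]
    have h2 := sum_charsK (k := k) (s⁻¹ * t)
    have h3 : ∀ μ : A →* kˣ, T' s μ * T μ t = ((μ (s⁻¹ * t) : kˣ) : k) / Fintype.card A := by
      intro μ
      simp only [T, T', Matrix.of_apply, map_mul, Units.val_mul]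
      ring
    rw [Finset.sum_congr rfl fun s _ => h3 s, ← Finset.sum_div, h2, Matrix.one_apply]
    by_cases h : s = t
    · rw [if_pos (by rw [h, inv_mul_cancel]), if_pos h, div_self hc]
    · rw [if_neg (by rwa [inv_mul_eq_one]), if_neg h, zero_div]
  have h3 : T * (Matrix.of fun s t : A => F (s * t⁻¹))
      = Matrix.diagonal (fun μ : A →* kˣ => ∑ q : A, F q * ((μ q : kˣ) : k)) * T := by
    ext μ t
    rw [Matrix.mul_apply, Matrix.diagonal_mul, Finset.sum_mul]
    refine Fintype.sum_equiv (Equiv.mulRight t⁻¹) _ _ fun s => ?_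
    simp only [T, Matrix.of_apply, Equiv.coe_mulRight]
    have : ((μ s : kˣ) : k) = ((μ (s * t⁻¹) : kˣ) : k) * ((μ t : kˣ) : k) := by
      rw [← Units.val_mul, ← map_mul, inv_mul_cancel_right]
    rw [this]
    ring
  rw [← Matrix.det_conj_of_mul_eq_one h1 h2, h3, Matrix.mul_assoc, h1, Matrix.mul_one,
    Matrix.det_diagonal]

end

/-- the values of a linear character -/
noncomputable def kv {k : Type} [Field k] {A : Type} [Group A] (ψ : A →* kˣ) : A →* k :=
  (Units.coeHom k).comp ψ

theorem kv_apply {k : Type} [Field k] {A : Type} [Group A] (ψ : A →* kˣ) (a : A) :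
    kv ψ a = ((ψ a : kˣ) : k) := rfl

theorem kv_ne {k : Type} [Field k] {A : Type} [Group A] (ψ : A →* kˣ) (a : A) : kv ψ a ≠ 0 :=
  Units.ne_zero _

/-- the value of a group ring element at a linear character -/
noncomputable def ek {k : Type} [Field k] {A : Type} [Group A] (ψ : A →* kˣ) :
    MonoidAlgebra ℤ A →ₐ[ℤ] k := MonoidAlgebra.lift ℤ k A (kv ψ)

theorem ek_single {k : Type} [Field k] {A : Type} [Group A] (ψ : A →* kˣ) (a : A) (n : ℤ) :
    ek ψ (MonoidAlgebra.single a n) = n * (ψ a : k) := by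
  rw [ek, MonoidAlgebra.lift_single]
  simp [kv]

theorem ek_of {k : Type} [Field k] {A : Type} [Group A] (ψ : A →* kˣ) (g : A) :
    ek ψ (MonoidAlgebra.of ℤ A g) = kv ψ g := by
  rw [ek, MonoidAlgebra.lift_of]

theorem ek_sum {k : Type} [Field k] {A : Type} [Group A] [Fintype A] (ψ : A →* kˣ)
    (s : MonoidAlgebra ℤ A) : ek ψ s = ∑ a : A, (s.coeff a : k) * (ψ a : k) := by
  rw [ek, MonoidAlgebra.lift_apply, Finsupp.sum_fintype]
  · refine Finset.sum_congr rfl fun g _ => ?_
    simp [kv]
  · intro g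
    simp

section
variable {C : Type} [CommGroup C] (D : Subgroup C) [Fintype (C ⧸ D)] [DecidableEq (C ⧸ D)]

/-- the norm from `ℤ[C]` to `ℤ[D]` -/
noncomputable def nm (x : MonoidAlgebra ℤ C) : MonoidAlgebra ℤ D :=
  (ext (indM D (MonoidAlgebra.of ℤ D)) x).det

theorem nm_one : nm D 1 = 1 := by rw [nm, map_one, Matrix.det_one]

theorem nm_mul (x y : MonoidAlgebra ℤ C) : nm D (x * y) = nm D x * nm D y := by
  rw [nm, map_mul, Matrix.det_mul]
  rfl

variable {k : Type} [Field k]

theorem map_extK [Fintype C] (φ : MonoidAlgebra ℤ D →+* k) (f : D →* MonoidAlgebra ℤ D)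
    (x : MonoidAlgebra ℤ C) :
    φ.mapMatrix (ext (indM D f) x) = ext (indM D ((φ : MonoidAlgebra ℤ D →* k).comp f)) x := by
  rw [ext_sum, ext_sum, map_sum]
  refine Finset.sum_congr rfl fun g _ => ?_
  rw [map_zsmul]
  congr 1
  ext s q
  rw [RingHom.mapMatrix_apply, Matrix.map_apply, indM_apply, indM_apply]
  split_ifs
  · rfl
  · exact map_zero φ

theorem ek_nm [Fintype C] (μ : D →* kˣ) (x : MonoidAlgebra ℤ C) :
    ek μ (nm D x) = (ext (indM D (kv μ)) x).det := by
  have h1 := RingHom.map_det (ek μ : MonoidAlgebra ℤ D →+* k)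
    (ext (indM D (MonoidAlgebra.of ℤ D)) x)
  rw [map_extK] at h1
  have h2 : (((ek μ : MonoidAlgebra ℤ D →+* k) : MonoidAlgebra ℤ D →* k).comp
      (MonoidAlgebra.of ℤ D)) = kv μ := by
    ext a
    exact ek_of μ a
  rw [h2] at h1
  exact h1

theorem ext_indM_applyK [Fintype C] (f : D →* k) (x : MonoidAlgebra ℤ C) (s q : C ⧸ D) :
    ext (indM D f) x s q
      = ∑ g : C, if s = (g : C ⧸ D) * q then (x.coeff g : k) * f (cz D g q) else 0 := by
  rw [ext_sum, Matrix.sum_apply]
  refine Finset.sum_congr rfl fun g _ => ?_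
  rw [Matrix.smul_apply, indM_apply, zsmul_eq_mul, mul_ite, mul_zero]

/-- the norm as a product over the extensions of a character -/
theorem ek_nm_extend [Fintype C] [HasEnoughRootsOfUnity k (Monoid.exponent (C ⧸ D))]
    (hc : (Fintype.card (C ⧸ D) : k) ≠ 0) (lam : C →* kˣ) (x : MonoidAlgebra ℤ C) :
    ek (lam.comp D.subtype) (nm D x)
      = ∏ μ : (C ⧸ D) →* kˣ, ek (lam * μ.comp (QuotientGroup.mk' D)) x := by
  classical
  rw [ek_nm]
  let F : C ⧸ D → k := fun r => ∑ g : C, if (g : C ⧸ D) = r then (x.coeff g : k) * kv lam g else 0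
  have h1 : ext (indM D (kv (lam.comp D.subtype))) x
      = Matrix.diagonal (fun s : C ⧸ D => (kv lam s.out)⁻¹)
        * (Matrix.of fun s t : C ⧸ D => F (s * t⁻¹))
        * Matrix.diagonal (fun s : C ⧸ D => kv lam s.out) := by
    ext s q
    rw [ext_indM_applyK, Matrix.mul_diagonal, Matrix.diagonal_mul, Matrix.of_apply, Finset.mul_sum,
      Finset.sum_mul]
    refine Finset.sum_congr rfl fun g _ => ?_
    by_cases h : s = (g : C ⧸ D) * q
    · have h2 : (g : C ⧸ D) = s * q⁻¹ := by rw [h, mul_inv_cancel_right]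
      rw [if_pos h, if_pos h2]
      have h3 := congrArg (kv lam) (mul_out D g q)
      rw [← h, map_mul, map_mul] at h3
      have h4 : kv (lam.comp D.subtype) (cz D g q) = kv lam (cz D g q : C) := rfl
      rw [h4]
      have h5 := kv_ne lam s.out
      field_simp
      linear_combination (-(x.coeff g : k)) * h3
    · have h2 : (g : C ⧸ D) ≠ s * q⁻¹ := by
        intro h2
        apply h
        rw [h2, inv_mul_cancel_right]
      rw [if_neg h, if_neg h2]
      ring
  rw [h1, Matrix.det_mul, Matrix.det_mul, Matrix.det_diagonal, Matrix.det_diagonal, group_detK hc,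
    mul_comm (∏ _, _), mul_assoc, ← Finset.prod_mul_distrib]
  rw [Finset.prod_congr rfl fun s _ => inv_mul_cancel₀ (kv_ne lam s.out), Finset.prod_const_one,
    mul_one]
  refine Finset.prod_congr rfl fun μ _ => ?_
  rw [ek_sum]
  have h2 : ∀ q : C ⧸ D, F q * ((μ q : kˣ) : k)
      = ∑ g : C, if (g : C ⧸ D) = q then (x.coeff g : k) * kv lam g * ((μ (g : C ⧸ D) : kˣ) : k)
        else 0 := by
    intro q
    rw [Finset.sum_mul]
    refine Finset.sum_congr rfl fun g _ => ?_
    split_ifs with h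
    · rw [h]
    · rw [zero_mul]
  rw [Finset.sum_congr rfl fun q _ => h2 q, Finset.sum_comm]
  refine Finset.sum_congr rfl fun g _ => ?_
  rw [Finset.sum_ite_eq, if_pos (Finset.mem_univ _), MonoidHom.mul_apply, Units.val_mul, mul_assoc]
  rfl

end

end H25SI
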