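import Mathlib
import Pool.Agent.H25.SI.KA

/-!
# Products over sets of characters in characteristic `p` are distinct functions
-/

set_option autoImplicit false
set_option linter.unusedSectionVars false

namespace H25SI

open Matrix
open scoped IsMulCommutative

section
variable {p : ℕ} [hp : Fact p.Prime] {k : Type} [Field k] [CharP k p] {C : Type} [CommGroup C]
  [Fintype C]

theorem ek_frob (lam : C →* kˣ) (j : ℕ) (w : MonoidAlgebra ℤ C) :
    ek (lam ^ (p ^ j)) w = (ek lam w) ^ (p ^ j) := by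
  rw [ek_sum, ek_sum, sum_pow_char_pow (R := k) p j]
  refine Finset.sum_congr rfl fun g _ => ?_
  rw [mul_pow]
  congr 1
  have h := map_intCast (iterateFrobenius k p j) (w.coeff g)
  rw [iterateFrobenius_def] at h
  exact h.symm

theorem ek_pow_card (hC : (Nat.card C : k) ≠ 0) : ∃ R : ℕ, 0 < R ∧ ∀ (lam : C →* kˣ)
    (w : MonoidAlgebra ℤ C), (ek lam w) ^ (p ^ R) = ek lam w := by
  have hcop : Nat.Coprime p (Nat.card C) := by
    rw [Nat.Prime.coprime_iff_not_dvd hp.out]
    intro h
    exact hC ((CharP.cast_eq_zero_iff k p _).2 h)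
  have hpos : 0 < Nat.card C := Nat.card_pos
  refine ⟨(Nat.card C).totient, Nat.totient_pos.2 hpos, fun lam w => ?_⟩
  rw [← ek_frob]
  have hlam : lam ^ (p ^ (Nat.card C).totient) = lam := by
    apply MonoidHom.ext
    intro g
    rw [MonoidHom.pow_apply, ← map_pow]
    congr 1
    have h1 := Nat.ModEq.pow_totient hcop
    have h2 : p ^ (Nat.card C).totient ≡ 1 [MOD orderOf g] := h1.of_dvd (orderOf_dvd_natCard g)
    have h3 := (pow_eq_pow_iff_modEq (x := g)).2 h2
    rw [h3, pow_one]
  rw [hlam]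

theorem exists_rank (hC : (Nat.card C : k) ≠ 0) (lam : C →* kˣ) : ∃ r : ℕ, 0 < r ∧
    (∀ w, (ek lam w) ^ (p ^ r) = ek lam w) ∧
    ∀ P : Polynomial k, (∀ w, P.eval (ek lam w) = 0) → P.natDegree < p ^ r → P = 0 := by
  classical
  let E : Subring k := (ek lam : MonoidAlgebra ℤ C →+* k).range
  obtain ⟨R, hR, hRw⟩ := ek_pow_card (p := p) hC
  have hfin : Finite E := by
    have hne : (Polynomial.X ^ (p ^ R) - Polynomial.X : Polynomial k) ≠ 0 :=
      FiniteField.X_pow_card_sub_X_ne_zero k (Nat.one_lt_pow hR.ne' hp.out.one_lt)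
    refine Set.Finite.subset (Polynomial.X ^ (p ^ R) - Polynomial.X : Polynomial k).roots.toFinset.finite_toSet ?_
    rintro _ ⟨w, rfl⟩
    rw [Finset.mem_coe, Multiset.mem_toFinset, Polynomial.mem_roots hne, Polynomial.IsRoot.def,
      Polynomial.eval_sub, Polynomial.eval_pow, Polynomial.eval_X]
    have := hRw lam w
    exact sub_eq_zero.2 this
  let _ : Fintype E := Fintype.ofFinite E
  let _ : Field E := Fintype.fieldOfDomain E
  have hchar : CharP E p := E.subtype.charP Subtype.val_injective p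
  obtain ⟨r, -, hr⟩ := FiniteField.card E p
  refine ⟨r, r.pos, fun w => ?_, fun P hP hdeg => ?_⟩
  · have h1 := FiniteField.pow_card (⟨ek lam w, w, rfl⟩ : E)
    rw [hr] at h1
    exact congrArg Subtype.val h1
  · refine Polynomial.eq_zero_of_natDegree_lt_card_of_eval_eq_zero P
      (f := (Subtype.val : E → k)) Subtype.val_injective ?_ (by rw [hr]; exact hdeg)
    rintro ⟨_, w, rfl⟩
    exact hP w

theorem orbit_inj {lam : C →* kˣ} {r : ℕ}
    (hr : ∀ P : Polynomial k, (∀ w, P.eval (ek lam w) = 0) → P.natDegree < p ^ r → P = 0)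
    {i j : ℕ} (hi : i < r) (hj : j < r) (h : lam ^ (p ^ i) = lam ^ (p ^ j)) : i = j := by
  wlog hij : i < j generalizing i j
  · rcases lt_trichotomy i j with h1 | h1 | h1
    · exact absurd h1 hij
    · exact h1
    · exact (this hj hi h.symm h1).symm
  exfalso
  have hd : 1 < p ^ (j - i) := Nat.one_lt_pow (by omega) hp.out.one_lt
  have h2 := hr (Polynomial.X ^ (p ^ (j - i)) - Polynomial.X) (fun w => by
    rw [Polynomial.eval_sub, Polynomial.eval_pow, Polynomial.eval_X, sub_eq_zero]
    have h3 : (ek lam w) ^ (p ^ i) = (ek lam w) ^ (p ^ j) := by rw [← ek_frob, h, ek_frob]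
    have h4 : (ek lam w) ^ (p ^ j) = ((ek lam w) ^ (p ^ (j - i))) ^ (p ^ i) := by
      rw [← pow_mul, ← pow_add]
      congr 2
      omega
    rw [h4] at h3
    have h5 := iterateFrobenius_inj k p i
    exact (h5 (by rw [iterateFrobenius_def, iterateFrobenius_def]; exact h3)).symm) (by
    rw [FiniteField.X_pow_card_sub_X_natDegree_eq k hd]
    exact Nat.pow_lt_pow_right hp.out.one_lt (by omega))
  exact FiniteField.X_pow_card_sub_X_ne_zero k hd h2

theorem exists_z (hC : (Nat.card C : k) ≠ 0) [HasEnoughRootsOfUnity k (Monoid.exponent C)]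
    {lam : C →* kˣ} {r : ℕ} (hr0 : ∀ w, (ek lam w) ^ (p ^ r) = ek lam w)
    (hr : ∀ P : Polynomial k, (∀ w, P.eval (ek lam w) = 0) → P.natDegree < p ^ r → P = 0)
    (w : MonoidAlgebra ℤ C) : ∃ z : MonoidAlgebra ℤ C,
      (∀ j < r, ek (lam ^ (p ^ j)) z = (ek lam w) ^ (p ^ j)) ∧
      ∀ lam' : C →* kˣ, (∀ j < r, lam' ≠ lam ^ (p ^ j)) → ek lam' z = 1 := by
  classical
  have hcop : IsCoprime (Nat.card C : ℤ) (p : ℤ) := by
    rw [Nat.isCoprime_iff_coprime, Nat.coprime_comm, Nat.Prime.coprime_iff_not_dvd hp.out]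
    intro h
    exact hC ((CharP.cast_eq_zero_iff k p _).2 h)
  obtain ⟨M, N, hMN⟩ := hcop
  have hM : (M : k) * (Nat.card C : k) = 1 := by
    have := congrArg (Int.cast : ℤ → k) hMN
    push_cast at this
    rw [CharP.cast_eq_zero k p, mul_zero, add_zero] at this
    exact this
  let c : k := ek lam w
  let y : C → MonoidAlgebra ℤ C := fun g => (w - 1) * MonoidAlgebra.of ℤ C g⁻¹
  have hy : ∀ g, ek lam (y g) = (c - 1) * kv lam g⁻¹ := fun g => by
    simp only [y, c]
    rw [map_mul, map_sub, map_one, ek_of]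
  let s : C → k := fun g => ∑ j ∈ Finset.range r, (ek lam (y g)) ^ (p ^ j)
  have hs : ∀ g, ∃ n : ℤ, (n : k) = s g := by
    intro g
    rw [← mem_bot_iff_intCast p k, Subfield.mem_bot_iff_pow_eq_self k p]
    have h1 : s g ^ p = ∑ j ∈ Finset.range r, (ek lam (y g)) ^ (p ^ (j + 1)) := by
      have h2 := sum_pow_char_pow (R := k) p 1 (Finset.range r) fun j => (ek lam (y g)) ^ (p ^ j)
      rw [pow_one] at h2
      simp only [s]
      rw [h2]
      refine Finset.sum_congr rfl fun j _ => ?_
      rw [← pow_mul, pow_succ]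
    rw [h1]
    have h3 := Finset.sum_range_succ (fun j => (ek lam (y g)) ^ (p ^ j)) r
    have h4 := Finset.sum_range_succ' (fun j => (ek lam (y g)) ^ (p ^ j)) r
    rw [h3, hr0, pow_zero, pow_one] at h4
    simp only [s]
    exact (add_right_cancel h4).symm
  choose n hn using hs
  let z : MonoidAlgebra ℤ C := 1 + ∑ g : C, MonoidAlgebra.single g (M * n g)
  have hz : ∀ lam' : C →* kˣ, ek lam' z = 1 + ∑ j ∈ Finset.range r,
      (c - 1) ^ (p ^ j) * (if lam' = lam ^ (p ^ j) then 1 else 0) := by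
    intro lam'
    simp only [z]
    rw [map_add, map_one, map_sum]
    congr 1
    have h1 : ∀ g : C, ek lam' (MonoidAlgebra.single g (M * n g))
        = ∑ j ∈ Finset.range r, (M : k) * (c - 1) ^ (p ^ j) *
            (((lam' * (lam ^ (p ^ j))⁻¹) g : kˣ) : k) := by
      intro g
      rw [ek_single, Int.cast_mul, hn, mul_assoc, Finset.sum_mul, Finset.mul_sum]
      refine Finset.sum_congr rfl fun j _ => ?_
      rw [hy, mul_pow, MonoidHom.mul_apply, MonoidHom.inv_apply, MonoidHom.pow_apply, Units.val_mul,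
        kv_apply, map_inv, ← inv_pow, Units.val_pow_eq_pow_val]
      ring
    rw [Finset.sum_congr rfl fun g _ => h1 g, Finset.sum_comm]
    refine Finset.sum_congr rfl fun j _ => ?_
    rw [← Finset.mul_sum, sum_groupK]
    by_cases h : lam' = lam ^ (p ^ j)
    · have h2 : lam' * (lam ^ (p ^ j))⁻¹ = 1 := by
        rw [h]
        apply MonoidHom.ext
        intro g
        rw [MonoidHom.mul_apply, MonoidHom.inv_apply, mul_inv_cancel]
        rfl
      rw [if_pos h, if_pos h2, ← Nat.card_eq_fintype_card]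
      linear_combination (c - 1) ^ (p ^ j) * hM
    · have h2 : ¬ lam' * (lam ^ (p ^ j))⁻¹ = 1 := by
        intro hh
        apply h
        apply MonoidHom.ext
        intro g
        have h3 := DFunLike.congr_fun hh g
        rw [MonoidHom.mul_apply, MonoidHom.inv_apply] at h3
        exact mul_inv_eq_one.1 h3
      rw [if_neg h, if_neg h2, mul_zero, mul_zero]
  refine ⟨z, fun j hj => ?_, fun lam' hlam' => ?_⟩
  · rw [hz, Finset.sum_eq_single j]
    · rw [if_pos rfl, mul_one]
      have h1 := map_sub (iterateFrobenius k p j) c 1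
      rw [iterateFrobenius_def, iterateFrobenius_def, iterateFrobenius_def, one_pow] at h1
      rw [h1]
      ring
    · intro i hi hij
      rw [if_neg, mul_zero]
      intro h
      exact hij (orbit_inj hr (Finset.mem_range.1 hi) hj h.symm)
    · intro h
      exact absurd (Finset.mem_range.2 hj) h
  · rw [hz, Finset.sum_eq_zero, add_zero]
    intro j hj
    rw [if_neg (hlam' j (Finset.mem_range.1 hj)), mul_zero]

end

/-- products over sets of characters determine the set -/
theorem prod_mem (p : ℕ) [hp : Fact p.Prime] {k : Type} [Field k] [CharP k p] {C : Type}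
    [CommGroup C] [Fintype C] (hC : (Nat.card C : k) ≠ 0) [HasEnoughRootsOfUnity k (Monoid.exponent C)]
    (S T : Finset (C →* kˣ))
    (h : ∀ z : MonoidAlgebra ℤ C, ∏ lam ∈ S, ek lam z = ∏ lam ∈ T, ek lam z) : S ⊆ T := by
  classical
  intro lam hlam
  obtain ⟨r, hr1, hr0, hr⟩ := exists_rank (p := p) hC lam
  let I : Finset (C →* kˣ) → Finset ℕ := fun S => (Finset.range r).filter fun j => lam ^ (p ^ j) ∈ S
  have key : ∀ (S : Finset (C →* kˣ)) (w z : MonoidAlgebra ℤ C),
      (∀ j < r, ek (lam ^ (p ^ j)) z = (ek lam w) ^ (p ^ j)) →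
      (∀ lam' : C →* kˣ, (∀ j < r, lam' ≠ lam ^ (p ^ j)) → ek lam' z = 1) →
      ∏ lam ∈ S, ek lam z = (ek lam w) ^ (∑ j ∈ I S, p ^ j) := by
    intro S w z h1 h2
    rw [← Finset.prod_pow_eq_pow_sum]
    have h3 : ∏ j ∈ I S, (ek lam w) ^ (p ^ j)
        = ∏ lam' ∈ (I S).image (fun j => lam ^ (p ^ j)), ek lam' z := by
      rw [Finset.prod_image]
      · refine Finset.prod_congr rfl fun j hj => ?_
        rw [h1 j (Finset.mem_range.1 (Finset.mem_filter.1 hj).1)]
      · intro i hi j hj hij
        exact orbit_inj hr (Finset.mem_range.1 (Finset.mem_filter.1 hi).1)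
          (Finset.mem_range.1 (Finset.mem_filter.1 hj).1) hij
    rw [h3]
    symm
    apply Finset.prod_subset
    · intro x hx
      obtain ⟨j, hj, rfl⟩ := Finset.mem_image.1 hx
      exact (Finset.mem_filter.1 hj).2
    · intro x hx hx'
      apply h2
      intro j hj he
      apply hx'
      rw [Finset.mem_image]
      refine ⟨j, Finset.mem_filter.2 ⟨Finset.mem_range.2 hj, ?_⟩, he.symm⟩
      rw [← he]
      exact hx
  have hlt : ∀ S : Finset (C →* kˣ), ∑ j ∈ I S, p ^ j < p ^ r := by
    intro S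
    calc ∑ j ∈ I S, p ^ j ≤ ∑ j ∈ Finset.range r, p ^ j :=
          Finset.sum_le_sum_of_subset (Finset.filter_subset _ _)
      _ < p ^ r := Nat.geomSum_lt hp.out.two_le fun j hj => Finset.mem_range.1 hj
  have hP : (Polynomial.X ^ (∑ j ∈ I S, p ^ j) - Polynomial.X ^ (∑ j ∈ I T, p ^ j) :
      Polynomial k) = 0 := by
    apply hr
    · intro w
      obtain ⟨z, hz1, hz2⟩ := exists_z hC hr0 hr w
      rw [Polynomial.eval_sub, Polynomial.eval_pow, Polynomial.eval_pow, Polynomial.eval_X,
        ← key S w z hz1 hz2, ← key T w z hz1 hz2, h z, sub_self]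
    · refine lt_of_le_of_lt (Polynomial.natDegree_sub_le _ _) ?_
      rw [Polynomial.natDegree_X_pow, Polynomial.natDegree_X_pow]
      exact max_lt (hlt S) (hlt T)
  have hm : ∑ j ∈ I S, p ^ j = ∑ j ∈ I T, p ^ j := by
    have h1 := congrArg Polynomial.natDegree (sub_eq_zero.1 hP)
    rwa [Polynomial.natDegree_X_pow, Polynomial.natDegree_X_pow] at h1
  have hI : I S = I T := Finset.geomSum_injective hp.out.two_le hm
  have hp0 : lam ^ (p ^ 0) = lam := by
    apply MonoidHom.ext
    intro g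
    rw [MonoidHom.pow_apply, pow_zero, pow_one]
  have h0 : (0 : ℕ) ∈ I S := by
    refine Finset.mem_filter.2 ⟨Finset.mem_range.2 hr1, ?_⟩
    rw [hp0]
    exact hlam
  rw [hI] at h0
  have h1 := (Finset.mem_filter.1 h0).2
  rwa [hp0] at h1

end H25SI
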