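import Mathlib
import Pool.Agent.H25.SI.KB

/-!
# The ring generated by the norms `ℤ[C] → ∏ ℤ[D]`
-/

set_option autoImplicit false
set_option linter.unusedSectionVars false

namespace H25SI

open Matrix
open scoped IsMulCommutative

section
variable {C : Type} [CommGroup C] [Fintype C]

/-- the vector of the norms from `ℤ[C]` to `ℤ[D]`, `D` a subgroup -/
noncomputable def nmv (x : MonoidAlgebra ℤ C) (D : Subgroup C) : MonoidAlgebra ℤ D :=
  letI : Fintype (C ⧸ D) := Fintype.ofFinite _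
  letI : DecidableEq (C ⧸ D) := Classical.decEq _
  nm D x

theorem nmv_eq (x : MonoidAlgebra ℤ C) (D : Subgroup C) [i1 : Fintype (C ⧸ D)]
    [i2 : DecidableEq (C ⧸ D)] : nmv x D = nm D x := by
  have h1 : i1 = Fintype.ofFinite _ := Subsingleton.elim _ _
  have h2 : i2 = Classical.decEq _ := Subsingleton.elim _ _
  subst h1 h2
  rfl

section
variable {k : Type} [Field k] [hk : HasEnoughRootsOfUnity k (Monoid.exponent C)]

theorem enough_sub (D : Subgroup C) : HasEnoughRootsOfUnity k (Monoid.exponent D) :=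
  hk.of_dvd k (Monoid.exponent_submonoid_dvd D.toSubmonoid)

theorem enough_quot (D : Subgroup C) : HasEnoughRootsOfUnity k (Monoid.exponent (C ⧸ D)) :=
  hk.of_dvd k (Group.exponent_quotient_dvd D)

theorem card_quot_ne (hC : (Nat.card C : k) ≠ 0) (D : Subgroup C) : (Nat.card (C ⧸ D) : k) ≠ 0 := by
  intro h
  apply hC
  obtain ⟨m, hm⟩ := D.index_dvd_card
  have h2 : (D.index : k) = 0 := h
  rw [hm, Nat.cast_mul, h2, zero_mul]

theorem card_sub_ne (hC : (Nat.card C : k) ≠ 0) (D : Subgroup C) : (Nat.card D : k) ≠ 0 := by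
  intro h
  apply hC
  obtain ⟨m, hm⟩ := D.card_subgroup_dvd_card
  rw [hm, Nat.cast_mul, h, zero_mul]

open Classical in
/-- the characters that extend a given one -/
noncomputable def exts (D : Subgroup C) (μ : D →* kˣ) : Finset (C →* kˣ) :=
  Finset.univ.filter fun lam => lam.comp D.subtype = μ

theorem mem_exts (D : Subgroup C) (μ : D →* kˣ) (lam : C →* kˣ) :
    lam ∈ exts D μ ↔ lam.comp D.subtype = μ := by
  classical
  rw [exts, Finset.mem_filter]
  exact ⟨fun h => h.2, fun h => ⟨Finset.mem_univ _, h⟩⟩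

theorem exists_exts (D : Subgroup C) (μ : D →* kˣ) : ∃ lam, lam ∈ exts D μ := by
  obtain ⟨lam, hlam⟩ := MonoidHom.domRestrict_surjective (M := k) (G := C) D μ
  refine ⟨lam, (mem_exts D μ lam).2 ?_⟩
  rw [← hlam]
  rfl

theorem ek_nmv (hC : (Nat.card C : k) ≠ 0) (D : Subgroup C) (μ : D →* kˣ)
    (x : MonoidAlgebra ℤ C) : ek μ (nmv x D) = ∏ lam ∈ exts D μ, ek lam x := by
  classical
  obtain ⟨lam, hlam⟩ := exists_exts D μ
  rw [mem_exts] at hlam
  have i1 : Fintype (C ⧸ D) := Fintype.ofFinite _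
  have i2 := enough_quot (k := k) D
  have h1 := ek_nm_extend D (k := k) (by
    rw [← Nat.card_eq_fintype_card]
    exact card_quot_ne hC D) lam x
  rw [hlam] at h1
  rw [nmv_eq, h1]
  refine Finset.prod_bij (fun μ' _ => lam * μ'.comp (QuotientGroup.mk' D)) ?_ ?_ ?_ ?_
  · intro μ' _
    rw [mem_exts]
    apply MonoidHom.ext
    intro d
    rw [← hlam]
    have h2 : (QuotientGroup.mk' D) (d : C) = 1 := (QuotientGroup.eq_one_iff _).2 d.2
    rw [MonoidHom.comp_apply, MonoidHom.mul_apply, MonoidHom.comp_apply, Subgroup.subtype_apply, h2,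
      map_one, mul_one]
    rfl
  · intro μ' _ μ'' _ h
    apply MonoidHom.ext
    intro q
    induction q using QuotientGroup.induction_on with | _ q
    have h2 := DFunLike.congr_fun h q
    rw [MonoidHom.mul_apply, MonoidHom.mul_apply] at h2
    exact mul_left_cancel h2
  · intro lam' hlam'
    rw [mem_exts] at hlam'
    have h2 : ∀ d ∈ D, (lam' * lam⁻¹) d = 1 := by
      intro d hd
      have h3 : lam' d = lam d := by
        have h4 := DFunLike.congr_fun hlam' ⟨d, hd⟩
        have h5 := DFunLike.congr_fun hlam ⟨d, hd⟩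
        exact h4.trans h5.symm
      rw [MonoidHom.mul_apply, MonoidHom.inv_apply, h3, mul_inv_cancel]
    have h2' : D ≤ (lam' * lam⁻¹).ker := h2
    refine ⟨QuotientGroup.lift D (lam' * lam⁻¹) h2', Finset.mem_univ _, ?_⟩
    apply MonoidHom.ext
    intro c
    rw [MonoidHom.mul_apply, MonoidHom.comp_apply, QuotientGroup.mk'_apply, QuotientGroup.lift_mk,
      MonoidHom.mul_apply, MonoidHom.inv_apply, mul_comm (lam' c), mul_inv_cancel_left]
  · intro μ' _
    rfl

theorem le_of_exts {D D' : Subgroup C} {μ : D →* kˣ} {μ' : D' →* kˣ}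
    (h : exts D μ = exts D' μ') : D ≤ D' := by
  classical
  intro c hc
  have i2 := enough_quot (k := k) D'
  by_contra hc'
  have h1 : (c : C ⧸ D') ≠ 1 := fun h => hc' ((QuotientGroup.eq_one_iff _).1 h)
  obtain ⟨φ, hφ⟩ := CommGroup.exists_apply_ne_one_of_hasEnoughRootsOfUnity (C ⧸ D') k h1
  obtain ⟨lam, hlam⟩ := exists_exts D' μ'
  have h2 : lam * φ.comp (QuotientGroup.mk' D') ∈ exts D' μ' := by
    rw [mem_exts] at hlam ⊢
    apply MonoidHom.ext
    intro d
    rw [← hlam]
    have h2 : (QuotientGroup.mk' D') (d : C) = 1 := (QuotientGroup.eq_one_iff _).2 d.2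
    rw [MonoidHom.comp_apply, MonoidHom.mul_apply, MonoidHom.comp_apply, Subgroup.subtype_apply, h2,
      map_one, mul_one]
    rfl
  rw [← h, mem_exts] at hlam h2
  have h3 := DFunLike.congr_fun hlam ⟨c, hc⟩
  have h4 := DFunLike.congr_fun h2 ⟨c, hc⟩
  have h5 : lam c * φ (c : C ⧸ D') = lam c := by
    have e1 : (lam * φ.comp (QuotientGroup.mk' D')) c = μ ⟨c, hc⟩ := h4
    have e2 : lam c = μ ⟨c, hc⟩ := h3
    have e3 : lam c * φ (c : C ⧸ D') = μ ⟨c, hc⟩ := e1
    rw [e3, e2]
  exact hφ (mul_eq_left.1 h5)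

theorem sigma_eq {D D' : Subgroup C} {μ : D →* kˣ} {μ' : D' →* kˣ}
    (h : exts D μ = exts D' μ') :
    (⟨D, μ⟩ : Σ D : Subgroup C, (D →* kˣ)) = ⟨D', μ'⟩ := by
  have h1 : D = D' := le_antisymm (le_of_exts h) (le_of_exts h.symm)
  subst h1
  obtain ⟨lam, hlam⟩ := exists_exts D μ
  have h2 : lam ∈ exts D μ' := by rw [← h]; exact hlam
  rw [mem_exts] at hlam h2
  rw [← hlam, ← h2]

/-- the multiplicative functions on `ℤ[C]` given by the norms -/
noncomputable def phi (x : Σ D : Subgroup C, (D →* kˣ)) : MonoidAlgebra ℤ C →* k where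
  toFun z := ek x.2 (nmv z x.1)
  map_one' := by
    have i1 : Fintype (C ⧸ x.1) := Fintype.ofFinite _
    have i2 : DecidableEq (C ⧸ x.1) := Classical.decEq _
    rw [nmv_eq, nm_one, map_one]
  map_mul' y z := by
    have i1 : Fintype (C ⧸ x.1) := Fintype.ofFinite _
    have i2 : DecidableEq (C ⧸ x.1) := Classical.decEq _
    rw [nmv_eq, nmv_eq, nmv_eq, nm_mul, map_mul]

end

theorem phi_injective (p : ℕ) [Fact p.Prime] {k : Type} [Field k] [CharP k p]
    [HasEnoughRootsOfUnity k (Monoid.exponent C)] (hC : (Nat.card C : k) ≠ 0) :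
    Function.Injective (phi (C := C) (k := k)) := by
  intro x y h
  obtain ⟨D, μ⟩ := x
  obtain ⟨D', μ'⟩ := y
  apply sigma_eq
  have key : ∀ z : MonoidAlgebra ℤ C, ∏ lam ∈ exts D μ, ek lam z = ∏ lam ∈ exts D' μ', ek lam z := by
    intro z
    rw [← ek_nmv hC, ← ek_nmv hC]
    exact DFunLike.congr_fun h z
  exact Finset.Subset.antisymm (prod_mem p hC _ _ key) (prod_mem p hC _ _ fun z => (key z).symm)

end

end H25SI
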