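import Mathlib
import Pool.Agent.H25.SI.KC

/-!
# The ring generated by the norms has index prime to `p` for all `p` not dividing the order
-/

set_option autoImplicit false
set_option linter.unusedSectionVars false

namespace H25SI

open Matrix
open scoped IsMulCommutative

section
variable {C : Type} [CommGroup C] [Fintype C]

theorem single_sum (D : Subgroup C) [Fintype D] (y : MonoidAlgebra ℤ D) :
    y = ∑ a : D, y.coeff a • MonoidAlgebra.single a (1 : ℤ) := by
  classical
  ext a
  rw [MonoidAlgebra.coeff_sum, Finsupp.finsetSum_apply, Finset.sum_eq_single a]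
  · simp
  · intro b _ hb
    simp [hb]
  · intro h
    exact absurd (Finset.mem_univ _) h

theorem functional (p : ℕ) [Fact p.Prime] (hp : ¬ p ∣ Nat.card C)
    (l : (∀ D : Subgroup C, MonoidAlgebra ℤ D) →+ ZMod p)
    (hl : ∀ z : MonoidAlgebra ℤ C, l (nmv z) = 0) : l = 0 := by
  classical
  let k := AlgebraicClosure (ZMod p)
  have : CharP k p := inferInstance
  have hC : (Nat.card C : k) ≠ 0 := fun h => hp ((CharP.cast_eq_zero_iff k p _).1 h)
  have i0 : HasEnoughRootsOfUnity k (Monoid.exponent C) := hasEnough hC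
  have i1 : ∀ D : Subgroup C, HasEnoughRootsOfUnity k (Monoid.exponent D) := fun D => enough_sub D
  let i2 : ∀ D : Subgroup C, Fintype D := fun D => Fintype.ofFinite D
  let i3 : Fintype (Subgroup C) := Fintype.ofFinite _
  let io : ZMod p →+* k := algebraMap (ZMod p) k
  let b : ∀ D : Subgroup C, D → (∀ D : Subgroup C, MonoidAlgebra ℤ D) := fun D a =>
    Pi.single D (MonoidAlgebra.single a 1)
  let c : (Σ D : Subgroup C, (D →* kˣ)) → k := fun x =>
    (Nat.card x.1 : k)⁻¹ * ∑ a : x.1, io (l (b x.1 a)) * ((x.2 a⁻¹ : kˣ) : k)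
  have h1 : ∀ y : (∀ D : Subgroup C, MonoidAlgebra ℤ D),
      l y = ∑ D : Subgroup C, ∑ a : D, (y D).coeff a • l (b D a) := by
    intro y
    conv_lhs => rw [← Finset.univ_sum_single y]
    rw [map_sum]
    refine Finset.sum_congr rfl fun D _ => ?_
    conv_lhs => rw [single_sum D (y D)]
    have h2 := map_sum (l.comp (AddMonoidHom.single (fun D : Subgroup C => MonoidAlgebra ℤ D) D))
      (fun a : D => (y D).coeff a • MonoidAlgebra.single a (1 : ℤ)) Finset.univ
    refine h2.trans ?_
    refine Finset.sum_congr rfl fun a _ => ?_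
    rw [map_zsmul]
    rfl
  have h2 : ∀ y : (∀ D : Subgroup C, MonoidAlgebra ℤ D),
      io (l y) = ∑ x : (Σ D : Subgroup C, (D →* kˣ)), c x * ek x.2 (y x.1) := by
    intro y
    rw [h1, map_sum, Fintype.sum_sigma]
    refine Finset.sum_congr rfl fun D _ => ?_
    rw [map_sum]
    have hD := card_sub_ne (k := k) hC D
    have h3 : ∀ μ : D →* kˣ, c ⟨D, μ⟩ * ek μ (y D)
        = ∑ a : D, ∑ e : D, (Nat.card D : k)⁻¹ * io (l (b D a)) * ((y D).coeff e : k)
            * ((μ (a⁻¹ * e) : kˣ) : k) := by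
      intro μ
      simp only [c]
      rw [ek_sum, mul_assoc, Finset.sum_mul_sum, Finset.mul_sum]
      refine Finset.sum_congr rfl fun a _ => ?_
      rw [Finset.mul_sum]
      refine Finset.sum_congr rfl fun e _ => ?_
      rw [map_mul, Units.val_mul]
      ring
    rw [Finset.sum_congr rfl fun μ _ => h3 μ, Finset.sum_comm]
    refine Finset.sum_congr rfl fun a _ => ?_
    rw [Finset.sum_comm]
    have h4 : ∀ e : D, ∑ μ : D →* kˣ, (Nat.card D : k)⁻¹ * io (l (b D a)) * ((y D).coeff e : k)
            * ((μ (a⁻¹ * e) : kˣ) : k)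
        = if e = a then io (l (b D a)) * ((y D).coeff e : k) else 0 := by
      intro e
      rw [← Finset.mul_sum, sum_charsK]
      by_cases h : e = a
      · rw [if_pos h, if_pos (by rw [h, inv_mul_cancel]), ← Nat.card_eq_fintype_card]
        have h5 : (Nat.card D : k)⁻¹ * io (l (b D a)) * ((y D).coeff e : k) * (Nat.card D : k)
            = ((Nat.card D : k)⁻¹ * (Nat.card D : k)) * (io (l (b D a)) * ((y D).coeff e : k)) := by
          ring
        rw [h5, inv_mul_cancel₀ hD, one_mul]
      · rw [if_neg h, if_neg (by rw [inv_mul_eq_one]; exact fun h' => h h'.symm), mul_zero]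
    rw [Finset.sum_congr rfl fun e _ => h4 e, Finset.sum_ite_eq' , if_pos (Finset.mem_univ _),
      map_zsmul, zsmul_eq_mul, mul_comm]
  have hli := (linearIndependent_monoidHom (MonoidAlgebra ℤ C) k).comp phi
    (phi_injective (C := C) p hC)
  have hc : ∀ x, c x = 0 := by
    refine Fintype.linearIndependent_iff.1 hli c ?_
    funext z
    rw [Finset.sum_apply]
    have h3 := h2 (nmv z)
    rw [hl, map_zero] at h3
    rw [Pi.zero_apply, h3]
    exact Finset.sum_congr rfl fun x _ => rfl
  apply AddMonoidHom.ext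
  intro y
  have h3 : io (l y) = 0 := by
    rw [h2]
    exact Finset.sum_eq_zero fun x _ => by rw [hc, zero_mul]
  exact (map_eq_zero io).1 h3

/-- the ring generated by the norm vectors -/
noncomputable def normRing (C : Type) [CommGroup C] [Fintype C] :
    Subring (∀ D : Subgroup C, MonoidAlgebra ℤ D) := Subring.closure (Set.range nmv)

theorem finite_ring : Module.Finite ℤ (∀ D : Subgroup C, MonoidAlgebra ℤ D) := by
  have : ∀ D : Subgroup C, Module.Finite ℤ (MonoidAlgebra ℤ D) := fun D => inferInstance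
  infer_instance

end

theorem exists_functional_aux (p : ℕ) [Fact p.Prime] {Q : Type} [AddCommGroup Q] [Module (ZMod p) Q]
    (x : Q) (hx : x ≠ 0) : ∃ f : Q →+ ZMod p, f x ≠ 0 := by
  obtain ⟨f, hf⟩ := Module.Projective.exists_dual_ne_zero (ZMod p) hx
  exact ⟨f.toAddMonoidHom, hf⟩

theorem exists_functional (p : ℕ) [Fact p.Prime] {Q : Type} [AddCommGroup Q]
    (h : ∀ q : Q, p • q = 0) (x : Q) (hx : x ≠ 0) : ∃ f : Q →+ ZMod p, f x ≠ 0 :=
  @exists_functional_aux p _ Q _ (AddCommGroup.zmodModule h) x hx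

theorem prime_to (p : ℕ) [hp : Fact p.Prime] {M : Type} [AddCommGroup M] [Module.Finite ℤ M]
    (N : Submodule ℤ M) (h : ∀ l : M →+ ZMod p, (∀ x ∈ N, l x = 0) → l = 0) :
    ∃ m : ℤ, ¬ (p : ℤ) ∣ m ∧ ∀ y : M, m • y ∈ N := by
  classical
  let N' : Submodule ℤ M := N ⊔ (Ideal.span {(p : ℤ)}) • (⊤ : Submodule ℤ M)
  have hN' : N' = ⊤ := by
    rw [eq_top_iff]
    intro y _
    by_contra hy
    have hpz : ∀ q : M ⧸ N', p • q = 0 := by
      intro q
      obtain ⟨x, rfl⟩ := Submodule.mkQ_surjective N' q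
      rw [← map_nsmul, Submodule.mkQ_apply, Submodule.Quotient.mk_eq_zero]
      refine Submodule.mem_sup_right ?_
      rw [← Nat.cast_smul_eq_nsmul ℤ]
      exact Submodule.smul_mem_smul (Ideal.mem_span_singleton_self _) trivial
    have h1 : N'.mkQ y ≠ 0 := by
      rw [Submodule.mkQ_apply, Ne, Submodule.Quotient.mk_eq_zero]
      exact hy
    obtain ⟨f, hf⟩ := exists_functional p hpz (N'.mkQ y) h1
    have h2 := h (f.comp N'.mkQ.toAddMonoidHom) (fun z hz => by
      have h3 : N'.mkQ z = 0 := by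
        rw [Submodule.mkQ_apply, Submodule.Quotient.mk_eq_zero]
        exact Submodule.mem_sup_left hz
      change f (N'.mkQ z) = 0
      rw [h3, map_zero])
    exact hf (DFunLike.congr_fun h2 y)
  have hfin' : Module.Finite ℤ (M ⧸ N) := inferInstance
  obtain ⟨m, hm1, hm2⟩ := Submodule.exists_sub_one_mem_and_smul_eq_zero_of_fg_of_le_smul
    (Ideal.span {(p : ℤ)}) (⊤ : Submodule ℤ (M ⧸ N)) hfin'.fg_top (by
      intro q _
      obtain ⟨y, rfl⟩ := Submodule.mkQ_surjective N q
      have hy : y ∈ N' := by rw [hN']; trivial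
      obtain ⟨n, hn, t, ht, rfl⟩ := Submodule.mem_sup.1 hy
      have h1 : N.mkQ n = 0 := by
        rw [Submodule.mkQ_apply, Submodule.Quotient.mk_eq_zero]
        exact hn
      rw [map_add, h1, zero_add]
      have h2 := Submodule.mem_map_of_mem (f := N.mkQ) ht
      rw [Submodule.map_smul''] at h2
      exact Submodule.smul_mono le_rfl le_top h2)
  refine ⟨m, ?_, fun y => ?_⟩
  · intro h
    rw [Ideal.mem_span_singleton] at hm1
    have h1 : (p : ℤ) ∣ 1 := by
      have := dvd_sub h hm1
      rwa [sub_sub_cancel] at this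
    have h2 := Int.natAbs_dvd_natAbs.2 h1
    rw [Int.natAbs_natCast, Int.natAbs_one, Nat.dvd_one] at h2
    exact hp.out.one_lt.ne' h2
  · have h1 := hm2 (N.mkQ y) trivial
    rw [← map_smul, Submodule.mkQ_apply, Submodule.Quotient.mk_eq_zero] at h1
    exact h1

theorem norm_ring {C : Type} [CommGroup C] [Fintype C] (p : ℕ) [hp : Fact p.Prime]
    (hpC : ¬ p ∣ Nat.card C) :
    ∃ m : ℤ, ¬ (p : ℤ) ∣ m ∧ ∀ y : (∀ D : Subgroup C, MonoidAlgebra ℤ D), m • y ∈ normRing C := by
  have := finite_ring (C := C)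
  exact prime_to p (AddSubgroup.toIntSubmodule (normRing C).toAddSubgroup) fun l hl =>
    functional p hpC l fun z => hl _ (Subring.subset_closure ⟨z, rfl⟩)

end H25SI
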