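import Mathlib
import Pool.Agent.H25.SI.Gen
import Pool.Agent.H25.SI.KD

/-!
# Irreducible representations of split extensions of abelian groups by abelian groups
-/

set_option autoImplicit false
set_option linter.unusedSectionVars false

namespace H25SI

open Matrix
open scoped IsMulCommutative

section
variable {D : Type} [CommGroup D] [Fintype D] {n : Type} [Fintype n] [DecidableEq n]

theorem pr_eig (σ : D →* Matrix n n ℂ) (μ : D →* ℂˣ) (w : n → ℂ) (b : D) :
    (σ b).mulVec (∑ d : D, cv μ d⁻¹ • (σ d).mulVec w)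
      = cv μ b • ∑ d : D, cv μ d⁻¹ • (σ d).mulVec w := by
  rw [Matrix.mulVec_sum, Finset.smul_sum]
  refine Fintype.sum_equiv (Equiv.mulLeft b) _ _ fun a => ?_
  simp only [Equiv.coe_mulLeft]
  rw [Matrix.mulVec_smul, Matrix.mulVec_mulVec, ← map_mul, smul_smul, ← map_mul]
  congr 2
  rw [_root_.mul_inv_rev, mul_comm a⁻¹ b⁻¹, mul_inv_cancel_left]

theorem pr_sum (σ : D →* Matrix n n ℂ) (w : n → ℂ) :
    ∑ μ : D →* ℂˣ, ∑ d : D, cv μ d⁻¹ • (σ d).mulVec w = (Fintype.card D : ℂ) • w := by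
  classical
  rw [Finset.sum_comm]
  have h1 : ∀ a : D, ∑ ψ : D →* ℂˣ, cv ψ a⁻¹ • (σ a).mulVec w
      = (if a = 1 then (Fintype.card D : ℂ) else 0) • (σ a).mulVec w := by
    intro a
    rw [← Finset.sum_smul]
    congr 1
    have := sum_chars a⁻¹
    by_cases ha : a = 1
    · rw [if_pos ha]
      rw [if_pos (by rw [ha, inv_one])] at this
      exact this
    · rw [if_neg ha]
      rw [if_neg (by rwa [inv_eq_one])] at this
      exact this
  rw [Finset.sum_congr rfl fun a _ => h1 a]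
  simp only [ite_smul, zero_smul, Finset.sum_ite_eq', Finset.mem_univ, if_true]
  rw [map_one, Matrix.one_mulVec]

theorem exists_pr (σ : D →* Matrix n n ℂ) (w : n → ℂ) (hw : w ≠ 0) :
    ∃ μ : D →* ℂˣ, ∑ d : D, cv μ d⁻¹ • (σ d).mulVec w ≠ 0 := by
  by_contra hc
  push Not at hc
  have h1 := pr_sum σ w
  rw [Finset.sum_eq_zero fun μ _ => hc μ] at h1
  have h2 : (Fintype.card D : ℂ) ≠ 0 := by exact_mod_cast Fintype.card_ne_zero
  exact (smul_ne_zero h2 hw) h1.symm

end

section
variable {G : Type} [Group G] {C : Type} [CommGroup C] (κ : G →* C) (j : C →* G)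

theorem ker_le (D : Subgroup C) : κ.ker ≤ D.comap κ := fun g hg => by
  rw [Subgroup.mem_comap, MonoidHom.mem_ker.1 hg]
  exact D.one_mem

/-- restriction to the kernel -/
def resA (D : Subgroup C) (η : D.comap κ →* ℂˣ) : κ.ker →* ℂˣ :=
  η.comp (Subgroup.inclusion (ker_le κ D))

/-- restriction to the complement -/
def resD (hκ : ∀ c, κ (j c) = c) (D : Subgroup C) (η : D.comap κ →* ℂˣ) : D →* ℂˣ :=
  η.comp ((j.comp D.subtype).codRestrict (D.comap κ) fun d => by
    rw [Subgroup.mem_comap, MonoidHom.comp_apply, hκ]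
    exact d.2)

theorem al_mem (hκ : ∀ c, κ (j c) = c) (g : G) : g * (j (κ g))⁻¹ ∈ κ.ker := by
  rw [MonoidHom.mem_ker, map_mul, map_inv, hκ, mul_inv_cancel]

/-- data for an irreducible representation -/
structure Dat (π : IrrRep G) where
  /-- the stabilizer -/
  D : Subgroup C
  /-- the linear character of the inertia group -/
  η : D.comap κ →* ℂˣ
  /-- the eigenvector -/
  v : Fin π.n → ℂ
  v0 : v ≠ 0
  hv : ∀ h : D.comap κ, (π.ρ (h : G)).mulVec v = cv η h • v
  hD : ∀ c : C, cj κ.ker (j c) (resA κ D η) = resA κ D η ↔ c ∈ D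

variable [Fintype G] [Fintype C]

theorem cj_ker [IsMulCommutative κ.ker] (a : κ.ker) (ψ : κ.ker →* ℂˣ) :
    cj κ.ker (a : G) ψ = ψ := by
  apply MonoidHom.ext
  intro b
  have h1 : cj κ.ker (a : G) ψ b = ψ (MulAut.conjNormal (a : G) b) := rfl
  rw [h1]
  congr 1
  apply Subtype.ext
  rw [MulAut.conjNormal_apply]
  have h2 := congrArg Subtype.val (mul_comm a b)
  rw [Subgroup.coe_mul, Subgroup.coe_mul] at h2
  rw [h2, mul_inv_cancel_right]

theorem exists_dat [IsMulCommutative κ.ker] (hκ : ∀ c, κ (j c) = c) (π : IrrRep G) :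
    Nonempty (Dat κ j π) := by
  classical
  have : Fintype (G ⧸ κ.ker) := Fintype.ofFinite _
  have : Fintype κ.ker := Fintype.ofFinite _
  obtain ⟨ψ, w, hw0, hw⟩ := exists_eig κ.ker π
  let D : Subgroup C :=
    { carrier := {c | cj κ.ker (j c) ψ = ψ}
      one_mem' := by
        change cj κ.ker (j 1) ψ = ψ
        rw [map_one, cj_oneG]
      mul_mem' := by
        intro c c' hc hc'
        have hc1 : cj κ.ker (j c) ψ = ψ := hc
        have hc2 : cj κ.ker (j c') ψ = ψ := hc'
        change cj κ.ker (j (c * c')) ψ = ψ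
        rw [map_mul, ← cj_cjG, hc1, hc2]
      inv_mem' := by
        intro c hc
        have hc1 : cj κ.ker (j c) ψ = ψ := hc
        change cj κ.ker (j c⁻¹) ψ = ψ
        conv_lhs => rw [← hc1]
        rw [cj_cjG, ← map_mul, mul_inv_cancel, map_one, cj_oneG] }
  have hDm : ∀ c, cj κ.ker (j c) ψ = ψ ↔ c ∈ D := fun c => Iff.rfl
  have : Fintype D := Fintype.ofFinite _
  let σ : D →* Matrix (Fin π.n) (Fin π.n) ℂ := π.ρ.comp (j.comp D.subtype)
  obtain ⟨μ, hμ⟩ := exists_pr σ w hw0
  let v : Fin π.n → ℂ := ∑ d : D, cv μ d⁻¹ • (σ d).mulVec w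
  have hvA : ∀ a : κ.ker, (π.ρ (a : G)).mulVec v = cv ψ a • v := by
    intro a
    simp only [v]
    rw [Matrix.mulVec_sum, Finset.smul_sum]
    refine Finset.sum_congr rfl fun d _ => ?_
    rw [Matrix.mulVec_smul, smul_comm]
    congr 1
    have h1 := eig_conjG κ.ker π.ρ ψ w hw (j d) a
    have h2 : cj κ.ker (j d)⁻¹ ψ = ψ := by
      rw [← map_inv]
      exact (hDm _).2 (D.inv_mem d.2)
    rw [h2] at h1
    exact h1
  have hvD : ∀ d : D, (π.ρ (j d)).mulVec v = cv μ d • v := fun d => pr_eig σ μ w d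
  have hmemD : ∀ h : D.comap κ, κ h ∈ D := fun h => h.2
  have key : ∀ h : D.comap κ, (π.ρ (h : G)).mulVec v
      = ((ψ ⟨_, al_mem κ j hκ h⟩ * μ ⟨κ h, hmemD h⟩ : ℂˣ) : ℂ) • v := by
    intro h
    have e : (h : G) = (((⟨_, al_mem κ j hκ h⟩ : κ.ker) : G)) * j ((⟨κ h, hmemD h⟩ : D) : C) := by
      simp
    conv_lhs => rw [e]
    rw [map_mul, ← Matrix.mulVec_mulVec, hvD, Matrix.mulVec_smul, hvA, smul_smul, Units.val_mul,
      mul_comm]
    rfl
  have hinj : ∀ x y : ℂˣ, (x : ℂ) • v = (y : ℂ) • v → x = y := by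
    intro x y hxy
    apply Units.ext
    exact smul_left_injective ℂ hμ hxy
  let η : D.comap κ →* ℂˣ :=
    { toFun := fun h => ψ ⟨_, al_mem κ j hκ h⟩ * μ ⟨κ h, hmemD h⟩
      map_one' := by
        apply hinj
        rw [← key, Subgroup.coe_one, map_one, Matrix.one_mulVec, Units.val_one, one_smul]
      map_mul' := by
        intro h h'
        apply hinj
        rw [← key, Subgroup.coe_mul, map_mul, ← Matrix.mulVec_mulVec, key h', Matrix.mulVec_smul,
          key h, smul_smul]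
        congr 1
        simp only [Units.val_mul]
        ring }
  have hη : resA κ D η = ψ := by
    apply MonoidHom.ext
    intro a
    apply hinj
    have h1 := key (Subgroup.inclusion (ker_le κ D) a)
    exact h1.symm.trans (hvA a)
  refine ⟨⟨D, η, v, hμ, key, fun c => ?_⟩⟩
  rw [hη]
  exact hDm c

end

end H25SI
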