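import Mathlib
import Pool.Agent.H25.SI.Str

/-!
# Characters, determinants and central values for split extensions
-/

set_option autoImplicit false
set_option linter.unusedSectionVars false

namespace H25SI

open Matrix
open scoped IsMulCommutative

section
variable {G : Type} [Group G] [Fintype G] {C : Type} [CommGroup C] [Fintype C] {κ : G →* C}
  {j : C →* G}

/-- central elements act by scalars -/
theorem dat_central {π : IrrRep G} (d : Dat κ j π) (z : MonoidAlgebra ℤ G)
    (hz : z ∈ Subring.center (MonoidAlgebra ℤ G)) (s : ℂ)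
    (h : (ext π.ρ z).mulVec d.v = s • d.v) : centralValue z π = s := by
  let W : Submodule ℂ (Fin π.n → ℂ) :=
    { carrier := {w | (ext π.ρ z).mulVec w = s • w}
      add_mem' := fun {x y} hx hy => by
        simp only [Set.mem_ofPred_eq] at hx hy ⊢
        rw [Matrix.mulVec_add, hx, hy, smul_add]
      zero_mem' := by simp
      smul_mem' := fun c x hx => by
        simp only [Set.mem_ofPred_eq] at hx ⊢
        rw [Matrix.mulVec_smul, hx, smul_comm] }
  have hW : W = ⊤ := by
    rcases π.irr W (fun g w hw => by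
      change (ext π.ρ z).mulVec ((π.ρ g).mulVec w) = s • (π.ρ g).mulVec w
      have hw' : (ext π.ρ z).mulVec w = s • w := hw
      have h3 := Subring.mem_center_iff.1 hz (MonoidAlgebra.of ℤ G g)
      have h4 := congrArg (ext π.ρ) h3
      rw [map_mul, map_mul, ext_of] at h4
      rw [Matrix.mulVec_mulVec, ← h4, ← Matrix.mulVec_mulVec, hw', Matrix.mulVec_smul]) with hh | hh
    · exfalso
      have h1 : d.v ∈ W := h
      rw [hh, Submodule.mem_bot] at h1
      exact d.v0 h1
    · exact hh
  have h5 : ext π.ρ z = s • (1 : Matrix (Fin π.n) (Fin π.n) ℂ) := by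
    apply Matrix.toLin'.injective
    apply LinearMap.ext
    intro w
    have hw : w ∈ W := by rw [hW]; trivial
    have hw' : (ext π.ρ z).mulVec w = s • w := hw
    rw [Matrix.toLin'_apply, Matrix.toLin'_apply, hw', Matrix.smul_mulVec, Matrix.one_mulVec]
  have h6 : (π.n : ℂ) ≠ 0 := by
    have := π.pos
    exact_mod_cast this.ne'
  rw [centralValue, h5, Matrix.trace_smul, Matrix.trace_one, Fintype.card_fin, smul_eq_mul,
    mul_div_assoc, div_self h6, mul_one]

theorem cj_eq [IsMulCommutative κ.ker] (hκ : ∀ c, κ (j c) = c) (g : G) (ψ : κ.ker →* ℂˣ) :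
    cj κ.ker g ψ = cj κ.ker (j (κ g)) ψ := by
  have e : g = ((⟨_, al_mem κ j hκ g⟩ : κ.ker) : G) * j (κ g) := by simp
  conv_lhs => rw [e]
  rw [← cj_cjG, cj_ker]

theorem dat_char [IsMulCommutative κ.ker] (hκ : ∀ c, κ (j c) = c) {π : IrrRep G}
    (d : Dat κ j π) (g : G) : (π.ρ g).trace = indChar (d.D.comap κ) d.η g := by
  classical
  have : Fintype (G ⧸ d.D.comap κ) := Fintype.ofFinite _
  have : Fintype (d.D.comap κ) := Fintype.ofFinite _
  obtain ⟨e, he⟩ := induced_caseG (d.D.comap κ) π d.η d.v d.v0 d.hv (fun g hg => by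
    have h1 : cj κ.ker g (resA κ d.D d.η) = resA κ d.D d.η := by
      apply MonoidHom.ext
      intro a
      have h2 := DFunLike.congr_fun hg (Subgroup.inclusion (ker_le κ d.D) a)
      have h3 : cj (d.D.comap κ) g d.η (Subgroup.inclusion (ker_le κ d.D) a)
          = d.η (MulAut.conjNormal g (Subgroup.inclusion (ker_le κ d.D) a)) := rfl
      rw [h3] at h2
      have h4 : cj κ.ker g (resA κ d.D d.η) a
          = d.η (Subgroup.inclusion (ker_le κ d.D) (MulAut.conjNormal g a)) := rfl
      rw [h4]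
      have h5 : (Subgroup.inclusion (ker_le κ d.D) (MulAut.conjNormal g a) : d.D.comap κ)
          = MulAut.conjNormal g (Subgroup.inclusion (ker_le κ d.D) a) := by
        apply Subtype.ext
        rw [Subgroup.coe_inclusion, MulAut.conjNormal_apply, MulAut.conjNormal_apply,
          Subgroup.coe_inclusion]
      rw [h5, h2]
      rfl
    rw [cj_eq (j := j) hκ] at h1
    exact (d.hD _).1 h1)
  obtain ⟨-, h2⟩ := ext_intertwine π.ρ (indM (d.D.comap κ) (cv d.η)) e he
  rw [h2, trace_indMG]

/-- inclusion of the group ring of the complement -/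
noncomputable def emC (j : C →* G) (x : MonoidAlgebra ℤ C) : MonoidAlgebra ℤ G :=
  ∑ c : C, MonoidAlgebra.single (j c) (x.coeff c)

theorem ext_emC {n : Type} [Fintype n] [DecidableEq n] (ρ : G →* Matrix n n ℂ)
    (x : MonoidAlgebra ℤ C) : ext ρ (emC j x) = ext (ρ.comp j) x := by
  rw [emC, map_sum, ext_sum]
  refine Finset.sum_congr rfl fun a _ => ?_
  rw [ext_single]
  rfl

theorem dat_det [IsMulCommutative κ.ker] (hκ : ∀ c, κ (j c) = c) {π : IrrRep G}
    (d : Dat κ j π) (x : MonoidAlgebra ℤ C) :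
    (ext π.ρ (emC j x)).det = ek (resD κ j hκ d.D d.η) (nmv x d.D) := by
  classical
  have : Fintype (C ⧸ d.D) := Fintype.ofFinite _
  have : Fintype κ.ker := Fintype.ofFinite _
  let μ := resD κ j hκ d.D d.η
  let ψ := resA κ d.D d.η
  have hvD : ∀ a : d.D, (π.ρ (j a)).mulVec d.v = cv μ a • d.v := fun a =>
    d.hv (((j.comp d.D.subtype).codRestrict (d.D.comap κ) fun d => by
    rw [Subgroup.mem_comap, MonoidHom.comp_apply, hκ]
    exact d.2) a)
  have hvA : ∀ a : κ.ker, (π.ρ (a : G)).mulVec d.v = cv ψ a • d.v := fun a =>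
    d.hv (Subgroup.inclusion (ker_le κ d.D) a)
  let w : C ⧸ d.D → Fin π.n → ℂ := fun q => (π.ρ (j q.out)).mulVec d.v
  let f : (C ⧸ d.D → ℂ) →ₗ[ℂ] (Fin π.n → ℂ) := Fintype.linearCombination ℂ w
  have hf : ∀ c, f c = ∑ q : C ⧸ d.D, c q • w q := fun c => Fintype.linearCombination_apply _ _ _
  have hw0 : ∀ q, w q ≠ 0 := by
    intro q h
    apply d.v0
    have h1 : (π.ρ (j q.out)⁻¹).mulVec (w q) = d.v := by
      simp only [w]
      rw [Matrix.mulVec_mulVec, ← map_mul, inv_mul_cancel, map_one, Matrix.one_mulVec]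
    rw [← h1, h, Matrix.mulVec_zero]
  have hwA : ∀ q, ∀ a : κ.ker, (π.ρ (a : G)).mulVec (w q) = cv (cj κ.ker (j q.out)⁻¹ ψ) a • w q :=
    fun q a => eig_conjG κ.ker π.ρ ψ d.v hvA (j q.out) a
  have hcw : ∀ (c : C) (q : C ⧸ d.D),
      (π.ρ (j c)).mulVec (w q) = cv μ (cz d.D c q) • w ((c : C ⧸ d.D) * q) := by
    intro c q
    simp only [w]
    rw [Matrix.mulVec_mulVec, ← map_mul, ← map_mul j, mul_out d.D c q, map_mul j, map_mul π.ρ,
      ← Matrix.mulVec_mulVec, hvD, Matrix.mulVec_smul]
  have hint : ∀ (c : C) (u : C ⧸ d.D → ℂ),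
      ((π.ρ.comp j) c).mulVec (f u) = f ((indM d.D (cv μ) c).mulVec u) := by
    intro c u
    rw [hf, hf, Matrix.mulVec_sum]
    have h1 : ∀ s : C ⧸ d.D, ((indM d.D (cv μ) c).mulVec u) s • w s
        = ∑ q : C ⧸ d.D, if s = (c : C ⧸ d.D) * q then (cv μ (cz d.D c q) * u q) • w s else 0 := by
      intro s
      rw [Matrix.mulVec, dotProduct, Finset.sum_smul]
      refine Finset.sum_congr rfl fun q _ => ?_
      rw [indM_apply]
      split_ifs
      · rfl
      · rw [zero_mul, zero_smul]
    rw [Finset.sum_congr rfl fun s _ => h1 s, Finset.sum_comm]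
    refine Finset.sum_congr rfl fun q _ => ?_
    rw [Finset.sum_ite_eq', if_pos (Finset.mem_univ _), Matrix.mulVec_smul, MonoidHom.comp_apply,
      hcw, smul_smul, mul_comm]
  have hinj : Function.Injective f := by
    rw [injective_iff_map_eq_zero]
    intro c hc
    rw [hf] at hc
    refine indep_eig κ.ker π.ρ (fun q : C ⧸ d.D => cj κ.ker (j q.out)⁻¹ ψ) ?_ w hw0 hwA c hc
    intro q q0 h4
    have h5 := congrArg (cj κ.ker (j q0.out)) h4
    simp only [cj_cjG, inv_mul_cancel, cj_oneG] at h5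
    rw [← map_inv, ← map_mul] at h5
    have h6 := (d.hD _).1 h5
    rw [← QuotientGroup.eq, QuotientGroup.out_eq', QuotientGroup.out_eq'] at h6
    exact h6
  have hsurj : Function.Surjective f := by
    rw [← LinearMap.range_eq_top]
    rcases π.irr (LinearMap.range f) (fun g u hu => by
      obtain ⟨c, rfl⟩ := hu
      have e : g = ((⟨_, al_mem κ j hκ g⟩ : κ.ker) : G) * j (κ g) := by simp
      rw [e, map_mul, ← Matrix.mulVec_mulVec]
      have h1 : (π.ρ (j (κ g))).mulVec (f c) = f ((indM d.D (cv μ) (κ g)).mulVec c) :=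
        hint (κ g) c
      rw [h1]
      set u := (indM d.D (cv μ) (κ g)).mulVec c
      set a : κ.ker := ⟨_, al_mem κ j hκ g⟩
      refine ⟨fun q => cv (cj κ.ker (j q.out)⁻¹ ψ) a * u q, ?_⟩
      rw [hf, hf, Matrix.mulVec_sum]
      refine Finset.sum_congr rfl fun q _ => ?_
      rw [Matrix.mulVec_smul, hwA, smul_smul, mul_comm]) with h | h
    · exfalso
      have h1 : w 1 ∈ LinearMap.range f := ⟨Pi.single 1 1, by
        rw [hf, Finset.sum_eq_single 1]
        · rw [Pi.single_eq_same, one_smul]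
        · intro q _ hq
          rw [Pi.single_eq_of_ne hq, zero_smul]
        · intro hq
          exact absurd (Finset.mem_univ _) hq⟩
      rw [h, Submodule.mem_bot] at h1
      exact hw0 1 h1
    · exact h
  obtain ⟨h1, -⟩ := ext_intertwine (π.ρ.comp j) (indM d.D (cv μ))
    (LinearEquiv.ofBijective f ⟨hinj, hsurj⟩) hint
  rw [ext_emC, h1, nmv_eq, ek_nm]
  rfl

end

end H25SI
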