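import Mathlib
import Pool.Agent.H25.SI.Stq

/-!
# Elements of the integrality ring for split extensions
-/

set_option autoImplicit false
set_option linter.unusedSectionVars false

namespace H25SI

open Matrix
open scoped IsMulCommutative

/-- a function on a finite abelian group is determined by its Fourier coefficients -/
theorem sepC {D : Type} [CommGroup D] [Fintype D] (F : D → ℂ)
    (h : ∀ μ : D →* ℂˣ, ∑ c : D, F c * ((μ c : ℂˣ) : ℂ) = 0) : F = 0 := by
  classical
  funext a
  have h1 : ∑ μ : D →* ℂˣ, ((μ a⁻¹ : ℂˣ) : ℂ) * ∑ c : D, F c * ((μ c : ℂˣ) : ℂ)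
      = (Fintype.card D : ℂ) * F a := by
    simp_rw [Finset.mul_sum]
    rw [Finset.sum_comm]
    have h2 : ∀ b : D, ∑ ψ : D →* ℂˣ, ((ψ a⁻¹ : ℂˣ) : ℂ) * (F b * ((ψ b : ℂˣ) : ℂ))
        = F b * if b = a then (Fintype.card D : ℂ) else 0 := by
      intro b
      have h3 := sum_chars (a⁻¹ * b)
      rw [show (a⁻¹ * b = 1) = (b = a) from propext ⟨fun h => by
        rw [inv_mul_eq_one] at h; exact h.symm, fun h => by rw [h, inv_mul_cancel]⟩] at h3
      rw [← h3, Finset.mul_sum]
      refine Finset.sum_congr rfl fun ψ _ => ?_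
      rw [map_mul, Units.val_mul]
      ring
    rw [Finset.sum_congr rfl fun b _ => h2 b]
    simp only [mul_ite, mul_zero, Finset.sum_ite_eq', Finset.mem_univ, if_true]
    ring
  rw [Finset.sum_eq_zero fun μ _ => by rw [h μ, mul_zero]] at h1
  have h3 : (Fintype.card D : ℂ) ≠ 0 := by
    exact_mod_cast Fintype.card_ne_zero
  exact (mul_eq_zero.1 h1.symm).resolve_left h3

section
variable {G : Type} [Group G] [Fintype G] (A : Subgroup G) [Fintype A]

theorem emb_add (x y : MonoidAlgebra ℤ A) : emb A (x + y) = emb A x + emb A y := by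
  rw [emb, emb, emb, ← Finset.sum_add_distrib]
  refine Finset.sum_congr rfl fun a _ => ?_
  rw [← MonoidAlgebra.single_add]
  rfl

theorem emb_zero : emb A (0 : MonoidAlgebra ℤ A) = 0 := by
  rw [emb]
  refine Finset.sum_eq_zero fun a _ => ?_
  simp

theorem emb_single (b : A) (n : ℤ) : emb A (MonoidAlgebra.single b n) = MonoidAlgebra.single (b : G) n := by
  classical
  rw [emb, Finset.sum_eq_single b]
  · simp
  · intro a _ ha
    simp [ha]
  · intro h
    exact absurd (Finset.mem_univ _) h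

theorem emb_mul_single (x : MonoidAlgebra ℤ A) (a : A) (n : ℤ) :
    emb A (x * MonoidAlgebra.single a n) = emb A x * MonoidAlgebra.single (a : G) n := by
  induction x using MonoidAlgebra.induction_linear with
  | zero => rw [zero_mul, emb_zero, zero_mul]
  | add f g hf hg => rw [add_mul, emb_add, emb_add, add_mul, hf, hg]
  | single b m =>
    rw [MonoidAlgebra.single_mul_single, emb_single, emb_single, MonoidAlgebra.single_mul_single]
    rfl

end

section
variable {G : Type} [Group G] [Fintype G] {C : Type} [CommGroup C] [Fintype C] (κ : G →* C)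
  (j : C →* G) [IsMulCommutative κ.ker] [Fintype κ.ker]

/-- invariance of an element of `ℤ[A]` under the complement -/
theorem inv_of_evC (hκ : ∀ c, κ (j c) = c) (t : MonoidAlgebra ℤ κ.ker)
    (h : ∀ (c : C) (ψ : κ.ker →* ℂˣ), ev (cj κ.ker (j c) ψ) t = ev ψ t) (g : G) (a : κ.ker) :
    t.coeff (MulAut.conjNormal g a) = t.coeff a := by
  have : Fintype (G ⧸ κ.ker) := Fintype.ofFinite _
  have : DecidableEq (G ⧸ κ.ker) := Classical.decEq _
  exact inv_of_ev κ.ker t (fun g ψ => by rw [cj_eq (j := j) hκ, h]) g a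

/-- central elements supported on a coset of `A` -/
theorem central_piece (hκ : ∀ c, κ (j c) = c) (y : MonoidAlgebra ℤ κ.ker)
    (hy : emb κ.ker y ∈ Subring.center (MonoidAlgebra ℤ G)) (c : C)
    (h2 : ∀ a : κ.ker, y * MonoidAlgebra.single (MulAut.conjNormal (j c) a) 1
      = y * MonoidAlgebra.single a 1) :
    emb κ.ker y * MonoidAlgebra.single (j c) 1 ∈ Subring.center (MonoidAlgebra ℤ G) := by
  rw [Subring.mem_center_iff]
  intro x
  induction x using MonoidAlgebra.induction_linear with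
  | zero => rw [zero_mul, mul_zero]
  | add f g hf hg => rw [add_mul, mul_add, hf, hg]
  | single g m =>
    have hc := Subring.mem_center_iff.1 hy (MonoidAlgebra.single g m)
    rw [← mul_assoc, hc, mul_assoc, mul_assoc, MonoidAlgebra.single_mul_single,
      MonoidAlgebra.single_mul_single, mul_one, one_mul]
    set a : κ.ker := ⟨_, al_mem κ j hκ g⟩ with ha
    have e1 : g * j c = (a : G) * (j c * j (κ g)) := by
      rw [← map_mul, mul_comm c, map_mul, ← mul_assoc]
      simp [a]
    have e2 : j c * g = ((MulAut.conjNormal (j c) a : κ.ker) : G) * (j c * j (κ g)) := by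
      rw [MulAut.conjNormal_apply]
      have e3 : g = (a : G) * j (κ g) := by simp [a]
      conv_lhs => rw [e3]
      group
    have e4 : ∀ b : κ.ker, emb κ.ker y * MonoidAlgebra.single ((b : G) * (j c * j (κ g))) m
        = emb κ.ker (y * MonoidAlgebra.single b 1) * MonoidAlgebra.single (j c * j (κ g)) m := by
      intro b
      rw [emb_mul_single, mul_assoc, MonoidAlgebra.single_mul_single, one_mul]
    rw [e1, e2, e4, e4, h2]

theorem ext_emb_eig {n : Type} [Fintype n] [DecidableEq n] (ρ : G →* Matrix n n ℂ)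
    (ψ : κ.ker →* ℂˣ) (v : n → ℂ) (hv : ∀ a : κ.ker, (ρ (a : G)).mulVec v = cv ψ a • v)
    (t : MonoidAlgebra ℤ κ.ker) : (ext ρ (emb κ.ker t)).mulVec v = ev ψ t • v := by
  have : Fintype (G ⧸ κ.ker) := Fintype.ofFinite _
  have : DecidableEq (G ⧸ κ.ker) := Classical.decEq _
  rw [ext_emb, Matrix.sum_mulVec, ev_sum, Finset.sum_smul]
  refine Finset.sum_congr rfl fun a _ => ?_
  rw [Matrix.smul_mulVec, hv, mul_smul, ← Int.cast_smul_eq_zsmul ℂ]
  rfl

/-- the value of a central element supported on a coset -/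
theorem piece_value (hκ : ∀ c, κ (j c) = c) {π : IrrRep G} (d : Dat κ j π)
    (y : MonoidAlgebra ℤ κ.ker) (c : C)
    (hz : emb κ.ker y * MonoidAlgebra.single (j c) 1 ∈ Subring.center (MonoidAlgebra ℤ G))
    (hinv : ∀ (c : C) (ψ : κ.ker →* ℂˣ), ev (cj κ.ker (j c) ψ) y = ev ψ y)
    (s : ℂ) (hs : ∀ hc : c ∈ d.D, ev (resA κ d.D d.η) y * cv (resD κ j hκ d.D d.η) ⟨c, hc⟩ = s)
    (hs' : c ∉ d.D → ev (resA κ d.D d.η) y = 0 ∧ s = 0) :
    centralValue (emb κ.ker y * MonoidAlgebra.single (j c) 1) π = s := by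
  have hvA : ∀ a : κ.ker, (π.ρ (a : G)).mulVec d.v = cv (resA κ d.D d.η) a • d.v := fun a =>
    d.hv (Subgroup.inclusion (ker_le κ d.D) a)
  apply dat_central d _ hz
  rw [map_mul, ext_single, one_smul, ← Matrix.mulVec_mulVec]
  have h1 := ext_emb_eig κ π.ρ (cj κ.ker (j c)⁻¹ (resA κ d.D d.η)) ((π.ρ (j c)).mulVec d.v)
    (fun a => eig_conjG κ.ker π.ρ _ d.v hvA (j c) a) y
  rw [h1, ← map_inv, hinv]
  by_cases hc : c ∈ d.D
  · have hvD : (π.ρ (j c)).mulVec d.v = cv (resD κ j hκ d.D d.η) ⟨c, hc⟩ • d.v :=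
      d.hv (((j.comp d.D.subtype).codRestrict (d.D.comap κ) fun d => by
        rw [Subgroup.mem_comap, MonoidHom.comp_apply, hκ]
        exact d.2) ⟨c, hc⟩)
    rw [hvD, smul_smul, hs hc]
  · obtain ⟨h2, h3⟩ := hs' hc
    rw [h2, h3, zero_smul, zero_smul]

theorem emb_value {π : IrrRep G} (d : Dat κ j π) (y : MonoidAlgebra ℤ κ.ker)
    (hz : emb κ.ker y ∈ Subring.center (MonoidAlgebra ℤ G)) :
    centralValue (emb κ.ker y) π = ev (resA κ d.D d.η) y := by
  have hvA : ∀ a : κ.ker, (π.ρ (a : G)).mulVec d.v = cv (resA κ d.D d.η) a • d.v := fun a =>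
    d.hv (Subgroup.inclusion (ker_le κ d.D) a)
  exact dat_central d _ hz _ (ext_emb_eig κ π.ρ _ d.v hvA y)

end

end H25SI
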