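import Mathlib
import Pool.Agent.H25.SI.Spl

/-!
# The two integral multiples of theta
-/

set_option autoImplicit false
set_option linter.unusedSectionVars false

namespace H25SI

open Matrix
open scoped IsMulCommutative

section
variable {G : Type} [Group G] [Fintype G] {C : Type} [CommGroup C] [Fintype C] (κ : G →* C)
  (j : C →* G) [IsMulCommutative κ.ker] [Fintype κ.ker]

/-- the character of the inertia group with given restrictions -/
theorem exists_eta (hκ : ∀ c, κ (j c) = c) (D : Subgroup C) (ψ : κ.ker →* ℂˣ)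
    (hD : ∀ c ∈ D, cj κ.ker (j c) ψ = ψ) (μ : D →* ℂˣ) :
    ∃ η : D.comap κ →* ℂˣ, resA κ D η = ψ ∧ resD κ j hκ D η = μ := by
  have hmemD : ∀ h : D.comap κ, κ h ∈ D := fun h => h.2
  let η : D.comap κ →* ℂˣ :=
    { toFun := fun h => ψ ⟨_, al_mem κ j hκ h⟩ * μ ⟨κ h, hmemD h⟩
      map_one' := by
        have e1 : (⟨_, al_mem κ j hκ ((1 : D.comap κ) : G)⟩ : κ.ker) = 1 := by
          apply Subtype.ext
          simp
        have e2 : (⟨κ ((1 : D.comap κ) : G), hmemD 1⟩ : D) = 1 := by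
          apply Subtype.ext
          simp
        rw [e1, e2, map_one, map_one, mul_one]
      map_mul' := by
        intro h h'
        have e1 : (⟨_, al_mem κ j hκ ((h * h' : D.comap κ) : G)⟩ : κ.ker)
            = ⟨_, al_mem κ j hκ h⟩ * MulAut.conjNormal (j (κ h)) ⟨_, al_mem κ j hκ h'⟩ := by
          apply Subtype.ext
          change (h : G) * (h' : G) * (j (κ ((h : G) * (h' : G))))⁻¹ = ((h : G) * (j (κ h))⁻¹)
            * ((MulAut.conjNormal (j (κ h)) ⟨_, al_mem κ j hκ h'⟩ : κ.ker) : G)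
          rw [MulAut.conjNormal_apply, map_mul, map_mul]
          group
        have e2 : (⟨κ ((h * h' : D.comap κ) : G), hmemD (h * h')⟩ : D)
            = ⟨κ h, hmemD h⟩ * ⟨κ h', hmemD h'⟩ := by
          apply Subtype.ext
          simp
        have e3 : ψ (MulAut.conjNormal (j (κ h)) ⟨_, al_mem κ j hκ h'⟩)
            = ψ ⟨_, al_mem κ j hκ h'⟩ := by
          conv_rhs => rw [← hD (κ h) (hmemD h)]
          rfl
        rw [e1, e2, map_mul, map_mul, e3]
        exact mul_mul_mul_comm _ _ _ _ }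
  refine ⟨η, ?_, ?_⟩
  · apply MonoidHom.ext
    intro a
    have h1 : resA κ D η a = ψ ⟨_, al_mem κ j hκ a⟩
        * μ ⟨κ a, hmemD (Subgroup.inclusion (ker_le κ D) a)⟩ := rfl
    have h0 : κ (a : G) = 1 := a.2
    have e1 : (⟨_, al_mem κ j hκ a⟩ : κ.ker) = a := by
      apply Subtype.ext
      simp only [h0, map_one, inv_one, mul_one]
    have e2 : (⟨κ a, hmemD (Subgroup.inclusion (ker_le κ D) a)⟩ : D) = 1 := by
      apply Subtype.ext
      exact h0
    rw [h1, e1, e2, map_one, mul_one]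
  · apply MonoidHom.ext
    intro c
    have hc : j c ∈ D.comap κ := by
      rw [Subgroup.mem_comap, hκ]
      exact c.2
    have h1 : resD κ j hκ D η c = ψ ⟨_, al_mem κ j hκ (j c)⟩ * μ ⟨κ (j c), hmemD ⟨j c, hc⟩⟩ := rfl
    have e1 : (⟨_, al_mem κ j hκ (j (c : C))⟩ : κ.ker) = 1 := by
      apply Subtype.ext
      simp only [hκ, mul_inv_cancel]
      rfl
    have e2 : (⟨κ (j (c : C)), hmemD ⟨j c, hc⟩⟩ : D) = c := by
      apply Subtype.ext
      exact hκ _
    rw [h1, e1, e2, map_one, one_mul]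

open Classical in
/-- the coefficients of an element of `ℤ[H]` as function on `G` -/
noncomputable def bb (D : Subgroup C) (b : MonoidAlgebra ℤ (D.comap κ)) (g : G) : ℤ :=
  if h : g ∈ D.comap κ then b.coeff ⟨g, h⟩ else 0

/-- the part on a coset of `A` -/
noncomputable def be (D : Subgroup C) (b : MonoidAlgebra ℤ (D.comap κ)) (c : C) :
    MonoidAlgebra ℤ κ.ker := ∑ a : κ.ker, MonoidAlgebra.single a (bb κ D b (a * j c))

theorem ev_be (hκ : ∀ c, κ (j c) = c) (D : Subgroup C) [Fintype D]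
    (b : MonoidAlgebra ℤ (D.comap κ)) (η : D.comap κ →* ℂˣ) :
    ev η b = ∑ c : D, ev (resA κ D η) (be κ j D b c) * cv (resD κ j hκ D η) c := by
  classical
  have : Fintype (D.comap κ) := Fintype.ofFinite _
  have hm : ∀ (c : D) (a : κ.ker), (a : G) * j c ∈ D.comap κ := by
    intro c a
    have h0 : κ (a : G) = 1 := a.2
    rw [Subgroup.mem_comap, map_mul, h0, one_mul, hκ]
    exact c.2
  let e : D × κ.ker ≃ D.comap κ :=
    { toFun := fun x => ⟨(x.2 : G) * j x.1, hm x.1 x.2⟩
      invFun := fun h => (⟨κ h, h.2⟩, ⟨_, al_mem κ j hκ h⟩)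
      left_inv := by
        rintro ⟨c, a⟩
        have h0 : κ (a : G) = 1 := a.2
        apply Prod.ext
        · apply Subtype.ext
          simp only [map_mul, h0, one_mul, hκ]
        · apply Subtype.ext
          simp only [map_mul, h0, one_mul, hκ, mul_inv_cancel_right]
      right_inv := by
        intro h
        apply Subtype.ext
        simp only [inv_mul_cancel_right] }
  rw [ev_sum, ← e.sum_comp, Fintype.sum_prod_type]
  refine Finset.sum_congr rfl fun c _ => ?_
  rw [be, map_sum, Finset.sum_mul]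
  refine Finset.sum_congr rfl fun a _ => ?_
  have h1 : e (c, a) = ⟨(a : G) * j c, hm c a⟩ := rfl
  have h2 : bb κ D b ((a : G) * j c) = b.coeff ⟨(a : G) * j c, hm c a⟩ := by
    rw [bb, dif_pos (hm c a)]
  have hc : j c ∈ D.comap κ := by
    rw [Subgroup.mem_comap, hκ]
    exact c.2
  have h3 : η ⟨(a : G) * j c, hm c a⟩ = resA κ D η a * resD κ j hκ D η c := by
    have e1 : (⟨(a : G) * j c, hm c a⟩ : D.comap κ)
        = Subgroup.inclusion (ker_le κ D) a * ⟨j c, hc⟩ := rfl
    rw [e1, map_mul]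
    rfl
  rw [h1, h3, ev_single, h2, Units.val_mul, cv_apply]
  ring

/-- the values of the coset parts are invariant -/
theorem be_conj (hκ : ∀ c, κ (j c) = c) (D : Subgroup C) (b : MonoidAlgebra ℤ (D.comap κ))
    (Λ : (G → ℂ) → ℂ) (hb : ∀ η : D.comap κ →* ℂˣ, Λ (indChar (D.comap κ) η) = ev η b)
    (ψ : κ.ker →* ℂˣ) (hD : ∀ c ∈ D, cj κ.ker (j c) ψ = ψ) (c' : C) (c : D) :
    ev (cj κ.ker (j c') ψ) (be κ j D b c) = ev ψ (be κ j D b c) := by
  classical
  have : Fintype D := Fintype.ofFinite _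
  have key := sepC (fun c : D => ev (cj κ.ker (j c') ψ) (be κ j D b c) - ev ψ (be κ j D b c))
    (fun μ => by
      obtain ⟨η, h1, h2⟩ := exists_eta κ j hκ D ψ hD μ
      have h3 : resA κ D (cj (D.comap κ) (j c') η) = cj κ.ker (j c') ψ := by
        rw [← h1]
        apply MonoidHom.ext
        intro a
        have e1 : resA κ D (cj (D.comap κ) (j c') η) a
            = η (MulAut.conjNormal (j c') (Subgroup.inclusion (ker_le κ D) a)) := rfl
        have e2 : cj κ.ker (j c') (resA κ D η) a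
            = η (Subgroup.inclusion (ker_le κ D) (MulAut.conjNormal (j c') a)) := rfl
        rw [e1, e2]
        congr 1
      have h4 : resD κ j hκ D (cj (D.comap κ) (j c') η) = μ := by
        rw [← h2]
        apply MonoidHom.ext
        intro a
        have hc : j a ∈ D.comap κ := by
          rw [Subgroup.mem_comap, hκ]
          exact a.2
        have e1 : resD κ j hκ D (cj (D.comap κ) (j c') η) a
            = η (MulAut.conjNormal (j c') ⟨j a, hc⟩) := rfl
        have e2 : resD κ j hκ D η a = η ⟨j a, hc⟩ := rfl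
        rw [e1, e2]
        congr 1
        apply Subtype.ext
        rw [MulAut.conjNormal_apply, ← map_inv, ← map_mul, ← map_mul, mul_comm c', mul_assoc,
          mul_inv_cancel, mul_one]
      have h5 : ev (cj (D.comap κ) (j c') η) b = ev η b := by
        rw [← hb, ← hb, indChar_cjG]
      rw [ev_be κ j hκ D b, ev_be κ j hκ D b η, h1, h2, h3, h4] at h5
      simp only [sub_mul, Finset.sum_sub_distrib]
      rw [sub_eq_zero]
      exact h5)
  have := congrFun key c
  rw [Pi.zero_apply, sub_eq_zero] at this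
  exact this

/-- conjugation on `ℤ[A]` -/
noncomputable def cjm (g : G) (t : MonoidAlgebra ℤ κ.ker) : MonoidAlgebra ℤ κ.ker :=
  ∑ a : κ.ker, MonoidAlgebra.single (MulAut.conjNormal g a) (t.coeff a)

theorem ev_cjm (g : G) (t : MonoidAlgebra ℤ κ.ker) (ψ : κ.ker →* ℂˣ) :
    ev ψ (cjm κ g t) = ev (cj κ.ker g ψ) t := by
  rw [cjm, map_sum, ev_sum]
  refine Finset.sum_congr rfl fun a _ => ?_
  rw [ev_single]
  rfl

/-- the trace of an element of `ℤ[A]` -/
noncomputable def trm (t : MonoidAlgebra ℤ κ.ker) : MonoidAlgebra ℤ κ.ker :=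
  ∑ c : C, cjm κ (j c) t

theorem ev_trm_cj (t : MonoidAlgebra ℤ κ.ker) (c : C) (ψ : κ.ker →* ℂˣ) :
    ev (cj κ.ker (j c) ψ) (trm κ j t) = ev ψ (trm κ j t) := by
  rw [trm, map_sum, map_sum]
  refine Fintype.sum_equiv (Equiv.mulLeft c) _ _ fun c' => ?_
  rw [ev_cjm, ev_cjm, cj_cjG, Equiv.coe_mulLeft, map_mul]

theorem ev_trm (t : MonoidAlgebra ℤ κ.ker) (ψ : κ.ker →* ℂˣ)
    (h : ∀ c, ev (cj κ.ker (j c) ψ) t = ev ψ t) :
    ev ψ (trm κ j t) = (Fintype.card C : ℂ) * ev ψ t := by
  rw [trm, map_sum, Finset.sum_congr rfl fun c _ => by rw [ev_cjm, h], Finset.sum_const,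
    Finset.card_univ, nsmul_eq_mul]

/-- detects whether `c` fixes the character -/
noncomputable def nc (c : C) : MonoidAlgebra ℤ κ.ker :=
  ∑ a : κ.ker, MonoidAlgebra.single (a⁻¹ * MulAut.conjNormal (j c) a) 1

open Classical in
theorem ev_nc (c : C) (ψ : κ.ker →* ℂˣ) :
    ev ψ (nc κ j c) = if cj κ.ker (j c) ψ = ψ then (Fintype.card κ.ker : ℂ) else 0 := by
  rw [nc, map_sum]
  have h1 : ∀ a : κ.ker, ev ψ (MonoidAlgebra.single (a⁻¹ * MulAut.conjNormal (j c) a) 1)
      = (((cj κ.ker (j c) ψ * ψ⁻¹) a : ℂˣ) : ℂ) := by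
    intro a
    rw [ev_single, Int.cast_one, one_mul, map_mul, map_inv, mul_comm]
    rfl
  rw [Finset.sum_congr rfl fun a _ => h1 a, sum_groupG]
  by_cases h : cj κ.ker (j c) ψ = ψ
  · rw [if_pos h, if_pos (by rw [h]; exact mul_inv_cancel ψ)]
  · rw [if_neg h, if_neg fun hh => h (mul_inv_eq_one.1 hh)]

open Classical in
/-- detects whether the stabilizer is `D` -/
noncomputable def uD (D : Subgroup C) : MonoidAlgebra ℤ κ.ker :=
  ∏ c : C, if c ∈ D then nc κ j c else ((Fintype.card κ.ker : ℤ) : MonoidAlgebra ℤ κ.ker) - nc κ j c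

open Classical in
theorem ev_uD (D : Subgroup C) (ψ : κ.ker →* ℂˣ) :
    ev ψ (uD κ j D) = if (∀ c, cj κ.ker (j c) ψ = ψ ↔ c ∈ D) then
      (Fintype.card κ.ker : ℂ) ^ Fintype.card C else 0 := by
  rw [uD, map_prod]
  have h1 : ∀ c : C, ev ψ (if c ∈ D then nc κ j c else
      ((Fintype.card κ.ker : ℤ) : MonoidAlgebra ℤ κ.ker) - nc κ j c)
      = if (cj κ.ker (j c) ψ = ψ ↔ c ∈ D) then (Fintype.card κ.ker : ℂ) else 0 := by
    intro c
    by_cases hc : c ∈ D
    · rw [if_pos hc, ev_nc]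
      by_cases h : cj κ.ker (j c) ψ = ψ
      · rw [if_pos h, if_pos ⟨fun _ => hc, fun _ => h⟩]
      · rw [if_neg h, if_neg fun hh => h (hh.2 hc)]
    · rw [if_neg hc, map_sub, ev_nc, map_intCast]
      by_cases h : cj κ.ker (j c) ψ = ψ
      · rw [if_pos h, if_neg fun hh => hc (hh.1 h)]
        simp
      · rw [if_neg h, if_pos ⟨fun hh => absurd hh h, fun hh => absurd hh hc⟩]
        simp
  rw [Finset.prod_congr rfl fun c _ => h1 c]
  by_cases h : ∀ c, cj κ.ker (j c) ψ = ψ ↔ c ∈ D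
  · rw [if_pos h, Finset.prod_congr rfl fun c _ => if_pos (h c), Finset.prod_const,
      Finset.card_univ]
  · rw [if_neg h]
    push Not at h
    obtain ⟨c, hc⟩ := h
    refine Finset.prod_eq_zero (Finset.mem_univ c) (if_neg ?_)
    intro hh
    rcases hc with ⟨h1, h2⟩ | ⟨h1, h2⟩
    · exact h2 (hh.1 h1)
    · exact h1 (hh.2 h2)

end

end H25SI
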