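import Mathlib
import Pool.Agent.H25.SI.Grp

/-!
# The irreducible matrix representations are jointly faithful
-/

set_option autoImplicit false
set_option linter.unusedSectionVars false

namespace H25SI

open Matrix

section
variable {G : Type} [Group G] [Fintype G]

/-- extension of scalars to `ℂ` -/
noncomputable def toC : MonoidAlgebra ℤ G →+* MonoidAlgebra ℂ G :=
  MonoidAlgebra.mapRingHom G (Int.castRingHom ℂ)

theorem toC_single (g : G) (n : ℤ) :
    toC (MonoidAlgebra.single g n) = MonoidAlgebra.single g (n : ℂ) := by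
  rw [toC]
  simp

theorem toC_injective : Function.Injective (toC (G := G)) := by
  intro x y h
  ext g
  have h1 := congrArg (fun z : MonoidAlgebra ℂ G => z.coeff g) h
  simpa [toC] using h1

variable (S : Submodule (MonoidAlgebra ℂ G) (MonoidAlgebra ℂ G))

theorem fin_sub : Module.Finite ℂ S := by
  have h1 : Module.Finite ℂ (MonoidAlgebra ℂ G) := inferInstance
  have h2 : Module.Finite ℂ (S.restrictScalars ℂ) := inferInstance
  exact h2

/-- the action on a left ideal in coordinates -/
noncomputable def rhoS {n : ℕ} (b : Module.Basis (Fin n) ℂ S) : G →* Matrix (Fin n) (Fin n) ℂ where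
  toFun g := LinearMap.toMatrix b b (Algebra.lsmul ℂ ℂ S (MonoidAlgebra.of ℂ G g))
  map_one' := by rw [map_one, map_one, LinearMap.toMatrix_one]
  map_mul' g h := by rw [map_mul, map_mul, LinearMap.toMatrix_mul]

theorem rhoS_apply {n : ℕ} (b : Module.Basis (Fin n) ℂ S) (g : G) (s : S) :
    (rhoS S b g).mulVec (b.equivFun s) = b.equivFun (MonoidAlgebra.of ℂ G g • s) := by
  have h1 : rhoS S b g = LinearMap.toMatrix b b (Algebra.lsmul ℂ ℂ S (MonoidAlgebra.of ℂ G g)) := rfl
  rw [h1]
  have h2 := LinearMap.toMatrix_mulVec_repr b b (Algebra.lsmul ℂ ℂ S (MonoidAlgebra.of ℂ G g)) s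
  exact h2

theorem ext_rhoS {n : ℕ} (b : Module.Basis (Fin n) ℂ S) (x : MonoidAlgebra ℤ G) :
    ext (rhoS S b) x = LinearMap.toMatrixAlgEquiv b (Algebra.lsmul ℂ ℂ S (toC x)) := by
  induction x using MonoidAlgebra.induction_linear with
  | zero => rw [map_zero, map_zero, map_zero, map_zero]
  | add f g hf hg => rw [map_add, map_add, map_add, map_add, hf, hg]
  | single g m =>
    rw [ext_single, toC_single]
    have h1 : (MonoidAlgebra.single g (m : ℂ) : MonoidAlgebra ℂ G)
        = m • MonoidAlgebra.of ℂ G g := by
      rw [MonoidAlgebra.of_apply, MonoidAlgebra.smul_single]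
      simp
    rw [h1, map_zsmul, map_zsmul]
    rfl

theorem faithful (x : MonoidAlgebra ℤ G) (h : ∀ π : IrrRep G, ext π.ρ x = 0) : x = 0 := by
  classical
  have hcard : NeZero (Nat.card G : ℂ) := ⟨by
    have : 0 < Nat.card G := Nat.card_pos
    exact_mod_cast this.ne'⟩
  have hS : ∀ S : Submodule (MonoidAlgebra ℂ G) (MonoidAlgebra ℂ G),
      IsSimpleModule (MonoidAlgebra ℂ G) S → ∀ s ∈ S, toC x * s = 0 := by
    intro S hsimp s hs
    have hfin := fin_sub S
    let n := Module.finrank ℂ S
    let b : Module.Basis (Fin n) ℂ S := Module.finBasis ℂ S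
    have hnt : Nontrivial S := hsimp.nontrivial
    have hpos : 0 < n := Module.finrank_pos
    have hirr : ∀ W : Submodule ℂ (Fin n → ℂ), (∀ g : G, ∀ v ∈ W, (rhoS S b g).mulVec v ∈ W) →
        W = ⊥ ∨ W = ⊤ := by
      intro W hW
      let W' : Submodule (MonoidAlgebra ℂ G) S :=
        { carrier := {s | b.equivFun s ∈ W}
          add_mem' := fun {u v} hu hv => by
            simp only [Set.mem_ofPred_eq] at hu hv ⊢
            rw [map_add]
            exact W.add_mem hu hv
          zero_mem' := by simp
          smul_mem' := fun c u hu => by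
            induction c using MonoidAlgebra.induction_linear with
            | zero => simp
            | add f g hf hg =>
              simp only [Set.mem_ofPred_eq] at hf hg ⊢
              rw [add_smul, map_add]
              exact W.add_mem hf hg
            | single g m =>
              simp only [Set.mem_ofPred_eq] at hu ⊢
              have h1 : (MonoidAlgebra.single g m : MonoidAlgebra ℂ G)
                  = m • MonoidAlgebra.of ℂ G g := by
                rw [MonoidAlgebra.of_apply, MonoidAlgebra.smul_single]
                simp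
              rw [h1, smul_assoc, map_smul, ← rhoS_apply]
              exact W.smul_mem m (hW g _ hu) }
      rcases hsimp.1 with ⟨⟩
      rcases eq_bot_or_eq_top W' with h1 | h1
      · left
        rw [eq_bot_iff]
        intro v hv
        have h2 : b.equivFun.symm v ∈ W' := by
          change b.equivFun (b.equivFun.symm v) ∈ W
          rwa [LinearEquiv.apply_symm_apply]
        rw [h1, Submodule.mem_bot] at h2
        rw [Submodule.mem_bot]
        exact (LinearEquiv.map_eq_zero_iff _).1 h2
      · right
        rw [eq_top_iff]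
        intro v _
        have h2 : b.equivFun.symm v ∈ W' := by rw [h1]; trivial
        have h3 : b.equivFun (b.equivFun.symm v) ∈ W := h2
        rwa [LinearEquiv.apply_symm_apply] at h3
    have h1 := h ⟨n, rhoS S b, hpos, hirr⟩
    rw [ext_rhoS] at h1
    have h2 : Algebra.lsmul ℂ ℂ S (toC x) = 0 := (LinearMap.toMatrixAlgEquiv b).injective
      (by rw [h1, map_zero])
    have h3 := LinearMap.congr_fun h2 ⟨s, hs⟩
    exact congrArg Subtype.val h3
  obtain ⟨T, -, hT1, hT2⟩ := IsSemisimpleModule.exists_sSupIndep_sSup_simples_eq_top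
    (MonoidAlgebra ℂ G) (MonoidAlgebra ℂ G)
  apply toC_injective
  rw [map_zero]
  have h1 : (1 : MonoidAlgebra ℂ G) ∈ sSup T := by rw [hT1]; trivial
  rw [sSup_eq_iSup'] at h1
  have h2 := Submodule.iSup_induction (fun S : T => (S : Submodule (MonoidAlgebra ℂ G)
    (MonoidAlgebra ℂ G))) (motive := fun s => toC x * s = 0) h1
    (fun S s hs => hS S (hT2 S S.2) s hs) (mul_zero _)
    (fun u v hu hv => by rw [mul_add, hu, hv, add_zero])
  rwa [mul_one] at h2

/-- elements acting by scalars are central -/
theorem central_of_scalar (z : MonoidAlgebra ℤ G)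
    (h : ∀ π : IrrRep G, ∃ s : ℂ, ext π.ρ z = s • (1 : Matrix (Fin π.n) (Fin π.n) ℂ)) :
    z ∈ Subring.center (MonoidAlgebra ℤ G) := by
  rw [Subring.mem_center_iff]
  intro y
  rw [← sub_eq_zero]
  apply faithful
  intro π
  obtain ⟨s, hs⟩ := h π
  rw [map_sub, map_mul, map_mul, hs, smul_mul_assoc, mul_smul_comm, one_mul, mul_one, sub_self]

end

end H25SI
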