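import Mathlib
import Pool.Agent.H25.SI.Gen
import Pool.Agent.H25.SI.Fai

/-!
# Metabelian groups: the denominator divides the order of the commutator subgroup
-/

set_option autoImplicit false
set_option linter.unusedSectionVars false

namespace H25SI

open Matrix
open scoped IsMulCommutative

section
variable {G : Type} [Group G] [Fintype G] (A : Subgroup G)

/-- the largest normal subgroup of `G` in the commutator subgroup on which `ψ` is trivial -/
noncomputable def coreK (ψ : A →* ℂˣ) : Subgroup G :=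
  (ψ.ker.map A.subtype).normalCore ⊓ commutator G

instance coreK_normal (ψ : A →* ℂˣ) : (coreK A ψ).Normal := by
  unfold coreK
  infer_instance

theorem coreK_le (ψ : A →* ℂˣ) : coreK A ψ ≤ ψ.ker.map A.subtype :=
  inf_le_left.trans (Subgroup.normalCore_le _)

theorem coreK_le_comm (ψ : A →* ℂˣ) : coreK A ψ ≤ commutator G := inf_le_right

theorem le_coreK_iff (ψ : A →* ℂˣ) (N : Subgroup G) [N.Normal] (hN : N ≤ commutator G) :
    N ≤ coreK A ψ ↔ N ≤ ψ.ker.map A.subtype := by
  constructor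
  · intro h
    exact h.trans (coreK_le A ψ)
  · intro h
    exact le_inf (Subgroup.normal_le_normalCore.2 h) hN

theorem mem_map_ker (ψ : A →* ℂˣ) (g : G) : g ∈ ψ.ker.map A.subtype ↔ ∃ h : g ∈ A, ψ ⟨g, h⟩ = 1 := by
  constructor
  · rintro ⟨a, ha, rfl⟩
    exact ⟨a.2, ha⟩
  · rintro ⟨h, h1⟩
    exact ⟨⟨g, h⟩, h1, rfl⟩

theorem coreK_cj [A.Normal] (ψ : A →* ℂˣ) (g : G) : coreK A (cj A g ψ) = coreK A ψ := by
  have key : ∀ (g : G) (ψ : A →* ℂˣ), coreK A ψ ≤ coreK A (cj A g ψ) := by
    intro g ψ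
    rw [le_coreK_iff A _ _ (coreK_le_comm A ψ)]
    intro x hx
    have h1 : g * x * g⁻¹ ∈ coreK A ψ := (coreK_normal A ψ).conj_mem x hx g
    obtain ⟨h2, h3⟩ := (mem_map_ker A ψ _).1 (coreK_le A ψ h1)
    obtain ⟨h4, -⟩ := (mem_map_ker A ψ _).1 (coreK_le A ψ hx)
    rw [mem_map_ker]
    refine ⟨h4, ?_⟩
    have h5 : cj A g ψ ⟨x, h4⟩ = ψ (MulAut.conjNormal g ⟨x, h4⟩) := rfl
    rw [h5, ← h3]
    congr 1
  refine le_antisymm ?_ (key g ψ)
  have h1 := key g⁻¹ (cj A g ψ)
  rwa [cj_cjG, mul_inv_cancel, cj_oneG] at h1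

/-- the idempotent-like elements -/
theorem exists_uK [A.Normal] [IsMulCommutative A] [Fintype A] (hGA : commutator G ≤ A)
    (K : Subgroup G) : ∃ u : MonoidAlgebra ℤ A, ∀ ψ : A →* ℂˣ,
      (coreK A ψ = K → ev ψ u = (Nat.card (commutator G) : ℂ)) ∧ (coreK A ψ ≠ K → ev ψ u = 0) := by
  classical
  induction K using WellFoundedGT.induction with
  | _ K ih =>
    by_cases hK : K.Normal ∧ K ≤ commutator G
    · obtain ⟨hK1, hK2⟩ := hK
      have hKA : K ≤ A := hK2.trans hGA
      have iK : Fintype K := Fintype.ofFinite _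
      choose u hu using ih
      obtain ⟨m, hm⟩ : Nat.card K ∣ Nat.card (commutator G) := Subgroup.card_dvd_of_le hK2
      let U : MonoidAlgebra ℤ A := (m : ℤ) • ∑ k : K, MonoidAlgebra.single (Subgroup.inclusion hKA k) 1
      have hU : ∀ ψ : A →* ℂˣ, (K ≤ coreK A ψ → ev ψ U = (Nat.card (commutator G) : ℂ)) ∧
          (¬ K ≤ coreK A ψ → ev ψ U = 0) := by
        intro ψ
        have h1 : ev ψ U = (m : ℂ) * if ψ.comp (Subgroup.inclusion hKA) = 1 then
            (Fintype.card K : ℂ) else 0 := by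
          simp only [U]
          rw [map_zsmul, map_sum, zsmul_eq_mul, Int.cast_natCast, ← sum_groupG]
          congr 1
          refine Finset.sum_congr rfl fun k _ => ?_
          rw [ev_single, Int.cast_one, one_mul]
          rfl
        have h2 : ψ.comp (Subgroup.inclusion hKA) = 1 ↔ K ≤ coreK A ψ := by
          rw [le_coreK_iff A ψ K hK2]
          constructor
          · intro h x hx
            rw [mem_map_ker]
            exact ⟨hKA hx, DFunLike.congr_fun h ⟨x, hx⟩⟩
          · intro h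
            apply MonoidHom.ext
            intro k
            obtain ⟨h3, h4⟩ := (mem_map_ker A ψ _).1 (h k.2)
            exact h4
        constructor
        · intro h
          rw [h1, if_pos (h2.2 h), hm, ← Nat.card_eq_fintype_card]
          push_cast
          ring
        · intro h
          rw [h1, if_neg fun hh => h (h2.1 hh), mul_zero]
      have i3 : Fintype (Subgroup G) := Fintype.ofFinite _
      refine ⟨U - ∑ K' : Subgroup G, if h : K < K' then u K' h else 0, fun ψ => ?_⟩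
      have h1 : ev ψ (∑ K' : Subgroup G, if h : K < K' then u K' h else 0)
          = if K < coreK A ψ then (Nat.card (commutator G) : ℂ) else 0 := by
        rw [map_sum, Finset.sum_eq_single (coreK A ψ)]
        · by_cases h : K < coreK A ψ
          · rw [dif_pos h, if_pos h, (hu _ h ψ).1 rfl]
          · rw [dif_neg h, if_neg h, map_zero]
        · intro K' _ hK'
          by_cases h : K < K'
          · rw [dif_pos h, (hu _ h ψ).2 (Ne.symm hK')]
          · rw [dif_neg h, map_zero]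
        · intro h
          exact absurd (Finset.mem_univ _) h
      rw [map_sub, h1]
      constructor
      · intro h
        rw [(hU ψ).1 h.ge, if_neg h.not_gt, sub_zero]
      · intro h
        by_cases h2 : K ≤ coreK A ψ
        · rw [(hU ψ).1 h2, if_pos (lt_of_le_of_ne h2 (Ne.symm h)), sub_self]
        · rw [(hU ψ).2 h2, if_neg fun hh => h2 hh.le, sub_zero]
    · refine ⟨0, fun ψ => ⟨fun h => ?_, fun _ => map_zero _⟩⟩
      exfalso
      apply hK
      rw [← h]
      exact ⟨coreK_normal A ψ, inf_le_right⟩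

/-- a maximal subgroup with commutators in `K` -/
theorem exists_Lk (hA : ∀ a ∈ A, ∀ b ∈ A, a * b = b * a) (K : Subgroup G) :
    ∃ L : Subgroup G, A ≤ L ∧ (∀ x ∈ L, ∀ y ∈ L, x * y * x⁻¹ * y⁻¹ ∈ K) ∧
      ∀ L' : Subgroup G, L ≤ L' → (∀ x ∈ L', ∀ y ∈ L', x * y * x⁻¹ * y⁻¹ ∈ K) → L' = L := by
  let S : Set (Subgroup G) := {L | A ≤ L ∧ ∀ x ∈ L, ∀ y ∈ L, x * y * x⁻¹ * y⁻¹ ∈ K}
  have hS : S.Nonempty := ⟨A, le_rfl, fun x hx y hy => by
    rw [hA x hx y hy, mul_inv_cancel_right, mul_inv_cancel]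
    exact K.one_mem⟩
  obtain ⟨L, hL1, hL2⟩ := (Set.toFinite S).exists_maximal hS
  refine ⟨L, hL1.1, hL1.2, fun L' h1 h2 => ?_⟩
  exact le_antisymm (hL2 ⟨hL1.1.trans h1, h2⟩ h1) h1

/-- commuting generators modulo `K` -/
theorem comm_closure (L K : Subgroup G) [K.Normal] (hL : ∀ x ∈ L, ∀ y ∈ L, x * y * x⁻¹ * y⁻¹ ∈ K)
    (g : G) (hg : ∀ l ∈ L, g * l * g⁻¹ * l⁻¹ ∈ K) :
    ∀ x ∈ L ⊔ Subgroup.zpowers g, ∀ y ∈ L ⊔ Subgroup.zpowers g, x * y * x⁻¹ * y⁻¹ ∈ K := by
  have hc : ∀ x y : G, x * y * x⁻¹ * y⁻¹ ∈ K ↔ (x : G ⧸ K) * y = y * x := by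
    intro x y
    rw [← QuotientGroup.eq_one_iff, QuotientGroup.mk_mul, QuotientGroup.mk_mul,
      QuotientGroup.mk_mul, QuotientGroup.mk_inv, QuotientGroup.mk_inv, mul_inv_eq_one,
      mul_inv_eq_iff_eq_mul]
  let Z : Subgroup G :=
    { carrier := {x | ∀ l ∈ L, x * l * x⁻¹ * l⁻¹ ∈ K}
      one_mem' := fun l _ => by
        rw [hc, QuotientGroup.mk_one, one_mul, mul_one]
      mul_mem' := fun {x y} hx hy l hl => by
        have h1 := (hc _ _).1 (hx l hl)
        have h2 := (hc _ _).1 (hy l hl)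
        rw [hc, QuotientGroup.mk_mul, mul_assoc, h2, ← mul_assoc, h1, mul_assoc]
      inv_mem' := fun {x} hx l hl => by
        have h1 := (hc _ _).1 (hx l hl)
        rw [hc, QuotientGroup.mk_inv]
        rw [inv_mul_eq_iff_eq_mul, ← mul_assoc, h1, mul_inv_cancel_right] }
  have h1 : L ⊔ Subgroup.zpowers g ≤ Z := by
    rw [sup_le_iff, Subgroup.zpowers_le]
    exact ⟨fun x hx l hl => hL x hx l hl, hg⟩
  let Z2 : Subgroup G :=
    { carrier := {x | ∀ l ∈ L ⊔ Subgroup.zpowers g, x * l * x⁻¹ * l⁻¹ ∈ K}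
      one_mem' := fun l _ => by
        rw [hc, QuotientGroup.mk_one, one_mul, mul_one]
      mul_mem' := fun {x y} hx hy l hl => by
        have h1 := (hc _ _).1 (hx l hl)
        have h2 := (hc _ _).1 (hy l hl)
        rw [hc, QuotientGroup.mk_mul, mul_assoc, h2, ← mul_assoc, h1, mul_assoc]
      inv_mem' := fun {x} hx l hl => by
        have h1 := (hc _ _).1 (hx l hl)
        rw [hc, QuotientGroup.mk_inv]
        rw [inv_mul_eq_iff_eq_mul, ← mul_assoc, h1, mul_inv_cancel_right] }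
  have hsymm : ∀ x y : G, x * y * x⁻¹ * y⁻¹ ∈ K → y * x * y⁻¹ * x⁻¹ ∈ K := by
    intro x y h
    rw [hc] at h ⊢
    exact h.symm
  have h2 : L ⊔ Subgroup.zpowers g ≤ Z2 := by
    rw [sup_le_iff, Subgroup.zpowers_le]
    refine ⟨fun x hx l hl => hsymm _ _ (h1 hl x hx), ?_⟩
    intro l hl
    -- `g` commutes with `L` and itself
    have h3 : L ⊔ Subgroup.zpowers g ≤ (Subgroup.centralizer {(g : G ⧸ K)}).comap
        (QuotientGroup.mk' K) := by
      rw [sup_le_iff, Subgroup.zpowers_le]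
      constructor
      · intro x hx
        rw [Subgroup.mem_comap, Subgroup.mem_centralizer_iff]
        intro q hq
        rw [Set.mem_singleton_iff.1 hq]
        exact (hc _ _).1 (hg x hx)
      · rw [Subgroup.mem_comap, Subgroup.mem_centralizer_iff]
        intro q hq
        rw [Set.mem_singleton_iff.1 hq]
        rfl
    have h4 := h3 hl
    rw [Subgroup.mem_comap, Subgroup.mem_centralizer_iff] at h4
    rw [hc]
    exact h4 _ rfl
  exact fun x hx y hy => h2 hx y hy

end

end H25SI
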