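import Mathlib
import Pool.Agent.H25.SI.Met

/-!
# Metabelian groups: irreducible representations and the main theorem
-/

set_option autoImplicit false
set_option linter.unusedSectionVars false

namespace H25SI

open Matrix
open scoped IsMulCommutative

section
variable {G : Type} [Group G] [Fintype G]

theorem normal_of_comm {A L : Subgroup G} (hQ : ∀ x y : G, x * y * x⁻¹ * y⁻¹ ∈ A) (h : A ≤ L) :
    L.Normal := ⟨fun l hl g => by
  have h1 := L.mul_mem (h (hQ g l)) hl
  have e : g * l * g⁻¹ * l⁻¹ * l = g * l * g⁻¹ := by group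
  rwa [e] at h1⟩

/-- a vector whose translates are eigenvectors of `z` for one eigenvalue -/
theorem scalar_of_translates (π : IrrRep G) (v : Fin π.n → ℂ) (hv : v ≠ 0)
    (M : Matrix (Fin π.n) (Fin π.n) ℂ) (s : ℂ)
    (h : ∀ g : G, M.mulVec ((π.ρ g).mulVec v) = s • (π.ρ g).mulVec v) :
    M = s • (1 : Matrix (Fin π.n) (Fin π.n) ℂ) := by
  let S : Submodule ℂ (Fin π.n → ℂ) := Submodule.span ℂ (Set.range fun g : G => (π.ρ g).mulVec v)
  have hS : S = ⊤ := by
    rcases π.irr S (fun g w hw => by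
      induction hw using Submodule.span_induction with
      | mem x hx =>
        obtain ⟨t, rfl⟩ := hx
        refine Submodule.subset_span ⟨g * t, ?_⟩
        simp only
        rw [map_mul, Matrix.mulVec_mulVec]
      | zero =>
        rw [Matrix.mulVec_zero]
        exact S.zero_mem
      | add x y _ _ hx hy =>
        rw [Matrix.mulVec_add]
        exact S.add_mem hx hy
      | smul a x _ hx =>
        rw [Matrix.mulVec_smul]
        exact S.smul_mem a hx) with hh | hh
    · exfalso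
      have h1 : v ∈ S := Submodule.subset_span ⟨1, by simp only; rw [map_one, Matrix.one_mulVec]⟩
      rw [hh, Submodule.mem_bot] at h1
      exact hv h1
    · exact hh
  apply Matrix.toLin'.injective
  apply LinearMap.ext
  intro w
  rw [Matrix.toLin'_apply, Matrix.toLin'_apply, Matrix.smul_mulVec, Matrix.one_mulVec]
  have hw : w ∈ S := by rw [hS]; trivial
  induction hw using Submodule.span_induction with
  | mem x hx =>
    obtain ⟨t, rfl⟩ := hx
    exact h t
  | zero => rw [Matrix.mulVec_zero, smul_zero]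
  | add x y _ _ hx hy => rw [Matrix.mulVec_add, hx, hy, smul_add]
  | smul a x _ hx => rw [Matrix.mulVec_smul, hx, smul_comm]

theorem ext_embG (L : Subgroup G) [Fintype L] {n : Type} [Fintype n] [DecidableEq n]
    (ρ : G →* Matrix n n ℂ) (s : MonoidAlgebra ℤ L) :
    ext ρ (emb L s) = ∑ a : L, s.coeff a • ρ (a : G) := by
  rw [emb, map_sum]
  refine Finset.sum_congr rfl fun a _ => ?_
  rw [ext_single]

theorem ext_emb_eigG (L : Subgroup G) [Fintype L] {n : Type} [Fintype n] [DecidableEq n]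
    (ρ : G →* Matrix n n ℂ) (ψ : L →* ℂˣ) (v : n → ℂ)
    (hv : ∀ a : L, (ρ (a : G)).mulVec v = cv ψ a • v)
    (t : MonoidAlgebra ℤ L) : (ext ρ (emb L t)).mulVec v = ev ψ t • v := by
  rw [ext_embG, Matrix.sum_mulVec, ev_sum, Finset.sum_smul]
  refine Finset.sum_congr rfl fun a _ => ?_
  rw [Matrix.smul_mulVec, hv, mul_smul, ← Int.cast_smul_eq_zsmul ℂ]
  rfl

/-- common eigenvectors of a group acting commutatively on a vector -/
theorem exists_common {L : Type} [Group L] [Fintype L] {n : Type} [Fintype n] [DecidableEq n]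
    (σ : L →* Matrix n n ℂ) (w : n → ℂ) (hw : w ≠ 0)
    (h : ∀ l : L, Abelianization.of l = 1 → (σ l).mulVec w = w) :
    ∃ (η : L →* ℂˣ), ∑ l : L, cv η l⁻¹ • (σ l).mulVec w ≠ 0 := by
  classical
  have i1 : Fintype (Abelianization L) := Fintype.ofFinite _
  by_contra hc
  push Not at hc
  have h1 : ∑ μ : Abelianization L →* ℂˣ, ∑ l : L,
      cv (μ.comp Abelianization.of) l⁻¹ • (σ l).mulVec w = 0 :=
    Finset.sum_eq_zero fun μ _ => hc _
  rw [Finset.sum_comm] at h1
  have h2 : ∀ l : L, ∑ μ : Abelianization L →* ℂˣ,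
      cv (μ.comp Abelianization.of) l⁻¹ • (σ l).mulVec w
      = (if Abelianization.of l = 1 then (Fintype.card (Abelianization L) : ℂ) else 0) • w := by
    intro l
    rw [← Finset.sum_smul]
    have h3 := sum_chars (Abelianization.of l⁻¹)
    have h4 : ∀ μ : Abelianization L →* ℂˣ, cv (μ.comp Abelianization.of) l⁻¹
        = ((μ (Abelianization.of l⁻¹) : ℂˣ) : ℂ) := fun μ => rfl
    rw [Finset.sum_congr rfl fun μ _ => h4 μ, h3]
    by_cases hl : Abelianization.of l = 1
    · rw [if_pos (by rw [map_inv, hl, inv_one]), if_pos hl, h l hl]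
    · rw [if_neg (by rwa [map_inv, inv_eq_one]), if_neg hl, zero_smul, zero_smul]
  rw [Finset.sum_congr rfl fun l _ => h2 l, ← Finset.sum_smul, Finset.sum_ite,
    Finset.sum_const_zero, add_zero, Finset.sum_const, nsmul_eq_mul] at h1
  have h5 : (0 : ℕ) < (Finset.univ.filter fun l : L => Abelianization.of l = 1).card :=
    Finset.card_pos.2 ⟨1, Finset.mem_filter.2 ⟨Finset.mem_univ _, map_one _⟩⟩
  have h6 : (0 : ℕ) < Fintype.card (Abelianization L) := Fintype.card_pos
  have h7 : (((Finset.univ.filter fun l : L => Abelianization.of l = 1).card : ℂ)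
      * (Fintype.card (Abelianization L) : ℂ)) ≠ 0 := by
    refine mul_ne_zero ?_ ?_
    · exact_mod_cast h5.ne'
    · exact_mod_cast h6.ne'
  exact (smul_ne_zero h7 hw) h1

theorem common_eig {L : Type} [Group L] [Fintype L] {n : Type} [Fintype n] [DecidableEq n]
    (σ : L →* Matrix n n ℂ) (w : n → ℂ) (η : L →* ℂˣ) (b : L) :
    (σ b).mulVec (∑ l : L, cv η l⁻¹ • (σ l).mulVec w)
      = cv η b • ∑ l : L, cv η l⁻¹ • (σ l).mulVec w := by
  rw [Matrix.mulVec_sum, Finset.smul_sum]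
  refine Fintype.sum_equiv (Equiv.mulLeft b) _ _ fun a => ?_
  simp only [Equiv.coe_mulLeft]
  have e : cv η b * cv η (b * a)⁻¹ = cv η a⁻¹ := by
    rw [← map_mul, cv_apply, cv_apply, map_mul, map_inv, map_mul, _root_.mul_inv_rev,
      mul_comm (η a)⁻¹, mul_inv_cancel_left, map_inv]
  rw [Matrix.mulVec_smul, Matrix.mulVec_mulVec, ← map_mul σ, smul_smul, e]

variable (A : Subgroup G) [A.Normal]

theorem exists_datM [IsMulCommutative A] (hQ : ∀ x y : G, x * y * x⁻¹ * y⁻¹ ∈ A)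
    (L : Subgroup G → Subgroup G) (hL1 : ∀ K, A ≤ L K)
    (hL2 : ∀ K, ∀ x ∈ L K, ∀ y ∈ L K, x * y * x⁻¹ * y⁻¹ ∈ K)
    (hL3 : ∀ K, ∀ L' : Subgroup G, L K ≤ L' → (∀ x ∈ L', ∀ y ∈ L', x * y * x⁻¹ * y⁻¹ ∈ K) →
      L' = L K) (π : IrrRep G) :
    ∃ (ψ : A →* ℂˣ) (η : L (coreK A ψ) →* ℂˣ) (v : Fin π.n → ℂ), v ≠ 0 ∧
      (∀ a : A, (π.ρ (a : G)).mulVec v = cv ψ a • v) ∧
      (∀ l : L (coreK A ψ), (π.ρ (l : G)).mulVec v = cv η l • v) ∧
      ∀ g, (π.ρ g).trace = indChar (L (coreK A ψ)) η g := by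
  classical
  have i1 : Fintype (G ⧸ A) := Fintype.ofFinite _
  have i2 : Fintype A := Fintype.ofFinite _
  obtain ⟨ψ, w, hw0, hw⟩ := exists_eig A π
  set K := coreK A ψ with hK
  have hKn : K.Normal := coreK_normal A ψ
  have hKψ : ∀ k ∈ K, ∃ h : k ∈ A, ψ ⟨k, h⟩ = 1 := fun k hk =>
    (mem_map_ker A ψ k).1 (coreK_le A ψ hk)
  have hLn : (L K).Normal := normal_of_comm hQ (hL1 K)
  have i3 : Fintype (L K) := Fintype.ofFinite _
  have i4 : Fintype (G ⧸ L K) := Fintype.ofFinite _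
  -- `L` preserves the eigenspace
  have h2 : ∀ (l : L K) (a : A), (π.ρ (a : G)).mulVec ((π.ρ (l : G)).mulVec w)
      = cv ψ a • (π.ρ (l : G)).mulVec w := by
    intro l a
    have h3 := eig_conjG A π.ρ ψ w hw (l : G) a
    rw [h3]
    congr 1
    have h4 : cj A (l : G)⁻¹ ψ a = ψ (MulAut.conjNormal (l : G)⁻¹ a) := rfl
    have h5 := hL2 K (l : G)⁻¹ ((L K).inv_mem l.2) (a : G) (hL1 K a.2)
    obtain ⟨h6, h7⟩ := hKψ _ h5
    have h8 : (MulAut.conjNormal (l : G)⁻¹ a : A) = ⟨_, h6⟩ * a := by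
      apply Subtype.ext
      rw [MulAut.conjNormal_apply, Subgroup.coe_mul]
      simp only
      group
    rw [cv_apply, cv_apply, h4, h8, map_mul, h7, one_mul]
  let σ : L K →* Matrix (Fin π.n) (Fin π.n) ℂ := π.ρ.comp (L K).subtype
  obtain ⟨η, hη⟩ := exists_common σ w hw0 (fun l hl => by
    have h3 : l ∈ commutator (L K) := by
      rw [← Abelianization.ker_of]
      exact hl
    have h4 : commutator (L K) ≤ K.subgroupOf (L K) := by
      rw [commutator_def, Subgroup.commutator_le]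
      intro x _ y _
      rw [Subgroup.mem_subgroupOf]
      exact hL2 K x x.2 y y.2
    have h5 : (l : G) ∈ K := h4 h3
    obtain ⟨h6, h7⟩ := hKψ _ h5
    have h8 := hw ⟨(l : G), h6⟩
    rw [cv_apply, h7, Units.val_one, one_smul] at h8
    exact h8)
  set v : Fin π.n → ℂ := ∑ l : L K, cv η l⁻¹ • (σ l).mulVec w with hv
  have hvL : ∀ l : L K, (π.ρ (l : G)).mulVec v = cv η l • v := fun l => common_eig σ w η l
  have hvA : ∀ a : A, (π.ρ (a : G)).mulVec v = cv ψ a • v := by
    intro a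
    rw [hv, Matrix.mulVec_sum, Finset.smul_sum]
    refine Finset.sum_congr rfl fun l _ => ?_
    rw [Matrix.mulVec_smul, smul_comm]
    congr 1
    exact h2 l a
  have hηψ : ∀ (g : G) (h : g ∈ A), η ⟨g, hL1 K h⟩ = ψ ⟨g, h⟩ := by
    intro g h
    have h3 := hvL ⟨g, hL1 K h⟩
    have h4 := hvA ⟨g, h⟩
    have h5 : cv η ⟨g, hL1 K h⟩ • v = cv ψ ⟨g, h⟩ • v := h3.symm.trans h4
    exact Units.ext (smul_left_injective ℂ hη h5)
  refine ⟨ψ, η, v, hη, hvA, hvL, ?_⟩
  obtain ⟨e, he⟩ := induced_caseG (L K) π η v hη hvL (fun g hg => by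
    have h3 : ∀ l ∈ L K, g * l * g⁻¹ * l⁻¹ ∈ K := by
      have h4 : ∀ (l : G) (hl : l ∈ L K), ψ ⟨g * l * g⁻¹ * l⁻¹, hQ g l⟩ = 1 := by
        intro l hl
        rw [← hηψ]
        have h5 : (⟨g * l * g⁻¹ * l⁻¹, hL1 K (hQ g l)⟩ : L K)
            = MulAut.conjNormal g ⟨l, hl⟩ * (⟨l, hl⟩ : L K)⁻¹ := by
          apply Subtype.ext
          rw [Subgroup.coe_mul, MulAut.conjNormal_apply]
          rfl
        have h6 : η (MulAut.conjNormal g ⟨l, hl⟩) = η ⟨l, hl⟩ := DFunLike.congr_fun hg ⟨l, hl⟩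
        rw [h5, map_mul, h6, ← map_mul, mul_inv_cancel, map_one]
      intro l hl
      rw [hK, coreK, Subgroup.mem_inf]
      constructor
      · change ∀ t : G, t * (g * l * g⁻¹ * l⁻¹) * t⁻¹ ∈ ψ.ker.map A.subtype
        intro t
        rw [mem_map_ker]
        -- `t [g, l] t⁻¹ = [g c, l']`
        have hl' : t * l * t⁻¹ ∈ L K := hLn.conj_mem l hl t
        set l' := t * l * t⁻¹ with hl'd
        set c := g⁻¹ * t * g * t⁻¹ with hcd
        have hc : c ∈ L K := by
          apply hL1 K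
          have := hQ g⁻¹ t
          rwa [inv_inv] at this
        have e1 : t * (g * l * g⁻¹ * l⁻¹) * t⁻¹
            = (g * (c * l' * c⁻¹ * l'⁻¹) * g⁻¹) * (g * l' * g⁻¹ * l'⁻¹) := by
          rw [hcd, hl'd]
          group
        have h5 : g * (c * l' * c⁻¹ * l'⁻¹) * g⁻¹ ∈ K := hKn.conj_mem _ (hL2 K c hc l' hl') g
        obtain ⟨h6, h7⟩ := hKψ _ h5
        rw [e1]
        refine ⟨A.mul_mem h6 (hQ g l'), ?_⟩
        have e2 : (⟨g * (c * l' * c⁻¹ * l'⁻¹) * g⁻¹ * (g * l' * g⁻¹ * l'⁻¹),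
            A.mul_mem h6 (hQ g l')⟩ : A) = ⟨_, h6⟩ * ⟨_, hQ g l'⟩ := rfl
        rw [e2, map_mul, h7, one_mul]
        exact h4 l' hl'
      · rw [commutator_def]
        exact Subgroup.commutator_mem_commutator (Subgroup.mem_top g) (Subgroup.mem_top l)
    have h4 := hL3 K (L K ⊔ Subgroup.zpowers g) le_sup_left (comm_closure (L K) K (hL2 K) g h3)
    rw [← h4]
    exact Subgroup.mem_sup_right (Subgroup.mem_zpowers g))
  obtain ⟨-, h3⟩ := ext_intertwine π.ρ (indM (L K) (cv η)) e he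
  intro g
  rw [h3, trace_indMG]

theorem metabelian (hA : ∀ a ∈ A, ∀ b ∈ A, a * b = b * a)
    (hQ : ∀ x y : G, x * y * x⁻¹ * y⁻¹ ∈ A) (Λ : (G → ℂ) → ℂ)
    (hΛ : ∀ H : Subgroup G, A ≤ H → IntegralAt Λ H) :
    ∃ z ∈ Subring.center (MonoidAlgebra ℤ G), ∀ π : IrrRep G,
      centralValue z π = (Nat.card (commutator G) : ℂ) * theta Λ π := by
  classical
  have i0 : IsMulCommutative A := ⟨⟨fun a b => Subtype.ext (hA a a.2 b b.2)⟩⟩
  have i1 : Fintype (G ⧸ A) := Fintype.ofFinite _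
  have i2 : Fintype A := Fintype.ofFinite _
  have i3 : Fintype (Subgroup G) := Fintype.ofFinite _
  have i4 : ∀ H : Subgroup G, Fintype H := fun H => Fintype.ofFinite _
  choose L hL1 hL2 hL3 using exists_Lk A hA
  have hGA : commutator G ≤ A := by
    rw [commutator_def, Subgroup.commutator_le]
    intro x _ y _
    exact hQ x y
  choose u hu using exists_uK A hGA
  choose b hb using fun K : Subgroup G => hΛ (L K) (hL1 K)
  let z : MonoidAlgebra ℤ G := ∑ K : Subgroup G, emb A (u K) * emb (L K) (b K)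
  have key : ∀ π : IrrRep G, ext π.ρ z
      = ((Nat.card (commutator G) : ℂ) * theta Λ π) • (1 : Matrix (Fin π.n) (Fin π.n) ℂ) := by
    intro π
    obtain ⟨ψ, η, v, hv0, hvA, hvL, htr⟩ := exists_datM A hQ L hL1 hL2 hL3 π
    have hLn : (L (coreK A ψ)).Normal := normal_of_comm hQ (hL1 _)
    have hθ : theta Λ π = ev η (b (coreK A ψ)) := by
      rw [theta, ← hb]
      congr 1
      funext g
      exact htr g
    have hu' : ∀ K, ext π.ρ (emb A (u K))
        = (if coreK A ψ = K then (Nat.card (commutator G) : ℂ) else 0)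
          • (1 : Matrix (Fin π.n) (Fin π.n) ℂ) := by
      intro K
      apply scalar_of_translates π v hv0
      intro g
      rw [ext_emb_eigG A π.ρ (cj A g⁻¹ ψ) _ (eig_conjG A π.ρ ψ v hvA g)]
      congr 1
      by_cases h : coreK A ψ = K
      · rw [if_pos h, (hu K _).1 (by rw [coreK_cj, h])]
      · rw [if_neg h, (hu K _).2 (by rw [coreK_cj]; exact h)]
    apply scalar_of_translates π v hv0
    intro g
    simp only [z]
    rw [map_sum, Matrix.sum_mulVec, Finset.sum_eq_single (coreK A ψ)]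
    · rw [map_mul, ← Matrix.mulVec_mulVec, hu', if_pos rfl, Matrix.smul_mulVec, Matrix.one_mulVec,
        ext_emb_eigG (L (coreK A ψ)) π.ρ (cj (L (coreK A ψ)) g⁻¹ η) _
          (eig_conjG (L (coreK A ψ)) π.ρ η v hvL g), ← hb, indChar_cjG, hb, ← hθ, smul_smul]
    · intro K _ hK
      rw [map_mul, hu', if_neg (Ne.symm hK), zero_smul, zero_mul, Matrix.zero_mulVec]
    · intro h
      exact absurd (Finset.mem_univ _) h
  refine ⟨z, central_of_scalar z fun π => ⟨_, key π⟩, fun π => ?_⟩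
  have h6 : (π.n : ℂ) ≠ 0 := by
    have := π.pos
    exact_mod_cast this.ne'
  rw [centralValue, key, Matrix.trace_smul, Matrix.trace_one, Fintype.card_fin, smul_eq_mul,
    mul_div_assoc, div_self h6, mul_one]

end

end H25SI
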