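import Mathlib
import Pool.Agent.H25.SI.Asm

/-!
# The theorem for split extensions
-/

set_option autoImplicit false
set_option linter.unusedSectionVars false

namespace H25SI

open Matrix
open scoped IsMulCommutative

section
variable {G : Type} [Group G] [Fintype G] {C : Type} [CommGroup C] [Fintype C] (κ : G →* C)
  (j : C →* G) [IsMulCommutative κ.ker] [Fintype κ.ker]

theorem cj_inv_cj (c' : C) (φ : κ.ker →* ℂˣ) :
    cj κ.ker (j c'⁻¹) (cj κ.ker (j c') φ) = φ := by
  rw [cj_cjG, ← map_mul, mul_inv_cancel, map_one, cj_oneG]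

theorem stab_cj {D : Subgroup C} {ψ : κ.ker →* ℂˣ}
    (h : ∀ c, cj κ.ker (j c) ψ = ψ ↔ c ∈ D) (c' : C) (c : C) :
    cj κ.ker (j c) (cj κ.ker (j c') ψ) = cj κ.ker (j c') ψ ↔ c ∈ D := by
  rw [← h c, cj_cjG, ← map_mul, mul_comm, map_mul, ← cj_cjG]
  constructor
  · intro hh
    have h1 := congrArg (cj κ.ker (j c'⁻¹)) hh
    rw [cj_inv_cj, cj_inv_cj] at h1
    exact h1
  · intro hh
    rw [hh]

theorem stab_cj' {D : Subgroup C} {ψ : κ.ker →* ℂˣ} (c' : C)
    (h : ∀ c, cj κ.ker (j c) (cj κ.ker (j c') ψ) = cj κ.ker (j c') ψ ↔ c ∈ D) (c : C) :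
    cj κ.ker (j c) ψ = ψ ↔ c ∈ D := by
  have h1 := stab_cj κ j h c'⁻¹ c
  rw [cj_inv_cj] at h1
  exact h1

theorem resA_stab {π : IrrRep G} (d : Dat κ j π) :
    ∀ c, cj κ.ker (j c) (resA κ d.D d.η) = resA κ d.D d.η ↔ c ∈ d.D := d.hD

/-- first multiple -/
theorem partA (hκ : ∀ c, κ (j c) = c) (Λ : (G → ℂ) → ℂ)
    (b : ∀ D : Subgroup C, MonoidAlgebra ℤ (D.comap κ))
    (hb : ∀ (D : Subgroup C) (η : D.comap κ →* ℂˣ), Λ (indChar (D.comap κ) η) = ev η (b D)) :
    ((Fintype.card κ.ker : ℤ) ^ Fintype.card C) • theta Λ ∈ integralityRing G := by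
  classical
  have i1 : Fintype (G ⧸ κ.ker) := Fintype.ofFinite _
  have i2 : ∀ D : Subgroup C, Fintype D := fun D => Fintype.ofFinite _
  let y : ∀ D : Subgroup C, D → MonoidAlgebra ℤ κ.ker := fun D c =>
    uD κ j D * be κ j D (b D) c
  have hy : ∀ (D : Subgroup C) (c : D) (ψ : κ.ker →* ℂˣ), ev ψ (y D c)
      = if (∀ c, cj κ.ker (j c) ψ = ψ ↔ c ∈ D) then
        (Fintype.card κ.ker : ℂ) ^ Fintype.card C * ev ψ (be κ j D (b D) c) else 0 := by
    intro D c ψ
    simp only [y]
    rw [map_mul, ev_uD, ite_mul, zero_mul]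
  have hinv : ∀ (D : Subgroup C) (c : D) (c' : C) (ψ : κ.ker →* ℂˣ),
      ev (cj κ.ker (j c') ψ) (y D c) = ev ψ (y D c) := by
    intro D c c' ψ
    rw [hy, hy]
    by_cases h : ∀ c, cj κ.ker (j c) ψ = ψ ↔ c ∈ D
    · rw [if_pos h, if_pos (stab_cj κ j h c'),
        be_conj κ j hκ D (b D) Λ (hb D) ψ (fun c hc => (h c).2 hc) c' c]
    · rw [if_neg h, if_neg fun hh => h (stab_cj' κ j c' hh)]
  have hcen : ∀ (D : Subgroup C) (c : D), emb κ.ker (y D c) * MonoidAlgebra.single (j c) 1
      ∈ Subring.center (MonoidAlgebra ℤ G) := by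
    intro D c
    apply central_piece κ j hκ
    · exact emb_center κ.ker _ (inv_of_evC κ j hκ _ (hinv D c))
    · intro a
      rw [← sub_eq_zero]
      apply ev_separates
      intro ψ
      have hm : ∀ (t : MonoidAlgebra ℤ κ.ker) (a : κ.ker),
          ev ψ (t * MonoidAlgebra.single a 1) = ev ψ t * ((ψ a : ℂˣ) : ℂ) := by
        intro t a
        rw [map_mul, ev_single, Int.cast_one, one_mul]
      rw [map_sub, hm, hm, sub_eq_zero, hy]
      by_cases h : ∀ c, cj κ.ker (j c) ψ = ψ ↔ c ∈ D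
      · congr 2
        have h1 := DFunLike.congr_fun ((h c).2 c.2) a
        have h2 : ψ (MulAut.conjNormal (j (c : C)) a) = ψ a := h1
        rw [h2]
      · rw [if_neg h, zero_mul, zero_mul]
  have key : ((Fintype.card κ.ker : ℤ) ^ Fintype.card C) • theta Λ
      = ∑ D : Subgroup C, ∑ c : D,
          centralValue (emb κ.ker (y D c) * MonoidAlgebra.single (j c) 1) := by
    funext π
    obtain ⟨d⟩ := exists_dat κ j hκ π
    rw [Finset.sum_apply, Finset.sum_eq_single d.D]
    · have h1 : theta Λ π = ev d.η (b d.D) := by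
        rw [theta, ← hb]
        congr 1
        funext g
        exact dat_char hκ d g
      rw [Pi.smul_apply, h1, ev_be κ j hκ, Finset.sum_apply, zsmul_eq_mul, Finset.mul_sum]
      refine Finset.sum_congr rfl fun c _ => ?_
      symm
      refine piece_value κ j hκ d _ c (hcen d.D c) (hinv d.D c) _ (fun hc => ?_)
        (fun hc => absurd c.2 hc)
      rw [hy, if_pos (resA_stab κ j d)]
      push_cast
      ring
    · intro D _ hD
      rw [Finset.sum_apply]
      refine Finset.sum_eq_zero fun c _ => ?_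
      have h0 : ev (resA κ d.D d.η) (y D c) = 0 := by
        rw [hy, if_neg]
        intro h
        apply hD
        ext c
        rw [← h c, resA_stab κ j d c]
      exact piece_value κ j hκ d _ c (hcen D c) (hinv D c) 0
        (fun hc => by rw [h0, zero_mul]) (fun hc => ⟨h0, rfl⟩)
    · intro h
      exact absurd (Finset.mem_univ _) h
  rw [key]
  refine Subring.sum_mem _ fun D _ => Subring.sum_mem _ fun c _ => ?_
  exact Subring.subset_closure (Or.inl ⟨_, hcen D c, rfl⟩)

/-- second multiple -/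
theorem partB (hκ : ∀ c, κ (j c) = c) (Λ : (G → ℂ) → ℂ)
    (b : ∀ D : Subgroup C, MonoidAlgebra ℤ (D.comap κ))
    (hb : ∀ (D : Subgroup C) (η : D.comap κ →* ℂˣ), Λ (indChar (D.comap κ) η) = ev η (b D))
    (p : ℕ) [hp : Fact p.Prime] (hpC : ¬ p ∣ Fintype.card C) :
    ∃ m : ℤ, ¬ (p : ℤ) ∣ m ∧ m • theta Λ ∈ integralityRing G := by
  classical
  have i1 : Fintype (G ⧸ κ.ker) := Fintype.ofFinite _
  have i2 : ∀ D : Subgroup C, Fintype D := fun D => Fintype.ofFinite _
  have i3 : Fintype (Subgroup C) := Fintype.ofFinite _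
  have hd : ∀ π : IrrRep G, Nonempty (Dat κ j π) := fun π => exists_dat κ j hκ π
  let d : ∀ π : IrrRep G, Dat κ j π := fun π => Classical.choice (hd π)
  let Φ : (∀ D : Subgroup C, MonoidAlgebra ℤ D) →+* (IrrRep G → ℂ) :=
    RingHom.pi fun π => ((ek (resD κ j hκ (d π).D (d π).η) :
      MonoidAlgebra ℤ (d π).D →+* ℂ)).comp (Pi.evalRingHom _ (d π).D)
  have hΦ : ∀ y π, Φ y π = ek (resD κ j hκ (d π).D (d π).η) (y (d π).D) := fun y π => rfl
  have hΦI : ∀ y ∈ normRing C, Φ y ∈ integralityRing G := by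
    intro y hy
    have h1 : normRing C ≤ (integralityRing G).comap Φ := by
      rw [normRing, Subring.closure_le]
      rintro _ ⟨x, rfl⟩
      change Φ (nmv x) ∈ integralityRing G
      have h2 : Φ (nmv x) = reducedNorm (Matrix.of fun _ _ : Fin 1 => emC j x) := by
        funext π
        rw [hΦ, reducedNorm_one, dat_det hκ (d π)]
      rw [h2]
      exact Subring.subset_closure (Or.inr ⟨1, _, rfl⟩)
    exact h1 hy
  obtain ⟨m, hm, hmy⟩ := norm_ring (C := C) p (by rwa [Nat.card_eq_fintype_card])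
  let E : ∀ D : Subgroup C, D → (∀ D : Subgroup C, MonoidAlgebra ℤ D) := fun D c =>
    Pi.single D (MonoidAlgebra.single c 1)
  let t : ∀ D : Subgroup C, D → MonoidAlgebra ℤ κ.ker := fun D c => trm κ j (be κ j D (b D) c)
  have hcen : ∀ (D : Subgroup C) (c : D), emb κ.ker (t D c)
      ∈ Subring.center (MonoidAlgebra ℤ G) := by
    intro D c
    exact emb_center κ.ker _ (inv_of_evC κ j hκ _ (ev_trm_cj κ j _))
  refine ⟨m * Fintype.card C, ?_, ?_⟩
  · intro h
    rcases (Nat.prime_iff_prime_int.1 hp.out).dvd_or_dvd h with h1 | h1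
    · exact hm h1
    · exact hpC (Int.natCast_dvd_natCast.1 h1)
  · have key : (m * (Fintype.card C : ℤ)) • theta Λ
        = ∑ D : Subgroup C, ∑ c : D, Φ (m • E D c) * centralValue (emb κ.ker (t D c)) := by
      funext π
      rw [Finset.sum_apply, Finset.sum_eq_single (d π).D]
      · have h1 : theta Λ π = ev (d π).η (b (d π).D) := by
          rw [theta, ← hb]
          congr 1
          funext g
          exact dat_char hκ (d π) g
        rw [Pi.smul_apply, h1, ev_be κ j hκ, Finset.sum_apply, zsmul_eq_mul, Finset.mul_sum]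
        refine Finset.sum_congr rfl fun c _ => ?_
        rw [Pi.mul_apply, emb_value κ j (d π) _ (hcen (d π).D c), hΦ]
        have h2 : ev (resA κ (d π).D (d π).η) (t (d π).D c)
            = (Fintype.card C : ℂ) * ev (resA κ (d π).D (d π).η) (be κ j (d π).D (b (d π).D) c) :=
          ev_trm κ j _ _ fun c' => be_conj κ j hκ (d π).D (b (d π).D) Λ (hb (d π).D) _
            (fun c hc => ((d π).hD c).2 hc) c' c
        have h3 : ek (resD κ j hκ (d π).D (d π).η) ((m • E (d π).D c) (d π).D)
            = (m : ℂ) * cv (resD κ j hκ (d π).D (d π).η) c := by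
          simp only [E]
          rw [Pi.smul_apply, Pi.single_eq_same, map_zsmul, ek_single, Int.cast_one, one_mul,
            zsmul_eq_mul]
          rfl
        rw [h2, h3]
        push_cast
        ring
      · intro D _ hD
        rw [Finset.sum_apply]
        refine Finset.sum_eq_zero fun c _ => ?_
        have h3 : (m • E D c) (d π).D = 0 := by
          simp only [E]
          rw [Pi.smul_apply, Pi.single_eq_of_ne (Ne.symm hD), smul_zero]
        rw [Pi.mul_apply, hΦ, h3, map_zero, zero_mul]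
      · intro h
        exact absurd (Finset.mem_univ _) h
    rw [key]
    refine Subring.sum_mem _ fun D _ => Subring.sum_mem _ fun c _ => Subring.mul_mem _ ?_ ?_
    · exact hΦI _ (hmy _)
    · exact Subring.subset_closure (Or.inl ⟨_, hcen D c, rfl⟩)

end

/-- an element of a subring of a torsion-free ring with multiples prime to every prime -/
theorem mem_of_primes {R : Type} [Ring R] (S : Subring R) (x : R)
    (h : ∀ p : ℕ, p.Prime → ∃ m : ℤ, ¬ (p : ℤ) ∣ m ∧ m • x ∈ S) : x ∈ S := by
  let J : Ideal ℤ :=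
    { carrier := {m | m • x ∈ S}
      add_mem' := fun {a b} ha hb => by
        change (a + b) • x ∈ S
        rw [add_smul]
        exact S.add_mem ha hb
      zero_mem' := by
        change (0 : ℤ) • x ∈ S
        rw [zero_smul]
        exact S.zero_mem
      smul_mem' := fun c a ha => by
        change (c * a) • x ∈ S
        rw [mul_smul]
        exact S.zsmul_mem ha c }
  obtain ⟨n, hn⟩ : ∃ n : ℤ, J = Ideal.span {n} := ⟨_, (Ideal.span_singleton_generator J).symm⟩
  by_cases h1 : n.natAbs = 1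
  · have h2 : (1 : ℤ) ∈ J := by
      rw [hn, Ideal.mem_span_singleton]
      exact Int.natAbs_dvd_natAbs.1 (by rw [h1]; exact one_dvd _)
    have h3 : (1 : ℤ) • x ∈ S := h2
    rwa [one_smul] at h3
  · exfalso
    obtain ⟨p, hp, hpn⟩ := Nat.exists_prime_and_dvd h1
    obtain ⟨m, hm, hmx⟩ := h p hp
    apply hm
    have h2 : m ∈ J := hmx
    rw [hn, Ideal.mem_span_singleton] at h2
    exact (Int.natCast_dvd.2 hpn).trans h2

end H25SI
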