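import Mathlib
import Pool.Agent.H25.SI.Two
import Pool.Agent.H25.SI.Meu

/-!
# Split metabelian groups
-/

set_option autoImplicit false
set_option linter.unusedSectionVars false

namespace H25SI

open Matrix
open scoped IsMulCommutative

theorem sub_mem_of_int {R : Type} [Ring R] (S : Subring R) (x : R) (Q : ℕ → Prop)
    (h0 : ∃ m : ℤ, m ≠ 0 ∧ m • x ∈ S)
    (h : ∀ p : ℕ, p.Prime → ¬ Q p → ∃ m : ℤ, ¬ (p : ℤ) ∣ m ∧ m • x ∈ S) :
    ∃ N : ℕ, N ≠ 0 ∧ (∀ p : ℕ, p.Prime → p ∣ N → Q p) ∧ (N : ℤ) • x ∈ S := by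
  let J : Ideal ℤ :=
    { carrier := {m | m • x ∈ S}
      add_mem' := fun {a b} ha hb => by
        change (a + b) • x ∈ S
        rw [add_smul]
        exact S.add_mem ha hb
      zero_mem' := by
        change (0 : ℤ) • x ∈ S
        rw [zero_smul]
        exact S.zero_mem
      smul_mem' := fun c a ha => by
        change (c * a) • x ∈ S
        rw [mul_smul]
        exact S.zsmul_mem ha c }
  obtain ⟨n, hn⟩ : ∃ n : ℤ, J = Ideal.span {n} := ⟨_, (Ideal.span_singleton_generator J).symm⟩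
  have hdvd : ∀ m : ℤ, m • x ∈ S → n ∣ m := by
    intro m hm
    have h2 : m ∈ J := hm
    rwa [hn, Ideal.mem_span_singleton] at h2
  refine ⟨n.natAbs, ?_, fun p hp hpn => ?_, ?_⟩
  · obtain ⟨m, hm0, hm⟩ := h0
    intro h1
    rw [Int.natAbs_eq_zero] at h1
    have h2 := hdvd m hm
    rw [h1, zero_dvd_iff] at h2
    exact hm0 h2
  · by_contra hQ
    obtain ⟨m, hm, hmx⟩ := h p hp hQ
    exact hm ((Int.natCast_dvd.2 hpn).trans (hdvd m hmx))
  · have h2 : (n.natAbs : ℤ) ∈ J := by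
      rw [hn, Ideal.mem_span_singleton]
      exact Int.dvd_natAbs.2 dvd_rfl
    exact h2

section
variable {G : Type} [Group G] [Fintype G] (A C : Subgroup G) [A.Normal]

theorem exists_split (hC : ∀ a ∈ C, ∀ b ∈ C, a * b = b * a) (hAC : A.IsComplement' C) :
    ∃ (κ : G →* C), (∀ c : C, κ c = c) ∧ κ.ker = A := by
  let f : C →* G ⧸ A := (QuotientGroup.mk' A).comp C.subtype
  have hf : Function.Bijective f := by
    constructor
    · rw [injective_iff_map_eq_one]
      intro c hc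
      have h1 : (c : G) ∈ A := (QuotientGroup.eq_one_iff _).1 hc
      have h2 : (c : G) ∈ A ⊓ C := ⟨h1, c.2⟩
      rw [hAC.disjoint.eq_bot, Subgroup.mem_bot] at h2
      exact Subtype.ext h2
    · intro q
      induction q using QuotientGroup.induction_on with | _ g
      obtain ⟨⟨a, c⟩, h⟩ := hAC.2 g
      refine ⟨c, ?_⟩
      have h' : (a : G) * (c : G) = g := h
      change ((c : G) : G ⧸ A) = (g : G ⧸ A)
      have h3 : ((a : G) : G ⧸ A) = 1 := (QuotientGroup.eq_one_iff _).2 a.2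
      rw [← h', QuotientGroup.mk_mul, h3, one_mul]
  let e : C ≃* G ⧸ A := MulEquiv.ofBijective f hf
  refine ⟨e.symm.toMonoidHom.comp (QuotientGroup.mk' A), fun c => ?_, ?_⟩
  · change e.symm ((c : G) : G ⧸ A) = c
    rw [MulEquiv.symm_apply_eq]
    rfl
  · ext g
    rw [MonoidHom.mem_ker]
    change e.symm ((g : G) : G ⧸ A) = 1 ↔ g ∈ A
    rw [MulEquiv.symm_apply_eq, map_one, QuotientGroup.eq_one_iff]

theorem split_thm (hA : ∀ a ∈ A, ∀ b ∈ A, a * b = b * a) (hC : ∀ a ∈ C, ∀ b ∈ C, a * b = b * a)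
    (hAC : A.IsComplement' C) (Λ : (G → ℂ) → ℂ) (hΛ : ∀ H : Subgroup G, A ≤ H → IntegralAt Λ H) :
    ∃ N : ℕ, N ≠ 0 ∧ (∀ p : ℕ, p.Prime → p ∣ N → p ∣ Nat.card (commutator G) ∧ p ∣ Nat.card C) ∧
      (N : ℤ) • theta Λ ∈ integralityRing G := by
  classical
  have iC : IsMulCommutative C := ⟨⟨fun a b => Subtype.ext (hC a a.2 b b.2)⟩⟩
  obtain ⟨κ, hκ, hker⟩ := exists_split A C hC hAC
  have hQ : ∀ x y : G, x * y * x⁻¹ * y⁻¹ ∈ A := by
    intro x y
    rw [← hker, MonoidHom.mem_ker, map_mul, map_mul, map_mul, map_inv, map_inv, mul_comm (κ x),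
      mul_inv_cancel_right, mul_inv_cancel]
  have iA : IsMulCommutative κ.ker := ⟨⟨fun a b => Subtype.ext
    (hA a (by rw [← hker]; exact a.2) b (by rw [← hker]; exact b.2))⟩⟩
  have i1 : Fintype κ.ker := Fintype.ofFinite _
  have i2 : Fintype C := Fintype.ofFinite _
  -- the first multiple
  obtain ⟨z, hz, hzv⟩ := metabelian A hA hQ Λ hΛ
  have h1 : (Nat.card (commutator G) : ℤ) • theta Λ ∈ integralityRing G := by
    have h2 : (Nat.card (commutator G) : ℤ) • theta Λ = centralValue z := by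
      funext π
      rw [hzv, Pi.smul_apply, zsmul_eq_mul, Int.cast_natCast]
    rw [h2]
    exact Subring.subset_closure (Or.inl ⟨z, hz, rfl⟩)
  -- the second multiples
  choose b hb using fun D : Subgroup C => hΛ (D.comap κ) (by rw [← hker]; exact ker_le κ D)
  refine sub_mem_of_int _ _ (fun p => p ∣ Nat.card (commutator G) ∧ p ∣ Nat.card C)
    ⟨_, ?_, h1⟩ fun p hp hQp => ?_
  · have : 0 < Nat.card (commutator G) := Nat.card_pos
    exact_mod_cast this.ne'
  · by_cases h2 : p ∣ Nat.card C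
    · refine ⟨_, fun h3 => hQp ⟨?_, h2⟩, h1⟩
      exact Int.natCast_dvd_natCast.1 h3
    · have : Fact p.Prime := ⟨hp⟩
      exact partB (C := C) κ C.subtype hκ Λ b hb p (by rwa [← Nat.card_eq_fintype_card])

/-- abelian normal Hall subgroups with abelian quotient -/
theorem hall_thm (hA : ∀ a ∈ A, ∀ b ∈ A, a * b = b * a) (hQ : ∀ x y : G, x * y * x⁻¹ * y⁻¹ ∈ A)
    (hcop : Nat.Coprime (Nat.card A) A.index) (Λ : (G → ℂ) → ℂ)
    (hΛ : ∀ H : Subgroup G, A ≤ H → IntegralAt Λ H) : theta Λ ∈ integralityRing G := by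
  obtain ⟨C, hAC⟩ := Subgroup.exists_right_complement'_of_coprime hcop
  have hC : ∀ a ∈ C, ∀ b ∈ C, a * b = b * a := by
    intro a ha b hb
    have h1 : a * b * a⁻¹ * b⁻¹ ∈ A ⊓ C :=
      ⟨hQ a b, C.mul_mem (C.mul_mem (C.mul_mem ha hb) (C.inv_mem ha)) (C.inv_mem hb)⟩
    rw [hAC.disjoint.eq_bot, Subgroup.mem_bot, mul_inv_eq_one, mul_inv_eq_iff_eq_mul] at h1
    exact h1
  obtain ⟨N, hN0, hN1, hN2⟩ := split_thm A C hA hC hAC Λ hΛ
  have hN : N = 1 := by
    by_contra hne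
    obtain ⟨p, hp, hpN⟩ := Nat.exists_prime_and_dvd hne
    obtain ⟨h1, h2⟩ := hN1 p hp hpN
    have hGA : commutator G ≤ A := by
      rw [commutator_def, Subgroup.commutator_le]
      intro x _ y _
      exact hQ x y
    have h3 : p ∣ Nat.card A := h1.trans (Subgroup.card_dvd_of_le hGA)
    have h4 : Nat.card C = A.index := hAC.symm.index_eq_card.symm ▸ rfl
    rw [h4] at h2
    have h5 := Nat.dvd_gcd h3 h2
    rw [hcop] at h5
    exact hp.one_lt.ne' (Nat.dvd_one.1 h5)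
  rw [hN, Nat.cast_one, one_smul] at hN2
  exact hN2

end

end H25SI
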